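import Pool.Agent.Lib.MP_39c2b7_co.Data.Pats

/-! Certificates of the configurations 10 to 19. -/

namespace StrongArb.Data

def c10 : PatCert where
  P := p10
  bl := [[0, 1, 2, 3, 4, 7, 9], [5], [6], [8], [10], [11]]
  exc := [(6, 4), (8, 4)]
  paths := [[0, 1, 2], [0, 3, 4], [0, 1, 2, 5], [0, 1, 6], [0, 3, 10], [0, 3, 11], [1, 3, 4], [1, 2, 5], [1, 0, 8], [1, 0, 9], [1, 3, 10], [1, 3, 11], [2, 1, 7], [2, 1, 0, 8], [2, 3, 9], [2, 3, 10], [2, 3, 11], [3, 2, 5], [3, 1, 6], [3, 1, 7], [3, 0, 8], [4, 2, 6], [4, 3, 1, 7], [4, 3, 0, 8], [4, 3, 9], [4, 3, 10], [5, 2, 1, 7], [5, 2, 1, 0, 8], [5, 2, 3, 9], [5, 2, 3, 10], [5, 2, 3, 11], [6, 1, 0, 8], [6, 2, 3, 9], [6, 2, 3, 10], [6, 2, 3, 11], [7, 0, 9], [7, 1, 3, 10], [7, 1, 3, 11], [8, 0, 3, 10], [8, 0, 3, 11], [9, 3, 11]]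
  fb := [(1, [7, 1, 2, 5], [6, 1, 0, 3, 2, 5, 7]), (1, [9, 0, 7], [8, 0, 3, 1, 7, 12, 9])]

theorem b10 : c10.certB links 10 = true := by decide +kernel

def c11 : PatCert where
  P := p11
  bl := [[0, 1, 2, 3, 4, 7, 9], [5], [6], [8], [10], [11]]
  exc := [(8, 4), (11, 4)]
  paths := [[0, 1, 2], [0, 1, 4], [0, 1, 2, 5], [0, 1, 2, 6], [0, 3, 7], [0, 3, 8], [1, 2, 5], [1, 2, 6], [1, 3, 7], [1, 3, 8], [1, 0, 9], [1, 0, 10], [2, 3, 8], [2, 3, 9], [2, 1, 0, 10], [2, 1, 11], [3, 1, 4], [3, 2, 5], [3, 2, 6], [3, 0, 10], [3, 1, 11], [4, 2, 6], [4, 2, 7], [4, 2, 3, 8], [4, 2, 3, 9], [4, 1, 0, 10], [5, 2, 7], [5, 2, 3, 8], [5, 2, 3, 9], [5, 2, 1, 0, 10], [5, 2, 1, 11], [6, 2, 3, 8], [6, 2, 3, 9], [6, 2, 1, 0, 10], [6, 2, 1, 11], [7, 3, 9], [7, 3, 0, 10], [7, 3, 1, 11], [8, 3, 0, 10], [8,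 3, 1, 11], [9, 0, 11]]
  fb := [(4, [9, 3, 7], [8, 3, 1, 0, 11, 4, 2, 7, 12, 9]), (1, [4, 1, 0, 10], [11, 1, 2, 3, 0, 10, 4])]

theorem b11 : c11.certB links 11 = true := by decide +kernel

def c12 : PatCert where
  P := p12
  bl := [[2, 4], [0, 1, 3, 5, 8, 11], [6], [7], [9], [10]]
  exc := [(5, 4), (9, 4), (11, 4)]
  paths := [[0, 1, 2], [0, 1, 3], [0, 1, 2, 4], [0, 1, 5], [0, 1, 3, 6], [0, 1, 3, 7], [0, 1, 8], [1, 2, 4], [1, 3, 6], [1, 3, 7], [1, 0, 10], [2, 1, 3], [2, 1, 3, 6], [2, 1, 3, 7], [2, 1, 8], [2, 1, 9], [2, 1, 0, 10], [3, 1, 2, 4], [3, 1, 9], [3, 1, 0, 10], [3, 1, 11], [4, 2, 1, 3, 6], [4, 2, 1, 3, 7], [4, 2, 1, 8], [4, 2, 1, 9], [4, 2, 1, 0, 10], [5, 3, 7], [5, 1, 8], [5, 1, 9], [5, 1, 0, 10], [5, 1, 11], [6, 3, 8], [6, 3, 1, 9], [6, 3, 1, 0, 10], [6, 3, 1, 11],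 [7, 3, 1, 9], [7, 3, 1, 0, 10], [7, 3, 1, 11], [8, 1, 0, 10], [8, 1, 11], [9, 1, 11]]
  fb := [(0, [6, 3, 1, 2, 4], [2, 5, 3, 1, 11, 6]), (0, [10, 0, 1, 8], [0, 9, 8, 10, 11, 1]), (0, [4, 2, 1, 0, 10], [0, 11, 2, 1, 9, 4])]

theorem b12 : c12.certB links 12 = true := by decide +kernel

def c13 : PatCert where
  P := p13
  bl := [[1, 2, 4], [5], [0, 9, 3, 6, 11], [7], [8], [10]]
  exc := [(4, 4), (6, 4), (9, 4)]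
  paths := [[0, 1, 2], [0, 1, 3], [0, 1, 4], [0, 1, 2, 5], [0, 1, 6], [0, 1, 3, 7], [0, 1, 3, 8], [1, 2, 5], [1, 3, 7], [1, 3, 8], [1, 0, 10], [2, 1, 3], [2, 1, 3, 7], [2, 1, 3, 8], [2, 1, 9], [2, 1, 0, 10], [2, 1, 11], [3, 1, 4], [3, 1, 2, 5], [3, 1, 0, 10], [3, 1, 11], [4, 2, 6], [4, 1, 3, 7], [4, 1, 3, 8], [4, 1, 9], [4, 1, 0, 10], [5, 2, 1, 3, 7], [5, 2, 1, 3, 8], [5, 2, 1, 9], [5, 2, 1, 0, 10], [5, 2, 1, 11], [6, 3, 8], [6, 1, 9], [6, 1, 0, 10], [6, 1, 11], [7, 3, 9], [7, 3, 1, 0, 10], [7, 3, 1, 11], [8, 3, 1, 0, 10], [8, 3, 1, 11], [9, 1, 11]]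
  fb := [(0, [5, 2, 1, 11], [2, 4, 11, 5, 6, 1]), (0, [7, 3, 1, 2, 5], [2, 6, 3, 1, 4, 7]), (0, [10, 0, 1, 3, 8], [0, 9, 3, 10, 11, 1])]

theorem b13 : c13.certB links 13 = true := by decide +kernel

def c14 : PatCert where
  P := p14
  bl := [[3, 4], [2, 5], [6], [0, 1, 7, 11], [8], [9], [10]]
  exc := [(11, 4), (11, 5)]
  paths := [[0, 1, 2], [0, 1, 2, 3], [0, 1, 2, 3, 4], [0, 1, 2, 5], [0, 1, 2, 6], [0, 1, 7], [0, 1, 8], [1, 2, 3], [1, 2, 3, 4], [1, 2, 5], [1, 2, 6], [1, 0, 10], [2, 3, 4], [2, 1, 8], [2, 1, 9], [2, 1, 0, 10], [3, 2, 6], [3, 2, 7], [3, 2, 1, 8], [3, 2, 1, 9], [3, 2, 1, 0, 10], [4, 3, 2, 6], [4, 3, 2, 7], [4, 3, 2, 1, 8], [4, 3, 2, 1, 9], [4, 3, 2, 1, 0, 10], [5, 2, 7], [5, 2, 1, 8], [5, 2, 1, 9], [5, 2, 1, 0, 10], [5, 3, 11], [6, 2, 1, 8], [6, 2, 1, 9], [6, 2,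 1, 0, 10], [6, 2, 11], [7, 1, 9], [7, 1, 0, 10], [7, 1, 11], [8, 1, 0, 10], [8, 1, 11], [9, 1, 11]]
  fb := [(0, [4, 3, 2, 1, 0, 10], [4, 11, 2, 1, 9, 3]), (1, [4, 3, 2, 1, 0, 10], [0, 11, 3, 2, 1, 9, 4])]

theorem b14 : c14.certB links 14 = true := by decide +kernel

def c15 : PatCert where
  P := p15
  bl := [[2, 4], [0, 1, 3, 5, 9, 11], [6], [7], [8], [10]]
  exc := [(5, 4), (11, 4)]
  paths := [[0, 1, 2], [0, 1, 3], [0, 1, 2, 4], [0, 1, 5], [0, 1, 3, 6], [0, 1, 7], [0, 1, 8], [1, 2, 4], [1, 3, 6], [1, 0, 10], [2, 1, 3], [2, 1, 3, 6], [2, 1, 7], [2, 1, 8], [2, 1, 9], [2, 1, 0, 10], [3, 1, 2, 4], [3, 1, 8], [3, 1, 9], [3, 1, 0, 10], [3, 1, 11], [4, 2, 1, 3, 6], [4, 2, 1, 7], [4, 2, 1, 8], [4, 2, 1, 9], [4, 2, 1, 0, 10], [5, 1, 7], [5, 1, 8], [5, 1, 9], [5, 1, 0, 10], [5, 1, 11],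 [6, 3, 1, 8], [6, 3, 1, 9], [6, 3, 1, 0, 10], [6, 3, 1, 11], [7, 1, 9], [7, 1, 0, 10], [7, 1, 11], [8, 1, 0, 10], [8, 1, 11], [9, 1, 11]]
  fb := [(0, [6, 3, 1, 2, 4], [2, 5, 3, 1, 11, 6]), (0, [4, 2, 1, 0, 10], [0, 11, 2, 1, 9, 4])]

theorem b15 : c15.certB links 15 = true := by decide +kernel

def c16 : PatCert where
  P := p16
  bl := [[4], [0, 1, 2, 5, 9, 12], [6], [7], [8], [10], [11], [3]]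
  exc := [(4, 4), (9, 4), (12, 4)]
  paths := [[0, 1, 2], [0, 1, 3], [0, 1, 2, 4], [0, 1, 3, 5], [0, 1, 3, 6], [0, 1, 3, 7], [0, 1, 3, 8], [1, 2, 4], [1, 3, 5], [1, 3, 6], [1, 3, 7], [1, 3, 8], [1, 0, 10], [1, 0, 11], [2, 3, 6], [2, 3, 7], [2, 3, 8], [2, 1, 9], [2, 1, 0, 10], [2, 1, 0, 11], [3, 2, 4], [3, 1, 0, 10], [3, 1, 0, 11], [3, 1, 12], [4, 2, 3, 6], [4, 2, 3, 7], [4, 2, 3, 8], [4, 2, 1, 9], [4, 2, 1, 0, 10], [4, 2, 1, 0, 11], [5, 3, 7], [5, 3, 8], [5, 3, 9], [5, 2, 1, 0, 10], [5, 3, 1, 0, 11], [5, 2, 12], [6, 3, 8], [6, 3, 9], [6, 3, 1, 0, 10], [6, 3, 1, 0, 11], [6, 3, 1, 12], [7, 3, 9], [7, 3, 1, 0, 10], [7, 3, 1, 0, 11], [7, 3, 1, 12], [8, 3, 1, 0, 10], [8, 3, 1, 0, 11], [8, 3, 1, 12], [9, 0, 11], [9, 1, 12], [10, 0, 12]]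
  fb := [(1, [5, 2, 12], [4, 2, 3, 1, 12, 13, 5]), (1, [10, 0, 1, 3, 8], [9, 0, 11, 12, 1, 3, 10]), (1, [4, 2, 1, 0, 11], [12, 2, 5, 3, 1, 0, 4])]

theorem b16 : c16.certB links 16 = true := by decide +kernel

def c17 : PatCert where
  P := p17
  bl := [[2, 4], [5], [0, 1, 3, 6, 9, 12], [7], [8], [10], [11]]
  exc := [(6, 4), (10, 4), (12, 4)]
  paths := [[0, 1, 2], [0, 1, 3], [0, 1, 2, 4], [0, 1, 2, 5], [0, 1, 6], [0, 1, 3, 7], [0, 1, 3, 8], [0, 1, 9], [1, 2, 4], [1, 2, 5], [1, 3, 7], [1, 3, 8], [1, 0, 11], [2, 1, 3], [2, 1, 3, 7], [2, 1, 3, 8], [2, 1, 9], [2, 1, 10], [2, 1, 0, 11], [3, 1, 2, 4], [3, 1, 2, 5], [3, 1, 10], [3, 1, 0, 11], [3, 1, 12], [4, 2, 6], [4, 2, 1, 3, 7], [4, 2, 1, 3, 8], [4, 2, 1, 9], [4, 2, 1, 10], [4, 2, 1, 0, 11], [5, 2, 1, 3, 7], [5, 2, 1, 3, 8], [5,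 2, 1, 9], [5, 2, 1, 10], [5, 2, 1, 0, 11], [5, 2, 12], [6, 3, 8], [6, 1, 9], [6, 1, 10], [6, 1, 0, 11], [6, 2, 12], [7, 3, 9], [7, 3, 1, 10], [7, 3, 1, 0, 11], [7, 3, 1, 12], [8, 3, 1, 10], [8, 3, 1, 0, 11], [8, 3, 1, 12], [9, 1, 0, 11], [9, 1, 12], [10, 0, 12]]
  fb := [(1, [7, 3, 1, 2, 5], [6, 3, 8, 9, 1, 2, 7]), (0, [11, 0, 1, 9], [0, 10, 9, 11, 12, 1]), (0, [4, 2, 1, 0, 11], [0, 12, 2, 1, 10, 4])]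

theorem b17 : c17.certB links 17 = true := by decide +kernel

def c18 : PatCert where
  P := p18
  bl := [[2, 4], [0, 1, 5, 10, 12], [3, 6, 9], [7], [8], [11]]
  exc := [(12, 4)]
  paths := [[0, 1, 2], [0, 1, 3], [0, 1, 2, 4], [0, 1, 5], [0, 1, 6], [0, 1, 3, 7], [0, 1, 3, 8], [0, 1, 9], [1, 2, 4], [1, 3, 7], [1, 3, 8], [1, 0, 11], [2, 1, 3], [2, 1, 6], [2, 1, 3, 7], [2, 1, 3, 8], [2, 1, 9], [2, 1, 10], [2, 1, 0, 11], [3, 1, 2, 4], [3, 1, 5], [3, 1, 10], [3, 1, 0, 11], [3, 1, 12], [4, 2, 1, 6], [4, 2, 1, 3, 7], [4, 2, 1, 3, 8], [4, 2, 1, 9], [4, 2, 1, 10], [4, 2, 1, 0, 11], [5, 1, 3, 7], [5, 1, 3, 8], [5, 1, 9], [5, 1, 10], [5, 1, 0, 11], [5, 1, 12], [6, 3, 8], [6, 1, 9], [6, 1, 10], [6, 1, 0, 11], [6, 1, 12], [7, 3, 9], [7, 3, 1, 10], [7, 3, 1, 0, 11], [7, 3, 1, 12], [8, 3, 1,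 10], [8, 3, 1, 0, 11], [8, 3, 1, 12], [9, 1, 0, 11], [9, 1, 12], [10, 1, 12]]
  fb := [(0, [4, 2, 1, 0, 11], [0, 12, 2, 1, 10, 4])]

theorem b18 : c18.certB links 18 = true := by decide +kernel

def c19 : PatCert where
  P := p19
  bl := [[1, 2, 3, 4, 6, 9], [5], [7], [8], [0, 10, 12], [11]]
  exc := [(6, 4)]
  paths := [[0, 1, 2], [0, 1, 3], [0, 1, 4], [0, 1, 2, 5], [0, 1, 6], [0, 1, 3, 7], [0, 1, 3, 8], [0, 1, 9], [1, 2, 5], [1, 3, 7], [1, 3, 8], [1, 0, 11], [2, 1, 3], [2, 1, 3, 7], [2, 1, 3, 8], [2, 1, 9], [2, 1, 10], [2, 1, 0, 11], [2, 1, 12], [3, 1, 4], [3, 1, 2, 5], [3, 1, 10], [3, 1, 0, 11], [3, 1, 12], [4, 1, 6], [4, 1, 3, 7], [4, 1, 3, 8], [4, 1, 9], [4, 1, 10], [4, 1, 0, 11], [5, 2, 1, 3, 7], [5, 2, 1, 3, 8], [5, 2, 1, 9], [5, 2, 1, 10], [5, 2, 1, 0, 11], [5, 2, 1, 12],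 [6, 3, 8], [6, 1, 9], [6, 1, 10], [6, 1, 0, 11], [6, 1, 12], [7, 3, 9], [7, 3, 1, 10], [7, 3, 1, 0, 11], [7, 3, 1, 12], [8, 3, 1, 10], [8, 3, 1, 0, 11], [8, 3, 1, 12], [9, 1, 0, 11], [9, 1, 12], [10, 1, 12]]
  fb := [(0, [7, 3, 1, 2, 5], [2, 6, 3, 1, 4, 7])]

theorem b19 : c19.certB links 19 = true := by decide +kernel

end StrongArb.Data
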