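import Pool.Agent.Lib.MP_39c2b7_co.Data.Pats

/-! Certificates of the configurations 20 to 29. -/

namespace StrongArb.Data

def c20 : PatCert where
  P := p20
  bl := [[1, 2, 3, 4, 5, 8, 10], [6], [7], [9], [0, 11, 13], [12]]
  exc := [(9, 4)]
  paths := [[0, 1, 2], [0, 1, 2, 3], [0, 1, 4], [0, 1, 5], [0, 1, 2, 3, 6], [0, 1, 2, 3, 7], [0, 1, 4, 8], [0, 1, 4, 9], [0, 1, 10], [1, 2, 3], [1, 2, 3, 6], [1, 2, 3, 7], [1, 4, 8], [1, 4, 9], [1, 0, 12], [2, 3, 6], [2, 3, 7], [2, 4, 8], [2, 4, 9], [2, 4, 10], [2, 1, 11], [2, 1, 0, 12], [2, 1, 13], [3, 4, 9], [3, 4, 10], [3, 4, 1, 11], [3, 4, 1, 0, 12], [3, 4, 1, 13], [4, 3, 5], [4, 3, 6], [4, 3, 7], [4, 1, 11], [4, 1, 0, 12], [4, 1, 13], [5, 3, 7], [5, 3, 8], [5, 1, 4, 9], [5, 1, 10], [5, 1, 11], [5, 1, 0, 12], [6, 3, 8], [6, 3, 4, 9],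 [6, 3, 4, 10], [6, 3, 4, 1, 11], [6, 3, 4, 1, 0, 12], [6, 3, 4, 1, 13], [7, 3, 4, 9], [7, 3, 4, 10], [7, 3, 4, 1, 11], [7, 3, 4, 1, 0, 12], [7, 3, 4, 1, 13], [8, 4, 10], [8, 4, 1, 11], [8, 4, 1, 0, 12], [8, 4, 1, 13], [9, 4, 1, 11], [9, 4, 1, 0, 12], [9, 4, 1, 13], [10, 1, 0, 12], [10, 1, 13], [11, 1, 13]]
  fb := [(2, [10, 4, 8], [2, 4, 9, 8, 14, 10, 1, 5, 3])]

theorem b20 : c20.certB links 20 = true := by decide +kernel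

def c21 : PatCert where
  P := p21
  bl := [[1, 5], [0, 2, 3, 6, 13], [7], [8], [4, 9, 12], [10], [11]]
  exc := [(5, 4), (6, 4)]
  paths := [[0, 2, 3], [0, 1, 5], [0, 2, 6], [0, 2, 3, 7], [0, 2, 8], [0, 2, 9], [0, 4, 10], [0, 4, 11], [1, 2, 3], [1, 0, 4], [1, 2, 3, 7], [1, 2, 8], [1, 2, 9], [1, 0, 4, 10], [1, 0, 4, 11], [1, 0, 12], [2, 1, 5], [2, 3, 7], [2, 4, 10], [2, 4, 11], [2, 4, 12], [2, 1, 13], [3, 2, 4], [3, 2, 1, 5], [3, 2, 9], [3, 2, 4, 10], [3, 2, 4, 11], [3, 2, 4, 12], [3, 2, 1, 13], [4, 0, 1, 5], [4, 2, 6], [4, 2, 3, 7], [4, 2, 8], [4, 0, 13], [5, 1, 2, 3, 7], [5, 1, 2, 8], [5, 1, 2, 9], [5, 1, 0, 4, 10], [5, 1, 0, 4, 11], [5, 1, 0, 12], [6, 2, 8], [6, 2, 9], [6, 2, 4, 10], [6, 2, 4, 11], [6, 2, 4, 12], [6, 1, 13], [7, 3, 2, 9], [7, 3, 2, 4, 10], [7, 3, 2, 4, 11],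 [7, 3, 2, 4, 12], [7, 3, 2, 0, 13], [8, 2, 4, 10], [8, 2, 4, 11], [8, 2, 4, 12], [8, 2, 1, 13], [9, 4, 11], [9, 4, 12], [9, 2, 1, 13], [10, 4, 12], [10, 4, 0, 13], [11, 4, 0, 13]]
  fb := [(1, [6, 1, 13], [5, 1, 2, 0, 13, 14, 6]), (0, [7, 3, 2, 1, 5], [3, 6, 1, 7, 8, 2])]

theorem b21 : c21.certB links 21 = true := by decide +kernel

def c22 : PatCert where
  P := p22
  bl := [[0, 1, 4, 5, 11], [2, 3, 6, 10], [7], [8], [9], [12], [13]]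
  exc := [(6, 4)]
  paths := [[0, 2, 3], [0, 1, 5], [0, 2, 6], [0, 2, 3, 7], [0, 2, 8], [0, 2, 9], [0, 4, 12], [0, 4, 13], [1, 2, 3], [1, 2, 3, 7], [1, 2, 8], [1, 2, 9], [1, 0, 10], [1, 0, 11], [1, 4, 12], [1, 4, 13], [2, 1, 4], [2, 1, 5], [2, 3, 7], [2, 0, 11], [2, 1, 4, 12], [2, 1, 4, 13], [3, 2, 1, 4], [3, 2, 1, 5], [3, 2, 9], [3, 2, 10], [3, 2, 0, 11], [3, 2, 1, 4, 12], [3, 2, 1, 4, 13], [4, 1, 6], [4, 0, 2, 3, 7], [4, 0, 2, 8], [4, 0, 2, 9], [4, 0, 10], [5, 1, 2, 3, 7], [5, 1, 2, 8], [5, 1, 2, 9], [5, 4, 0, 10], [5, 4, 11], [5, 4, 12], [6, 2, 8], [6, 2, 9], [6, 2, 10], [6, 2, 0, 11], [6, 1, 4, 12], [6, 1, 4, 13], [7, 3, 2, 9], [7, 3, 2, 10], [7, 3, 2, 0, 11], [7, 3, 2, 1, 4, 12], [7, 3, 2, 1, 4, 13], [8, 2, 10], [8, 2, 0, 11], [8, 2, 1, 4, 12], [8, 2, 1, 4, 13], [9, 2, 0,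 11], [9, 2, 1, 4, 12], [9, 2, 1, 4, 13], [10, 0, 4, 12], [10, 0, 4, 13], [11, 4, 13]]
  fb := [(0, [7, 3, 2, 1, 5], [3, 6, 1, 7, 8, 2])]

theorem b22 : c22.certB links 22 = true := by decide +kernel

def c23 : PatCert where
  P := p23
  bl := [[1, 2, 3, 4, 5, 8, 10], [6], [7], [9], [0, 11, 13], [12]]
  exc := [(8, 4), (12, 4)]
  paths := [[0, 1, 2], [0, 3, 4], [0, 1, 5], [0, 1, 2, 6], [0, 1, 2, 7], [0, 3, 8], [0, 3, 4, 9], [0, 3, 10], [1, 3, 4], [1, 2, 6], [1, 2, 7], [1, 3, 8], [1, 3, 4, 9], [1, 3, 10], [1, 0, 11], [1, 0, 12], [2, 3, 4], [2, 3, 4, 9], [2, 3, 10], [2, 3, 11], [2, 1, 0, 12], [2, 1, 13], [3, 1, 5], [3, 2, 6], [3, 2, 7], [3, 4, 9], [3, 0, 12], [3, 1, 13], [4, 3, 1, 5], [4, 3, 2, 6], [4, 3, 2, 7], [4, 3, 11], [4, 3, 0, 12], [4, 3, 1, 13], [5, 2, 7], [5, 2, 8], [5,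 1, 3, 4, 9], [5, 1, 3, 10], [5, 1, 0, 11], [5, 1, 0, 12], [6, 2, 8], [6, 2, 3, 4, 9], [6, 2, 3, 10], [6, 2, 3, 11], [6, 2, 1, 0, 12], [6, 2, 1, 13], [7, 2, 3, 4, 9], [7, 2, 3, 10], [7, 2, 3, 11], [7, 2, 1, 0, 12], [7, 2, 1, 13], [8, 3, 10], [8, 3, 11], [8, 3, 0, 12], [8, 3, 1, 13], [9, 4, 3, 11], [9, 4, 3, 0, 12], [9, 4, 3, 1, 13], [10, 3, 0, 12], [10, 3, 1, 13], [11, 0, 13]]
  fb := [(0, [9, 4, 3, 2, 7], [4, 8, 2, 9, 10, 3]), (1, [13, 0, 11], [12, 0, 1, 3, 11, 14, 13])]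

theorem b23 : c23.certB links 23 = true := by decide +kernel

def c24 : PatCert where
  P := p24
  bl := [[0, 1, 4, 5, 11], [2, 6, 10], [3, 7, 9], [8], [12], [13]]
  exc := [(6, 4), (10, 4)]
  paths := [[0, 2, 3], [0, 1, 5], [0, 2, 6], [0, 2, 7], [0, 2, 3, 8], [0, 2, 9], [0, 4, 12], [0, 4, 13], [1, 2, 3], [1, 2, 7], [1, 2, 3, 8], [1, 2, 9], [1, 0, 10], [1, 0, 11], [1, 4, 12], [1, 4, 13], [2, 1, 4], [2, 1, 5], [2, 3, 8], [2, 0, 11], [2, 1, 4, 12], [2, 1, 4, 13], [3, 2, 1, 4], [3, 2, 1, 5], [3, 2, 6], [3, 2, 10], [3, 2, 0, 11], [3, 2, 1, 4, 12], [3, 2, 1, 4, 13], [4, 1, 6], [4, 0, 2, 7], [4, 0, 2, 3, 8], [4, 0, 2, 9], [4, 0, 10], [5, 1, 2, 7], [5, 1, 2, 3, 8], [5, 1, 2, 9], [5, 4, 0, 10], [5, 4, 11], [5, 4, 12], [6, 2, 3, 8], [6, 2, 9], [6, 2, 10], [6, 2, 0, 11], [6, 1, 4, 12],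 [6, 1, 4, 13], [7, 2, 9], [7, 2, 10], [7, 2, 0, 11], [7, 2, 1, 4, 12], [7, 2, 1, 4, 13], [8, 3, 2, 10], [8, 3, 2, 0, 11], [8, 3, 2, 1, 4, 12], [8, 3, 2, 1, 4, 13], [9, 2, 0, 11], [9, 2, 1, 4, 12], [9, 2, 1, 4, 13], [10, 0, 4, 12], [10, 0, 4, 13], [11, 4, 13]]
  fb := [(1, [7, 2, 1, 5], [6, 1, 0, 4, 5, 7, 2]), (1, [11, 0, 2, 9], [10, 0, 4, 1, 2, 9, 11])]

theorem b24 : c24.certB links 24 = true := by decide +kernel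

def c25 : PatCert where
  P := p25
  bl := [[1, 2, 3, 4, 5, 8, 10], [6], [7], [9], [0, 11, 13], [12]]
  exc := [(8, 4)]
  paths := [[0, 1, 2], [0, 1, 3], [0, 1, 4], [0, 1, 3, 5], [0, 1, 3, 6], [0, 1, 3, 7], [0, 1, 8], [0, 1, 4, 9], [0, 1, 10], [1, 3, 5], [1, 3, 6], [1, 3, 7], [1, 4, 9], [1, 0, 12], [2, 1, 4], [2, 3, 6], [2, 3, 7], [2, 1, 8], [2, 1, 4, 9], [2, 1, 10], [2, 1, 11], [2, 1, 0, 12], [3, 1, 4], [3, 1, 4, 9], [3, 1, 10], [3, 1, 11], [3, 1, 0, 12], [3, 1, 13], [4, 1, 3, 5], [4, 1, 3, 6], [4, 1, 3, 7], [4, 1, 11], [4, 1, 0, 12], [4, 1, 13], [5, 3, 7], [5, 3, 8], [5, 2, 1, 4, 9], [5, 3, 1, 10], [5, 3, 1, 11], [5, 3, 1, 0, 12], [6, 3, 8], [6, 3, 1, 4, 9], [6, 3, 1, 10], [6, 3, 1, 11], [6, 3, 1, 0, 12], [6, 3, 1, 13], [7, 3, 1, 4, 9], [7, 3, 1, 10], [7, 3, 1, 11], [7, 3,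 1, 0, 12], [7, 3, 1, 13], [8, 1, 10], [8, 1, 11], [8, 1, 0, 12], [8, 1, 13], [9, 4, 1, 11], [9, 4, 1, 0, 12], [9, 4, 1, 13], [10, 1, 0, 12], [10, 1, 13], [11, 1, 13]]
  fb := [(0, [9, 4, 1, 3, 7], [4, 8, 3, 9, 10, 1])]

theorem b25 : c25.certB links 25 = true := by decide +kernel

def c26 : PatCert where
  P := p26
  bl := [[2, 5], [0, 1, 3, 4, 6, 9, 13], [7], [8], [10], [11], [12]]
  exc := [(6, 4), (13, 4)]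
  paths := [[0, 1, 2], [0, 1, 3], [0, 1, 4], [0, 1, 2, 5], [0, 1, 6], [0, 1, 3, 7], [0, 1, 3, 8], [0, 1, 3, 9], [0, 1, 10], [1, 2, 5], [1, 3, 7], [1, 3, 8], [1, 3, 9], [1, 0, 12], [2, 1, 3], [2, 1, 4], [2, 1, 3, 7], [2, 1, 3, 8], [2, 1, 3, 9], [2, 1, 10], [2, 1, 11], [2, 1, 0, 12], [3, 1, 2, 5], [3, 4, 10], [3, 1, 11], [3, 1, 0, 12], [3, 1, 13], [4, 1, 2, 5], [4, 3, 6], [4, 3, 7], [4, 3, 8], [4, 1, 11], [4, 1, 0, 12], [4, 1, 13], [5, 2, 1, 3, 7], [5, 2, 1, 3, 8], [5, 2, 1, 4, 9], [5, 2, 1, 10], [5, 2, 1, 11], [5, 2, 1, 0, 12], [6, 3, 8], [6, 3, 9], [6, 1, 10], [6, 1, 11], [6, 1, 0, 12], [6, 1, 13], [7, 3, 9], [7, 3, 4, 10], [7, 3, 1, 11], [7, 3, 1, 0, 12], [7, 3, 1, 13], [8, 3, 4, 10], [8, 3, 1, 11], [8, 3, 1, 0, 12], [8, 3, 1, 13], [9, 3, 1, 11], [9, 4, 1, 0, 12], [9, 4, 1,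 13], [10, 1, 0, 12], [10, 1, 13], [11, 1, 13]]
  fb := [(0, [7, 3, 1, 2, 5], [2, 6, 3, 1, 13, 7]), (0, [5, 2, 1, 0, 12], [0, 13, 2, 1, 11, 5])]

theorem b26 : c26.certB links 26 = true := by decide +kernel

def c27 : PatCert where
  P := p27
  bl := [[0, 1, 2, 3, 5, 8, 10], [6], [7], [9], [4, 11, 13], [12]]
  exc := [(7, 4), (9, 4)]
  paths := [[0, 1, 2], [0, 3, 4], [0, 3, 5], [0, 1, 2, 6], [0, 1, 7], [0, 3, 11], [0, 3, 4, 12], [0, 3, 13], [1, 3, 4], [1, 3, 5], [1, 2, 6], [1, 0, 9], [1, 0, 10], [1, 3, 11], [1, 3, 4, 12], [1, 3, 13], [2, 3, 4], [2, 1, 8], [2, 1, 0, 9], [2, 3, 10], [2, 3, 11], [2, 3, 4, 12], [2, 3, 13], [3, 2, 6], [3, 1, 7], [3, 1, 8], [3, 0, 9], [3, 4, 12], [4, 3, 5], [4, 3, 2, 6], [4, 3, 1, 7], [4, 3, 1, 8], [4, 3, 0, 9], [4, 3, 10], [5, 2, 7], [5, 3, 1, 8],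 [5, 3, 0, 9], [5, 3, 10], [5, 3, 11], [5, 3, 4, 12], [6, 2, 1, 8], [6, 2, 1, 0, 9], [6, 2, 3, 10], [6, 2, 3, 11], [6, 2, 3, 4, 12], [6, 2, 3, 13], [7, 1, 0, 9], [7, 1, 0, 10], [7, 1, 3, 11], [7, 1, 3, 4, 12], [7, 1, 3, 13], [8, 0, 10], [8, 0, 3, 11], [8, 0, 3, 4, 12], [8, 0, 3, 13], [9, 0, 3, 11], [9, 0, 3, 4, 12], [9, 0, 3, 13], [10, 3, 4, 12], [10, 3, 13], [11, 3, 13]]
  fb := [(1, [8, 1, 2, 6], [7, 1, 0, 3, 2, 6, 8]), (1, [10, 0, 8], [9, 0, 3, 1, 8, 14, 10])]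

theorem b27 : c27.certB links 27 = true := by decide +kernel

def c28 : PatCert where
  P := p28
  bl := [[1, 2, 3, 4, 5, 9], [6], [7], [8], [10], [0, 11, 13], [12]]
  exc := [(5, 4), (12, 4)]
  paths := [[0, 1, 2], [0, 1, 2, 3], [0, 1, 5], [0, 1, 2, 3, 6], [0, 1, 2, 7], [0, 1, 2, 8], [0, 4, 9], [0, 4, 10], [1, 2, 3], [1, 2, 3, 6], [1, 2, 7], [1, 2, 8], [1, 2, 9], [1, 4, 10], [1, 0, 11], [1, 0, 12], [2, 3, 6], [2, 4, 10], [2, 4, 11], [2, 4, 0, 12], [2, 1, 13], [3, 2, 4], [3, 2, 8], [3, 2, 9], [3, 2, 4, 10], [3, 2, 4, 11], [3, 2, 4, 0, 12], [3, 2, 1, 13], [4, 2, 5], [4, 2, 3, 6], [4, 2, 7], [4, 2, 8], [4, 0, 12], [4, 0, 13], [5, 3, 7], [5, 2, 8], [5, 2, 9], [5, 1, 4, 10], [5, 1, 0, 11], [5, 1, 0, 12], [6, 3, 2, 8], [6, 3, 2, 9], [6, 3, 2, 4, 10], [6, 3, 2, 4, 11], [6, 3, 2, 4,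 0, 12], [6, 3, 2, 1, 13], [7, 2, 9], [7, 2, 4, 10], [7, 2, 4, 11], [7, 2, 4, 0, 12], [7, 2, 1, 13], [8, 2, 4, 10], [8, 2, 4, 11], [8, 2, 4, 0, 12], [8, 2, 1, 13], [9, 4, 11], [9, 4, 0, 12], [9, 2, 1, 13], [10, 4, 0, 12], [10, 4, 0, 13], [11, 0, 13]]
  fb := [(0, [6, 3, 2, 1, 13], [3, 5, 1, 6, 7, 2]), (1, [13, 0, 11], [12, 0, 1, 4, 11, 14, 13])]

theorem b28 : c28.certB links 28 = true := by decide +kernel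

def c29 : PatCert where
  P := p29
  bl := [[1, 2, 4, 5, 9], [3, 6], [7], [8], [10], [0, 11, 13], [12]]
  exc := [(12, 4)]
  paths := [[0, 1, 2], [0, 1, 2, 3], [0, 1, 5], [0, 1, 2, 6], [0, 1, 2, 3, 7], [0, 1, 2, 8], [0, 4, 9], [0, 4, 10], [1, 2, 3], [1, 2, 6], [1, 2, 3, 7], [1, 2, 8], [1, 2, 9], [1, 4, 10], [1, 0, 11], [1, 0, 12], [2, 3, 7], [2, 4, 10], [2, 4, 11], [2, 4, 0, 12], [2, 1, 13], [3, 2, 4], [3, 2, 5], [3, 2, 9], [3, 2, 4, 10], [3, 2, 4, 11], [3, 2, 4, 0, 12], [3, 2, 1, 13], [4, 2, 5], [4, 2, 6], [4, 2, 3, 7], [4, 2, 8], [4, 0, 12], [4, 0, 13], [5, 2, 3, 7], [5, 2, 8], [5, 2, 9], [5, 1, 4, 10], [5, 1, 0, 11], [5, 1, 0, 12], [6, 2, 8], [6, 2, 9], [6, 2, 4, 10], [6, 2, 4, 11], [6, 2, 4, 0, 12], [6, 2, 1, 13], [7, 3, 2, 9], [7, 3, 2, 4, 10], [7, 3, 2, 4, 11], [7, 3,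 2, 4, 0, 12], [7, 3, 2, 1, 13], [8, 2, 4, 10], [8, 2, 4, 11], [8, 2, 4, 0, 12], [8, 2, 1, 13], [9, 4, 11], [9, 4, 0, 12], [9, 2, 1, 13], [10, 4, 0, 12], [10, 4, 0, 13], [11, 0, 13]]
  fb := [(1, [13, 0, 11], [12, 0, 1, 4, 11, 14, 13])]

theorem b29 : c29.certB links 29 = true := by decide +kernel

end StrongArb.Data
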