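import Pool.Agent.Lib.MP_39c2b7_co.Data.Pats

/-! Certificates of the configurations 30 to 39. -/

namespace StrongArb.Data

def c30 : PatCert where
  P := p30
  bl := [[1, 2, 3, 4, 5, 9], [6], [7], [8], [10], [0, 11, 13], [12]]
  exc := [(9, 4), (12, 4)]
  paths := [[0, 1, 2], [0, 1, 2, 3], [0, 1, 5], [0, 1, 2, 6], [0, 1, 2, 7], [0, 1, 2, 3, 8], [0, 4, 9], [0, 4, 10], [1, 2, 3], [1, 2, 6], [1, 2, 7], [1, 2, 3, 8], [1, 2, 9], [1, 4, 10], [1, 0, 11], [1, 0, 12], [2, 3, 8], [2, 4, 10], [2, 4, 11], [2, 4, 0, 12], [2, 1, 13], [3, 2, 4], [3, 2, 5], [3, 2, 6], [3, 2, 4, 10], [3, 2, 4, 11], [3, 2, 4, 0, 12], [3, 2, 1, 13], [4, 2, 5], [4, 2, 6], [4, 2, 7], [4, 2, 3, 8], [4, 0, 12], [4, 0, 13], [5, 2, 7], [5, 2, 3, 8], [5, 2, 9], [5, 1, 4, 10], [5, 1, 0, 11], [5, 1, 0, 12], [6, 2,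 3, 8], [6, 2, 9], [6, 2, 4, 10], [6, 2, 4, 11], [6, 2, 4, 0, 12], [6, 2, 1, 13], [7, 3, 9], [7, 2, 4, 10], [7, 2, 4, 11], [7, 2, 4, 0, 12], [7, 2, 1, 13], [8, 3, 2, 4, 10], [8, 3, 2, 4, 11], [8, 3, 2, 4, 0, 12], [8, 3, 2, 1, 13], [9, 4, 11], [9, 4, 0, 12], [9, 2, 1, 13], [10, 4, 0, 12], [10, 4, 0, 13], [11, 0, 13]]
  fb := [(0, [10, 4, 2, 3, 8], [3, 9, 4, 2, 7, 10]), (1, [13, 0, 11], [12, 0, 1, 4, 11, 14, 13])]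

theorem b30 : c30.certB links 30 = true := by decide +kernel

def c31 : PatCert where
  P := p31
  bl := [[1, 5], [2, 6, 10], [3, 4, 7], [8], [9], [0, 11, 13], [12]]
  exc := [(6, 4), (8, 4), (12, 4)]
  paths := [[0, 2, 3], [0, 2, 4], [0, 1, 5], [0, 2, 6], [0, 2, 3, 7], [0, 2, 4, 8], [0, 2, 4, 9], [0, 2, 10], [1, 2, 3], [1, 2, 4], [1, 2, 3, 7], [1, 2, 4, 8], [1, 2, 4, 9], [1, 2, 10], [1, 0, 11], [1, 0, 12], [2, 1, 5], [2, 3, 7], [2, 4, 8], [2, 4, 9], [2, 0, 12], [2, 1, 13], [3, 2, 1, 5], [3, 4, 9], [3, 4, 10], [3, 2, 11], [3, 2, 0, 12], [3, 2, 1, 13], [4, 2, 1, 5], [4, 3, 6], [4, 3, 7], [4, 2, 11], [4, 2, 0, 12], [4, 2, 1, 13], [5, 1, 2, 3, 7], [5, 1, 2, 4, 8], [5, 1, 2, 4, 9], [5, 1, 2, 10], [5, 1, 0, 11], [5, 1, 0, 12], [6, 3, 8], [6, 2, 4, 9], [6, 2, 10], [6, 2, 11],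 [6, 2, 0, 12], [6, 1, 13], [7, 3, 4, 9], [7, 3, 4, 10], [7, 3, 2, 11], [7, 3, 2, 0, 12], [7, 3, 2, 1, 13], [8, 4, 10], [8, 3, 2, 11], [8, 3, 2, 0, 12], [8, 3, 2, 1, 13], [9, 4, 2, 11], [9, 4, 2, 0, 12], [9, 4, 2, 1, 13], [10, 2, 0, 12], [10, 2, 1, 13], [11, 0, 13]]
  fb := [(1, [7, 3, 2, 1, 5], [6, 3, 8, 4, 2, 1, 7]), (1, [9, 4, 3, 7], [8, 4, 10, 2, 3, 7, 9]), (1, [13, 0, 11], [12, 0, 1, 2, 11, 14, 13])]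

theorem b31 : c31.certB links 31 = true := by decide +kernel

def c32 : PatCert where
  P := p32
  bl := [[1, 2, 4, 5, 9, 11], [6], [7], [8], [10], [0, 12], [13], [14], [3]]
  exc := [(10, 4)]
  paths := [[0, 1, 2], [0, 1, 2, 3], [0, 1, 4], [0, 1, 5], [0, 1, 2, 3, 6], [0, 1, 2, 3, 7], [0, 1, 2, 3, 8], [0, 1, 4, 9], [0, 1, 4, 10], [0, 1, 11], [1, 2, 3], [1, 2, 3, 6], [1, 2, 3, 7], [1, 2, 3, 8], [1, 4, 9], [1, 4, 10], [1, 0, 13], [2, 3, 6], [2, 3, 7], [2, 3, 8], [2, 4, 9], [2, 4, 10], [2, 4, 11], [2, 1, 12], [2, 1, 0, 13], [2, 1, 14], [3, 4, 10], [3, 4, 11], [3, 4, 1, 12], [3, 4, 1, 0, 13], [3, 4, 1, 14], [4, 3, 5], [4, 3, 6], [4, 3, 7], [4, 3, 8], [4, 1, 12], [4, 1, 0, 13], [4, 1, 14], [5, 3, 7], [5, 3, 8], [5, 3, 9], [5, 1, 4, 10], [5, 1, 11], [5, 1, 12], [5, 1, 0, 13],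 [6, 3, 8], [6, 3, 9], [6, 3, 4, 10], [6, 3, 4, 11], [6, 3, 4, 1, 12], [6, 3, 4, 1, 0, 13], [6, 3, 4, 1, 14], [7, 3, 9], [7, 3, 4, 10], [7, 3, 4, 11], [7, 3, 4, 1, 12], [7, 3, 4, 1, 0, 13], [7, 3, 4, 1, 14], [8, 3, 4, 10], [8, 3, 4, 11], [8, 3, 4, 1, 12], [8, 3, 4, 1, 0, 13], [8, 3, 4, 1, 14], [9, 4, 11], [9, 4, 1, 12], [9, 4, 1, 0, 13], [9, 4, 1, 14], [10, 4, 1, 12], [10, 4, 1, 0, 13], [10, 4, 1, 14], [11, 1, 0, 13], [11, 1, 14], [12, 1, 14]]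
  fb := [(2, [11, 4, 9], [2, 4, 10, 9, 15, 11, 1, 5, 3])]

theorem b32 : c32.certB links 32 = true := by decide +kernel

def c33 : PatCert where
  P := p33
  bl := [[5], [6], [7], [0, 1, 3, 4, 8, 12, 14], [9], [10], [11], [13], [2]]
  exc := [(8, 4), (8, 5), (13, 4), (14, 4)]
  paths := [[0, 1, 2], [0, 3, 4], [0, 1, 2, 5], [0, 1, 2, 6], [0, 1, 2, 7], [0, 1, 8], [0, 3, 4, 9], [0, 3, 10], [0, 3, 11], [1, 3, 4], [1, 2, 5], [1, 2, 6], [1, 2, 7], [1, 3, 4, 9], [1, 3, 10], [1, 3, 11], [1, 0, 12], [1, 0, 13], [2, 1, 3], [2, 1, 3, 4], [2, 1, 3, 4, 9], [2, 1, 3, 10], [2, 1, 3, 11], [2, 1, 0, 12], [2, 1, 0, 13], [3, 1, 2, 5], [3, 1, 2, 6], [3, 1, 2, 7], [3, 4, 9], [3, 0, 13], [3, 1, 14], [4, 3, 1, 2, 5], [4, 3, 1, 2, 6], [4, 3, 1, 2, 7], [4, 3, 11], [4, 3, 12], [4, 3, 0, 13], [4,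 3, 1, 14], [5, 2, 7], [5, 2, 8], [5, 2, 1, 3, 4, 9], [5, 2, 1, 3, 10], [5, 2, 1, 3, 11], [5, 2, 1, 3, 12], [5, 2, 1, 0, 13], [6, 2, 8], [6, 2, 1, 3, 4, 9], [6, 2, 1, 3, 10], [6, 2, 1, 3, 11], [6, 2, 1, 0, 12], [6, 2, 1, 0, 13], [6, 2, 14], [7, 2, 1, 3, 4, 9], [7, 2, 1, 3, 10], [7, 2, 1, 3, 11], [7, 2, 1, 0, 12], [7, 2, 1, 0, 13], [7, 2, 14], [8, 3, 10], [8, 3, 11], [8, 3, 12], [8, 3, 0, 13], [8, 2, 14], [9, 4, 3, 11], [9, 4, 3, 12], [9, 4, 3, 0, 13], [9, 4, 3, 0, 14], [10, 3, 12], [10, 3, 0, 13], [10, 3, 1, 14], [11, 3, 0, 13], [11, 3, 1, 14], [12, 0, 14]]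
  fb := [(0, [9, 4, 3, 1, 2, 7], [4, 8, 1, 9, 10, 3]), (1, [9, 4, 3, 1, 2, 7], [4, 8, 1, 2, 9, 10, 3]), (1, [14, 0, 12], [13, 0, 1, 3, 12, 15, 14]), (1, [5, 2, 1, 0, 13], [14, 1, 8, 3, 0, 5, 2])]

theorem b33 : c33.certB links 33 = true := by decide +kernel

def c34 : PatCert where
  P := p34
  bl := [[1, 5], [0, 2, 3, 6, 10, 14], [7], [8], [9], [11], [12], [13], [4]]
  exc := [(5, 4), (6, 4), (10, 4), (14, 4)]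
  paths := [[0, 2, 3], [0, 1, 5], [0, 2, 6], [0, 2, 3, 7], [0, 2, 8], [0, 2, 9], [0, 4, 11], [0, 4, 12], [0, 4, 13], [1, 2, 3], [1, 0, 4], [1, 2, 3, 7], [1, 2, 8], [1, 2, 9], [1, 0, 10], [1, 0, 4, 11], [1, 0, 4, 12], [1, 0, 4, 13], [2, 0, 4], [2, 1, 5], [2, 3, 7], [2, 0, 4, 11], [2, 0, 4, 12], [2, 0, 4, 13], [2, 1, 14], [3, 2, 0, 4], [3, 2, 1, 5], [3, 2, 9], [3, 2, 10], [3, 2, 0, 4, 11], [3, 2, 0, 4, 12], [3, 2, 0, 4, 13], [3, 2, 1, 14], [4, 0, 1, 5], [4, 0, 2, 6], [4, 0, 2, 3, 7], [4, 0, 2, 8], [4, 0, 2, 9], [5, 1, 2, 3, 7], [5, 1, 2, 8], [5, 1, 2, 9], [5, 1, 0, 10], [5, 1, 0, 4, 11], [5, 1, 0, 4, 12], [5, 1, 0, 4, 13], [6, 2, 8], [6, 2, 9], [6, 2, 10], [6, 1, 0, 4, 11], [6, 2, 0, 4, 12], [6, 2, 0, 4, 13], [6, 1, 14], [7, 3, 2, 9], [7, 3, 2, 10], [7, 3, 2, 0, 4, 11], [7,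 3, 2, 0, 4, 12], [7, 3, 2, 0, 4, 13], [7, 3, 2, 0, 14], [8, 2, 10], [8, 2, 0, 4, 11], [8, 2, 0, 4, 12], [8, 2, 0, 4, 13], [8, 2, 1, 14], [9, 2, 0, 4, 11], [9, 2, 0, 4, 12], [9, 2, 0, 4, 13], [9, 2, 1, 14], [10, 4, 12], [10, 4, 13], [10, 0, 14], [11, 4, 13], [11, 4, 14], [12, 4, 14]]
  fb := [(1, [6, 1, 14], [5, 1, 2, 0, 14, 15, 6]), (0, [7, 3, 2, 1, 5], [3, 6, 1, 7, 8, 2]), (1, [11, 4, 0, 2, 9], [10, 0, 14, 1, 2, 11, 4]), (1, [5, 1, 0, 4, 13], [14, 1, 6, 2, 0, 4, 5])]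

theorem b34 : c34.certB links 34 = true := by decide +kernel

def c35 : PatCert where
  P := p35
  bl := [[5], [6], [7], [0, 1, 3, 8, 12, 14], [4, 9], [10], [11], [13], [2]]
  exc := [(8, 4), (13, 4), (14, 4)]
  paths := [[0, 1, 2], [0, 3, 4], [0, 1, 2, 5], [0, 1, 2, 6], [0, 1, 2, 7], [0, 1, 8], [0, 3, 9], [0, 3, 4, 10], [0, 3, 11], [1, 3, 4], [1, 2, 5], [1, 2, 6], [1, 2, 7], [1, 3, 9], [1, 3, 4, 10], [1, 3, 11], [1, 0, 12], [1, 0, 13], [2, 1, 3], [2, 1, 3, 4], [2, 1, 3, 9], [2, 1, 3, 4, 10], [2, 1, 3, 11], [2, 1, 0, 12], [2, 1, 0, 13], [3, 1, 2, 5], [3, 1, 2, 6], [3, 1, 2, 7], [3, 4, 10], [3, 0, 13], [3, 1, 14], [4, 3, 1, 2, 5], [4, 3, 1, 2, 6], [4, 3, 1, 2, 7], [4, 3, 8], [4, 3, 12], [4, 3, 0, 13], [4, 3, 1, 14], [5, 2, 7], [5, 2, 8], [5, 2, 1, 3, 9], [5, 2, 1, 3, 4,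 10], [5, 2, 1, 3, 11], [5, 2, 1, 3, 12], [5, 2, 1, 0, 13], [6, 2, 8], [6, 2, 1, 3, 9], [6, 2, 1, 3, 4, 10], [6, 2, 1, 3, 11], [6, 2, 1, 0, 12], [6, 2, 1, 0, 13], [6, 2, 14], [7, 2, 1, 3, 9], [7, 2, 1, 3, 4, 10], [7, 2, 1, 3, 11], [7, 2, 1, 0, 12], [7, 2, 1, 0, 13], [7, 2, 14], [8, 3, 4, 10], [8, 3, 11], [8, 3, 12], [8, 3, 0, 13], [8, 2, 14], [9, 4, 11], [9, 3, 12], [9, 3, 0, 13], [9, 3, 1, 14], [10, 4, 3, 12], [10, 4, 3, 0, 13], [10, 4, 3, 1, 14], [11, 3, 0, 13], [11, 3, 1, 14], [12, 0, 14]]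
  fb := [(1, [9, 3, 1, 2, 7], [8, 1, 0, 14, 2, 9, 3]), (1, [14, 0, 12], [13, 0, 1, 3, 12, 15, 14]), (1, [5, 2, 1, 0, 13], [14, 1, 8, 3, 0, 5, 2])]

theorem b35 : c35.certB links 35 = true := by decide +kernel

def c36 : PatCert where
  P := p36
  bl := [[0, 1, 5], [6], [2, 3, 7, 9, 14], [8], [4, 10, 13], [11], [12]]
  exc := [(8, 4)]
  paths := [[0, 3, 4], [0, 1, 5], [0, 1, 6], [0, 2, 7], [0, 2, 8], [0, 2, 9], [0, 3, 10], [0, 3, 4, 11], [0, 3, 4, 12], [0, 3, 13], [1, 0, 3], [1, 0, 3, 4], [1, 2, 8], [1, 2, 9], [1, 0, 3, 10], [1, 0, 3, 4, 11], [1, 0, 3, 4, 12], [1, 0, 3, 13], [2, 3, 4], [2, 1, 5], [2, 1, 6], [2, 3, 10], [2, 3, 4, 11], [2, 3, 4, 12], [2, 3, 13], [2, 1, 14], [3, 0, 1, 5], [3, 0, 1, 6], [3, 2, 7], [3, 2, 8], [3, 4, 11], [3, 4, 12], [4, 3, 0, 1, 5], [4, 3, 0,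 1, 6], [4, 3, 2, 7], [4, 3, 2, 8], [4, 3, 9], [4, 3, 14], [5, 1, 7], [5, 1, 2, 8], [5, 1, 2, 9], [5, 1, 0, 3, 10], [5, 1, 0, 3, 4, 11], [5, 1, 0, 3, 4, 12], [5, 1, 2, 3, 13], [6, 1, 2, 8], [6, 1, 2, 9], [6, 1, 0, 3, 10], [6, 1, 0, 3, 4, 11], [6, 1, 0, 3, 4, 12], [6, 1, 0, 3, 13], [6, 1, 14], [7, 2, 9], [7, 2, 3, 10], [7, 2, 3, 4, 11], [7, 2, 3, 4, 12], [7, 2, 3, 13], [7, 1, 14], [8, 2, 3, 10], [8, 2, 3, 4, 11], [8, 2, 3, 4, 12], [8, 2, 3, 13], [8, 2, 1, 14], [9, 3, 4, 11], [9, 3, 4, 12], [9, 3, 13], [9, 3, 14], [10, 4, 12], [10, 3, 13], [10, 3, 14], [11, 4, 13], [11, 4, 3, 14], [12, 4, 3, 14]]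
  fb := [(2, [9, 2, 7], [0, 2, 8, 7, 15, 9, 3, 14, 1])]

theorem b36 : c36.certB links 36 = true := by decide +kernel

def c37 : PatCert where
  P := p37
  bl := [[1, 2, 4, 5, 10], [3, 6, 9], [7], [8], [11], [0, 12, 14], [13]]
  exc := [(5, 4), (13, 4)]
  paths := [[0, 1, 2], [0, 1, 2, 3], [0, 1, 5], [0, 1, 2, 6], [0, 1, 2, 3, 7], [0, 1, 2, 3, 8], [0, 1, 2, 9], [0, 4, 10], [0, 4, 11], [1, 2, 3], [1, 2, 6], [1, 2, 3, 7], [1, 2, 3, 8], [1, 2, 9], [1, 2, 10], [1, 4, 11], [1, 0, 12], [1, 0, 13], [2, 3, 7], [2, 3, 8], [2, 4, 11], [2, 4, 12], [2, 4, 0, 13], [2, 1, 14], [3, 2, 4], [3, 2, 5], [3, 2, 10], [3, 2, 4, 11], [3, 2, 4, 12], [3, 2, 4, 0, 13], [3, 2, 1, 14], [4, 2, 5], [4, 2, 6], [4, 2, 3, 7], [4, 2, 3, 8], [4, 2, 9], [4, 0, 13], [4, 0, 14], [5, 2, 3, 7], [5, 2, 3, 8],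 [5, 2, 9], [5, 2, 10], [5, 1, 4, 11], [5, 1, 0, 12], [5, 1, 0, 13], [6, 3, 8], [6, 2, 9], [6, 2, 10], [6, 2, 4, 11], [6, 2, 4, 12], [6, 2, 4, 0, 13], [6, 2, 1, 14], [7, 3, 9], [7, 3, 2, 10], [7, 3, 2, 4, 11], [7, 3, 2, 4, 12], [7, 3, 2, 4, 0, 13], [7, 3, 2, 1, 14], [8, 3, 2, 10], [8, 3, 2, 4, 11], [8, 3, 2, 4, 12], [8, 3, 2, 4, 0, 13], [8, 3, 2, 1, 14], [9, 2, 4, 11], [9, 2, 4, 12], [9, 2, 4, 0, 13], [9, 2, 1, 14], [10, 4, 12], [10, 4, 0, 13], [10, 2, 1, 14], [11, 4, 0, 13], [11, 4, 0, 14], [12, 0, 14]]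
  fb := [(1, [6, 2, 1, 14], [5, 1, 4, 0, 14, 6, 2]), (1, [14, 0, 12], [13, 0, 1, 4, 12, 15, 14])]

theorem b37 : c37.certB links 37 = true := by decide +kernel

def c38 : PatCert where
  P := p38
  bl := [[1, 2, 5], [6], [0, 4, 3, 7, 9, 12, 14], [8], [10], [11], [13]]
  exc := [(8, 4), (13, 4), (14, 4)]
  paths := [[0, 1, 2], [0, 1, 3], [0, 1, 2, 5], [0, 1, 2, 6], [0, 1, 3, 7], [0, 1, 3, 8], [0, 4, 9], [0, 4, 10], [0, 4, 11], [1, 2, 5], [1, 2, 6], [1, 3, 7], [1, 3, 8], [1, 3, 9], [1, 4, 10], [1, 4, 11], [1, 0, 12], [1, 0, 13], [2, 1, 4], [2, 3, 8], [2, 3, 9], [2, 1, 4, 10], [2, 1, 4, 11], [2, 1, 0, 12], [2, 1, 0, 13], [3, 2, 5], [3, 2, 6], [3, 4, 10], [3, 4, 11], [3, 4, 12], [3, 4, 0, 13], [3, 1, 14], [4, 3, 2, 5], [4, 3, 2, 6], [4, 3, 7], [4, 3, 8], [4, 0, 13], [4, 0,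 14], [5, 2, 7], [5, 2, 3, 8], [5, 2, 3, 9], [5, 2, 1, 4, 10], [5, 2, 1, 4, 11], [5, 2, 1, 4, 12], [5, 2, 1, 0, 13], [6, 2, 3, 8], [6, 2, 3, 9], [6, 2, 1, 4, 10], [6, 2, 1, 4, 11], [6, 2, 1, 0, 12], [6, 2, 1, 0, 13], [6, 2, 14], [7, 3, 9], [7, 3, 4, 10], [7, 3, 4, 11], [7, 3, 4, 12], [7, 3, 4, 0, 13], [7, 2, 14], [8, 3, 4, 10], [8, 3, 4, 11], [8, 3, 4, 12], [8, 3, 4, 0, 13], [8, 3, 1, 14], [9, 4, 11], [9, 4, 12], [9, 4, 0, 13], [9, 4, 0, 14], [10, 4, 12], [10, 4, 0, 13], [10, 4, 0, 14], [11, 4, 0, 13], [11, 4, 0, 14], [12, 0, 14]]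
  fb := [(4, [9, 3, 7], [8, 3, 1, 4, 0, 14, 2, 7, 15, 9]), (1, [14, 0, 12], [13, 0, 1, 4, 12, 15, 14]), (1, [5, 2, 1, 0, 13], [14, 1, 3, 4, 0, 5, 2])]

theorem b38 : c38.certB links 38 = true := by decide +kernel

def c39 : PatCert where
  P := p39
  bl := [[1, 2, 3, 4, 5, 8, 12], [6], [7], [0, 9, 11], [10], [13], [14]]
  exc := [(5, 4), (10, 4)]
  paths := [[0, 1, 2], [0, 3, 4], [0, 3, 5], [0, 1, 2, 6], [0, 1, 2, 7], [0, 1, 8], [0, 3, 12], [0, 3, 4, 13], [0, 3, 4, 14], [1, 3, 4], [1, 3, 5], [1, 2, 6], [1, 2, 7], [1, 0, 10], [1, 0, 11], [1, 3, 12], [1, 3, 4, 13], [1, 3, 4, 14], [2, 3, 4], [2, 1, 9], [2, 1, 0, 10], [2, 3, 11], [2, 3, 12], [2, 3, 4, 13], [2, 3, 4, 14], [3, 2, 6], [3, 2, 7], [3, 1, 8], [3, 1, 9], [3, 0, 10], [3, 4, 13], [3, 4, 14], [4, 3, 2, 6], [4, 3, 2,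 7], [4, 3, 1, 8], [4, 3, 1, 9], [4, 3, 0, 10], [4, 3, 11], [5, 2, 7], [5, 2, 8], [5, 3, 1, 9], [5, 3, 0, 10], [5, 3, 11], [5, 4, 12], [5, 4, 13], [6, 2, 8], [6, 2, 1, 9], [6, 2, 1, 0, 10], [6, 2, 3, 11], [6, 2, 3, 12], [6, 2, 3, 4, 13], [6, 2, 3, 4, 14], [7, 2, 1, 9], [7, 2, 1, 0, 10], [7, 2, 3, 11], [7, 2, 3, 12], [7, 2, 3, 4, 13], [7, 2, 3, 4, 14], [8, 1, 0, 10], [8, 2, 3, 11], [8, 2, 3, 12], [8, 2, 3, 4, 13], [8, 1, 3, 4, 14], [9, 0, 11], [9, 1, 3, 12], [9, 1, 3, 4, 13], [9, 1, 3, 4, 14], [10, 0, 3, 12], [10, 0, 3, 4, 13], [10, 0, 3, 4, 14], [11, 3, 4, 13], [11, 3, 4, 14], [12, 4, 14]]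
  fb := [(1, [6, 2, 3, 4, 14], [5, 4, 12, 13, 6, 2, 3]), (1, [11, 0, 9], [10, 0, 3, 1, 9, 15, 11])]

theorem b39 : c39.certB links 39 = true := by decide +kernel

end StrongArb.Data
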