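import Pool.Agent.Lib.MP_39c2b7_co.Data.Pats

/-! Certificates of the configurations 40 to 49. -/

namespace StrongArb.Data

def c40 : PatCert where
  P := p40
  bl := [[1, 2, 5], [0, 12, 4, 9, 3, 6, 14], [7], [8], [10], [11], [13]]
  exc := [(5, 4), (6, 4), (9, 4), (12, 4), (13, 4)]
  paths := [[0, 2, 3], [0, 2, 4], [0, 1, 5], [0, 2, 6], [0, 2, 3, 7], [0, 2, 3, 8], [0, 2, 9], [0, 2, 4, 10], [0, 2, 4, 11], [1, 2, 3], [1, 2, 4], [1, 2, 3, 7], [1, 2, 3, 8], [1, 2, 9], [1, 2, 4, 10], [1, 2, 4, 11], [1, 0, 12], [1, 0, 13], [2, 1, 5], [2, 3, 7], [2, 3, 8], [2, 4, 10], [2, 4, 11], [2, 0, 13], [2, 1, 14], [3, 2, 4], [3, 2, 1, 5], [3, 2, 4, 10], [3, 2, 4, 11], [3, 2, 12], [3, 2, 0, 13], [3, 2, 1, 14], [4, 2, 1, 5], [4, 2, 6], [4, 2, 3, 7], [4, 2, 3, 8], [4, 2, 0, 13], [4, 2, 1,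 14], [5, 1, 2, 3, 7], [5, 1, 2, 3, 8], [5, 1, 2, 9], [5, 1, 2, 4, 10], [5, 1, 2, 4, 11], [5, 1, 0, 12], [5, 1, 0, 13], [6, 3, 8], [6, 2, 9], [6, 2, 4, 10], [6, 2, 4, 11], [6, 2, 12], [6, 2, 0, 13], [6, 1, 14], [7, 3, 9], [7, 3, 2, 4, 10], [7, 3, 2, 4, 11], [7, 3, 2, 12], [7, 3, 2, 0, 13], [7, 3, 2, 0, 14], [8, 3, 2, 4, 10], [8, 3, 2, 4, 11], [8, 3, 2, 12], [8, 3, 2, 0, 13], [8, 3, 2, 1, 14], [9, 4, 11], [9, 2, 12], [9, 2, 0, 13], [9, 2, 1, 14], [10, 4, 12], [10, 4, 2, 0, 13], [10, 4, 2, 1, 14], [11, 4, 2, 0, 13], [11, 4, 2, 1, 14], [12, 0, 14]]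
  fb := [(1, [6, 1, 14], [5, 1, 2, 0, 14, 15, 6]), (1, [7, 3, 2, 1, 5], [6, 3, 8, 9, 2, 1, 7]), (1, [10, 4, 2, 3, 8], [9, 4, 11, 12, 2, 3, 10]), (1, [13, 0, 2, 4, 11], [12, 0, 14, 1, 2, 4, 13]), (1, [14, 0, 12], [13, 0, 1, 2, 12, 15, 14])]

theorem b40 : c40.certB links 40 = true := by decide +kernel

def c41 : PatCert where
  P := p41
  bl := [[1, 2, 5], [0, 12, 4, 9, 3, 6, 14], [7], [8], [10], [11], [13]]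
  exc := [(5, 4), (9, 4), (12, 4), (14, 4)]
  paths := [[0, 1, 2], [0, 1, 3], [0, 1, 4], [0, 1, 2, 5], [0, 1, 3, 6], [0, 1, 3, 7], [0, 1, 3, 8], [0, 1, 9], [0, 1, 4, 10], [0, 1, 4, 11], [1, 2, 5], [1, 3, 6], [1, 3, 7], [1, 3, 8], [1, 4, 10], [1, 4, 11], [1, 0, 13], [2, 1, 4], [2, 3, 7], [2, 3, 8], [2, 1, 9], [2, 1, 4, 10], [2, 1, 4, 11], [2, 1, 12], [2, 1, 0, 13], [3, 1, 4], [3, 2, 5], [3, 1, 4, 10], [3, 1, 4, 11], [3, 1, 12], [3, 1, 0, 13], [3, 1, 14], [4, 1, 2, 5], [4, 1, 3, 6], [4, 1, 3, 7], [4, 1, 3, 8], [4, 1, 0, 13], [4, 1, 14], [5, 2, 3, 7], [5, 2, 3, 8], [5, 2, 1, 9], [5, 2, 1, 4, 10], [5, 2, 1, 4, 11], [5, 2, 1, 12], [5, 2, 1, 0, 13], [6, 3, 8], [6, 3, 9], [6, 2, 1, 4, 10], [6, 2, 1, 4, 11], [6, 2, 1, 12], [6, 3, 1, 0, 13], [6, 2, 14], [7, 3, 9], [7, 3, 1, 4, 10],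 [7, 3, 1, 4, 11], [7, 3, 1, 12], [7, 3, 1, 0, 13], [7, 3, 1, 14], [8, 3, 1, 4, 10], [8, 3, 1, 4, 11], [8, 3, 1, 12], [8, 3, 1, 0, 13], [8, 3, 1, 14], [9, 4, 11], [9, 1, 12], [9, 1, 0, 13], [9, 1, 14], [10, 4, 12], [10, 4, 1, 0, 13], [10, 4, 1, 14], [11, 4, 1, 0, 13], [11, 4, 1, 14], [12, 1, 14]]
  fb := [(1, [6, 2, 14], [5, 2, 3, 1, 14, 15, 6]), (1, [10, 4, 1, 3, 8], [9, 4, 11, 12, 1, 3, 10]), (0, [13, 0, 1, 4, 11], [0, 12, 4, 13, 14, 1]), (0, [5, 2, 1, 0, 13], [0, 14, 2, 1, 12, 5])]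

theorem b41 : c41.certB links 41 = true := by decide +kernel

def c42 : PatCert where
  P := p42
  bl := [[0, 1, 5], [6], [2, 3, 4, 7, 9, 11, 14], [8], [10], [12], [13]]
  exc := [(8, 4), (10, 4), (14, 4)]
  paths := [[0, 1, 5], [0, 1, 6], [0, 2, 7], [0, 2, 8], [0, 2, 9], [0, 3, 10], [0, 4, 11], [0, 4, 12], [0, 4, 13], [1, 0, 3], [1, 0, 4], [1, 2, 8], [1, 2, 9], [1, 0, 3, 10], [1, 0, 4, 11], [1, 0, 4, 12], [1, 0, 4, 13], [2, 0, 4], [2, 1, 5], [2, 1, 6], [2, 3, 10], [2, 3, 11], [2, 0, 4, 12], [2, 0, 4, 13], [2, 1, 14], [3, 0, 1, 5], [3, 0, 1, 6], [3, 2, 7], [3, 2, 8], [3, 4, 12], [3, 4, 13], [3, 4, 14], [4, 0, 1, 5], [4, 0, 1, 6], [4, 0, 2, 7], [4, 0, 2, 8], [4, 3, 9], [4, 3, 10], [5, 1, 7], [5, 1, 2, 8], [5, 1, 2, 9], [5, 1, 0, 3, 10], [5, 1, 0, 3, 11], [5, 1, 0, 4, 12],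 [5, 1, 0, 4, 13], [6, 1, 2, 8], [6, 1, 2, 9], [6, 1, 0, 3, 10], [6, 1, 0, 4, 11], [6, 1, 0, 4, 12], [6, 1, 0, 4, 13], [6, 1, 14], [7, 2, 9], [7, 2, 3, 10], [7, 2, 3, 11], [7, 1, 0, 4, 12], [7, 2, 0, 4, 13], [7, 1, 14], [8, 2, 3, 10], [8, 2, 3, 11], [8, 2, 0, 4, 12], [8, 2, 0, 4, 13], [8, 2, 1, 14], [9, 3, 11], [9, 3, 4, 12], [9, 3, 4, 13], [9, 2, 1, 14], [10, 3, 4, 12], [10, 3, 4, 13], [10, 3, 4, 14], [11, 4, 13], [11, 4, 14], [12, 4, 14]]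
  fb := [(4, [9, 2, 7], [8, 2, 0, 3, 4, 14, 1, 7, 15, 9]), (4, [11, 3, 9], [10, 3, 0, 4, 14, 1, 2, 9, 15, 11]), (1, [5, 1, 0, 4, 13], [14, 0, 2, 3, 4, 5, 1])]

theorem b42 : c42.certB links 42 = true := by decide +kernel

def c43 : PatCert where
  P := p43
  bl := [[2, 5], [0, 1, 3, 6, 12, 14], [7], [4, 8, 11], [9], [10], [13]]
  exc := [(6, 4), (14, 4)]
  paths := [[0, 1, 2], [0, 1, 3], [0, 1, 4], [0, 1, 2, 5], [0, 1, 6], [0, 1, 3, 7], [0, 1, 3, 8], [0, 1, 4, 9], [0, 1, 4, 10], [0, 1, 11], [1, 2, 5], [1, 3, 7], [1, 3, 8], [1, 4, 9], [1, 4, 10], [1, 0, 13], [2, 1, 3], [2, 1, 4], [2, 1, 3, 7], [2, 1, 3, 8], [2, 1, 4, 9], [2, 1, 4, 10], [2, 1, 11], [2, 1, 12], [2, 1, 0, 13], [3, 1, 2, 5], [3, 4, 9], [3, 4, 10], [3, 4, 11], [3, 1, 12], [3, 1, 0, 13], [3, 1, 14], [4, 1, 2,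 5], [4, 3, 6], [4, 3, 7], [4, 1, 12], [4, 1, 0, 13], [4, 1, 14], [5, 2, 1, 3, 7], [5, 2, 1, 3, 8], [5, 2, 1, 4, 9], [5, 2, 1, 4, 10], [5, 2, 1, 11], [5, 2, 1, 12], [5, 2, 1, 0, 13], [6, 3, 8], [6, 1, 4, 9], [6, 1, 4, 10], [6, 1, 11], [6, 1, 12], [6, 1, 0, 13], [6, 1, 14], [7, 3, 4, 9], [7, 3, 4, 10], [7, 3, 4, 11], [7, 3, 1, 12], [7, 3, 1, 0, 13], [7, 3, 1, 14], [8, 4, 10], [8, 4, 11], [8, 3, 1, 12], [8, 3, 1, 0, 13], [8, 3, 1, 14], [9, 4, 11], [9, 4, 1, 12], [9, 4, 1, 0, 13], [9, 4, 1, 14], [10, 4, 1, 12], [10, 4, 1, 0, 13], [10, 4, 1, 14], [11, 1, 0, 13], [11, 1, 14], [12, 1, 14]]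
  fb := [(0, [7, 3, 1, 2, 5], [2, 6, 3, 1, 14, 7]), (0, [5, 2, 1, 0, 13], [0, 14, 2, 1, 12, 5])]

theorem b43 : c43.certB links 43 = true := by decide +kernel

def c44 : PatCert where
  P := p44
  bl := [[1, 5], [0, 2, 3, 4, 6, 8, 11, 14], [7], [9], [10], [12], [13]]
  exc := [(5, 4), (6, 4), (8, 4), (12, 4)]
  paths := [[0, 2, 3], [0, 2, 4], [0, 1, 5], [0, 2, 6], [0, 2, 3, 7], [0, 2, 8], [0, 2, 4, 9], [0, 2, 4, 10], [0, 2, 11], [1, 2, 3], [1, 2, 4], [1, 2, 3, 7], [1, 2, 8], [1, 2, 4, 9], [1, 2, 4, 10], [1, 2, 11], [1, 0, 12], [1, 0, 13], [2, 1, 5], [2, 3, 7], [2, 4, 9], [2, 4, 10], [2, 0, 13], [2, 1, 14], [3, 2, 4], [3, 2, 1, 5], [3, 2, 4, 9], [3, 2, 4, 10], [3, 2, 11], [3, 2, 12], [3, 2, 0, 13], [3, 2, 1, 14], [4, 2, 1, 5], [4, 2, 6], [4, 2, 3, 7], [4, 2, 12], [4, 2,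 0, 13], [4, 2, 1, 14], [5, 1, 2, 3, 7], [5, 1, 2, 8], [5, 1, 2, 4, 9], [5, 1, 2, 4, 10], [5, 1, 2, 11], [5, 1, 0, 12], [5, 1, 0, 13], [6, 2, 8], [6, 2, 4, 9], [6, 2, 4, 10], [6, 2, 11], [6, 2, 12], [6, 2, 0, 13], [6, 1, 14], [7, 3, 2, 4, 9], [7, 3, 2, 4, 10], [7, 3, 2, 11], [7, 3, 2, 12], [7, 3, 2, 0, 13], [7, 3, 2, 0, 14], [8, 4, 10], [8, 2, 11], [8, 2, 12], [8, 2, 0, 13], [8, 2, 1, 14], [9, 4, 11], [9, 4, 2, 12], [9, 4, 2, 0, 13], [9, 4, 2, 1, 14], [10, 4, 2, 12], [10, 4, 2, 0, 13], [10, 4, 2, 1, 14], [11, 2, 0, 13], [11, 2, 1, 14], [12, 0, 14]]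
  fb := [(1, [6, 1, 14], [5, 1, 2, 0, 14, 15, 6]), (0, [7, 3, 2, 1, 5], [3, 6, 1, 7, 8, 2]), (0, [9, 4, 2, 3, 7], [3, 8, 4, 2, 6, 9]), (1, [13, 0, 2, 11], [12, 0, 14, 1, 2, 11, 13])]

theorem b44 : c44.certB links 44 = true := by decide +kernel

def c45 : PatCert where
  P := p45
  bl := [[1, 5], [0, 2, 6, 14], [3, 7, 9, 4, 12], [8], [10], [11], [13]]
  exc := [(5, 4), (9, 4), (12, 4)]
  paths := [[0, 2, 3], [0, 2, 4], [0, 1, 5], [0, 2, 6], [0, 2, 7], [0, 2, 3, 8], [0, 2, 9], [0, 2, 4, 10], [0, 2, 4, 11], [1, 2, 3], [1, 2, 4], [1, 2, 7], [1, 2, 3, 8], [1, 2, 9], [1, 2, 4, 10], [1, 2, 4, 11], [1, 0, 12], [1, 0, 13], [2, 1, 5], [2, 3, 8], [2, 4, 10], [2, 4, 11], [2, 0, 13], [2, 1, 14], [3, 2, 4], [3, 2, 1, 5], [3, 2, 6], [3, 2, 4, 10], [3, 2, 4, 11], [3, 2, 12], [3, 2, 0,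 13], [3, 2, 1, 14], [4, 2, 1, 5], [4, 2, 6], [4, 2, 7], [4, 2, 3, 8], [4, 2, 0, 13], [4, 2, 1, 14], [5, 1, 2, 7], [5, 1, 2, 3, 8], [5, 1, 2, 9], [5, 1, 2, 4, 10], [5, 1, 2, 4, 11], [5, 1, 0, 12], [5, 1, 0, 13], [6, 2, 3, 8], [6, 2, 9], [6, 2, 4, 10], [6, 2, 4, 11], [6, 2, 12], [6, 2, 0, 13], [6, 1, 14], [7, 2, 9], [7, 2, 4, 10], [7, 2, 4, 11], [7, 2, 12], [7, 2, 0, 13], [7, 2, 1, 14], [8, 3, 2, 4, 10], [8, 3, 2, 4, 11], [8, 3, 2, 12], [8, 3, 2, 0, 13], [8, 3, 2, 1, 14], [9, 4, 11], [9, 2, 12], [9, 2, 0, 13], [9, 2, 1, 14], [10, 4, 12], [10, 4, 2, 0, 13], [10, 4, 2, 1, 14], [11, 4, 2, 0, 13], [11, 4, 2, 1, 14], [12, 0, 14]]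
  fb := [(1, [6, 1, 14], [5, 1, 2, 0, 14, 15, 6]), (0, [10, 4, 2, 3, 8], [3, 9, 4, 2, 7, 10]), (1, [13, 0, 2, 4, 11], [12, 0, 14, 1, 2, 4, 13])]

theorem b45 : c45.certB links 45 = true := by decide +kernel

def c46 : PatCert where
  P := p46
  bl := [[1, 5], [0, 2, 3, 4, 6, 9, 12, 15], [7], [8], [10], [11], [13], [14]]
  exc := [(5, 4), (6, 4), (9, 4), (13, 4)]
  paths := [[0, 2, 3], [0, 2, 4], [0, 1, 5], [0, 2, 6], [0, 2, 3, 7], [0, 2, 3, 8], [0, 2, 9], [0, 2, 4, 10], [0, 2, 4, 11], [0, 2, 12], [1, 2, 3], [1, 2, 4], [1, 2, 3, 7], [1, 2, 3, 8], [1, 2, 9], [1, 2, 4, 10], [1, 2, 4, 11], [1, 2, 12], [1, 0, 13], [1, 0, 14], [2, 1, 5], [2, 3, 7], [2, 3, 8], [2, 4, 10], [2, 4, 11], [2, 0, 14], [2, 1, 15], [3, 2, 4], [3, 2, 1, 5], [3, 2, 4, 10], [3, 2, 4, 11], [3, 2, 12], [3,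 2, 13], [3, 2, 0, 14], [3, 2, 1, 15], [4, 2, 1, 5], [4, 2, 6], [4, 2, 3, 7], [4, 2, 3, 8], [4, 2, 13], [4, 2, 0, 14], [4, 2, 1, 15], [5, 1, 2, 3, 7], [5, 1, 2, 3, 8], [5, 1, 2, 9], [5, 1, 2, 4, 10], [5, 1, 2, 4, 11], [5, 1, 2, 12], [5, 1, 0, 13], [5, 1, 0, 14], [6, 3, 8], [6, 2, 9], [6, 2, 4, 10], [6, 2, 4, 11], [6, 2, 12], [6, 2, 13], [6, 2, 0, 14], [6, 1, 15], [7, 3, 9], [7, 3, 2, 4, 10], [7, 3, 2, 4, 11], [7, 3, 2, 12], [7, 3, 2, 13], [7, 3, 2, 0, 14], [7, 3, 2, 0, 15], [8, 3, 2, 4, 10], [8, 3, 2, 4, 11], [8, 3, 2, 12], [8, 3, 2, 13], [8, 3, 2, 0, 14], [8, 3, 2, 1, 15], [9, 4, 11], [9, 2, 12], [9, 2, 13], [9, 2, 0, 14], [9, 2, 1, 15], [10, 4, 12], [10, 4, 2, 13], [10, 4, 2, 0, 14], [10, 4, 2, 1, 15], [11, 4, 2, 13], [11, 4, 2, 0, 14], [11, 4, 2, 1, 15], [12, 2, 0, 14],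 [12, 2, 1, 15], [13, 0, 15]]
  fb := [(1, [6, 1, 15], [5, 1, 2, 0, 15, 16, 6]), (1, [7, 3, 2, 1, 5], [6, 3, 8, 9, 2, 1, 7]), (1, [10, 4, 2, 3, 8], [9, 4, 11, 12, 2, 3, 10]), (1, [14, 0, 2, 12], [13, 0, 15, 1, 2, 12, 14])]

theorem b46 : c46.certB links 46 = true := by decide +kernel

def c47 : PatCert where
  P := p47
  bl := [[1, 2, 5], [6], [0, 13, 4, 10, 3, 7, 15], [8], [9], [11], [12], [14]]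
  exc := [(7, 4), (10, 4), (13, 4), (14, 4)]
  paths := [[0, 2, 3], [0, 2, 4], [0, 1, 5], [0, 1, 6], [0, 2, 7], [0, 2, 3, 8], [0, 2, 3, 9], [0, 2, 10], [0, 2, 4, 11], [0, 2, 4, 12], [1, 2, 3], [1, 2, 4], [1, 2, 3, 8], [1, 2, 3, 9], [1, 2, 10], [1, 2, 4, 11], [1, 2, 4, 12], [1, 0, 13], [1, 0, 14], [2, 1, 5], [2, 1, 6], [2, 3, 8], [2, 3, 9], [2, 4, 11], [2, 4, 12], [2, 0, 14], [2, 1, 15], [3, 2, 4], [3, 2, 1, 5], [3, 2, 1, 6], [3, 2, 4, 11], [3, 2, 4, 12], [3, 2, 13], [3, 2, 0, 14], [3, 2, 1, 15], [4, 2, 1, 5], [4, 2, 1, 6], [4, 2, 7], [4, 2, 3, 8], [4, 2, 3, 9], [4, 2, 0, 14], [4, 2, 1, 15], [5, 1, 7], [5, 1, 2, 3, 8], [5, 1, 2, 3, 9], [5, 1, 2, 10], [5, 1, 2, 4, 11], [5, 1, 2, 4, 12], [5, 1, 0, 13], [5, 1, 0, 14], [6, 1, 2, 3, 8], [6, 1, 2, 3, 9], [6, 1, 2, 10], [6, 1,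 2, 4, 11], [6, 1, 2, 4, 12], [6, 1, 0, 13], [6, 1, 0, 14], [6, 1, 15], [7, 3, 9], [7, 3, 10], [7, 2, 4, 11], [7, 2, 4, 12], [7, 2, 13], [7, 1, 0, 14], [7, 1, 15], [8, 3, 10], [8, 3, 2, 4, 11], [8, 3, 2, 4, 12], [8, 3, 2, 13], [8, 3, 2, 0, 14], [8, 3, 2, 0, 15], [9, 3, 2, 4, 11], [9, 3, 2, 4, 12], [9, 3, 2, 13], [9, 3, 2, 0, 14], [9, 3, 2, 1, 15], [10, 4, 12], [10, 2, 13], [10, 2, 0, 14], [10, 2, 1, 15], [11, 4, 13], [11, 4, 2, 0, 14], [11, 4, 2, 1, 15], [12, 4, 2, 0, 14], [12, 4, 2, 1, 15], [13, 0, 15]]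
  fb := [(1, [8, 3, 2, 1, 6], [7, 3, 9, 10, 2, 1, 8]), (1, [11, 4, 2, 3, 9], [10, 4, 12, 13, 2, 3, 11]), (1, [14, 0, 2, 4, 12], [13, 0, 15, 1, 2, 4, 14]), (1, [15, 0, 13], [14, 0, 1, 2, 13, 16, 15])]

theorem b47 : c47.certB links 47 = true := by decide +kernel

def c48 : PatCert where
  P := p48
  bl := [[1, 6], [0, 4, 7, 16], [2, 3, 5, 8, 10, 12, 15], [9], [11], [13], [14]]
  exc := [(9, 4), (11, 4), (15, 4)]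
  paths := [[0, 2, 3], [0, 4, 5], [0, 1, 6], [0, 2, 9], [0, 2, 10], [0, 2, 3, 11], [0, 2, 3, 12], [0, 4, 5, 13], [0, 4, 5, 14], [1, 0, 2], [1, 0, 2, 3], [1, 0, 4], [1, 0, 4, 5], [1, 0, 8], [1, 0, 2, 9], [1, 0, 2, 10], [1, 0, 2, 3, 11], [1, 0, 2, 3, 12], [1, 0, 4, 5, 13], [1, 0, 4, 5, 14], [1, 0, 15], [2, 4, 5], [2, 0, 1, 6], [2, 0, 7], [2, 3, 11], [2, 3, 12], [2, 4, 5, 13], [2, 4, 5, 14], [2, 4, 15], [2, 0, 16], [3, 4, 0, 1, 6], [3, 4, 0, 7], [3, 2, 8], [3, 2, 9], [3, 5, 13], [3, 5, 14], [3, 4, 15], [3, 4, 0, 16], [4, 0, 1, 6], [4, 0, 7], [4, 0, 8], [4, 2, 9], [4, 3, 10], [4, 3, 11], [4, 3, 12], [4, 5, 13], [4, 5, 14], [4, 0, 16], [5, 4, 0, 1, 6], [5, 4, 0, 7], [5, 4, 0, 8], [5, 4, 2, 9], [5, 3, 10], [5, 3, 11], [5, 4, 0, 16], [6, 1, 0, 8], [6, 1, 0, 2, 9], [6, 1, 0, 2,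 10], [6, 1, 0, 2, 3, 11], [6, 1, 0, 2, 3, 12], [6, 1, 0, 4, 5, 13], [6, 1, 0, 4, 5, 14], [6, 1, 0, 15], [7, 0, 2, 9], [7, 0, 2, 10], [7, 0, 2, 3, 11], [7, 0, 2, 3, 12], [7, 0, 4, 5, 13], [7, 0, 4, 5, 14], [7, 0, 15], [7, 0, 16], [8, 2, 10], [8, 2, 3, 11], [8, 2, 3, 12], [8, 0, 4, 5, 13], [8, 2, 4, 5, 14], [8, 0, 15], [8, 0, 16], [9, 2, 3, 11], [9, 2, 3, 12], [9, 2, 4, 5, 13], [9, 2, 4, 5, 14], [9, 2, 4, 15], [9, 2, 0, 16], [10, 3, 12], [10, 3, 5, 13], [10, 3, 5, 14], [10, 3, 4, 15], [10, 2, 0, 16], [11, 3, 5, 13], [11, 3, 5, 14], [11, 3, 4, 15], [11, 3, 4, 0, 16], [12, 5, 14], [12, 5, 15], [12, 3, 4, 0, 16], [13, 5, 15], [13, 5, 4, 0, 16], [14, 5, 4, 0, 16]]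
  fb := [(4, [10, 2, 8], [9, 2, 4, 3, 5, 15, 0, 8, 17, 10]), (4, [12, 3, 10], [11, 3, 4, 5, 15, 0, 2, 10, 17, 12]), (1, [16, 0, 4, 5, 14], [15, 4, 2, 3, 5, 16, 0])]

theorem b48 : c48.certB links 48 = true := by decide +kernel

def c49 : PatCert where
  P := p49
  bl := [[0, 1, 2, 3, 4, 5, 6, 8, 11, 14], [7], [9], [10], [12], [13], [15], [16]]
  exc := [(7, 4), (11, 4), (13, 4)]
  paths := [[0, 5, 2], [0, 5, 6], [0, 5, 2, 7], [0, 3, 8], [0, 3, 9], [0, 3, 10], [0, 4, 12], [0, 5, 15], [0, 5, 16], [1, 0, 4], [1, 2, 6], [1, 2, 7], [1, 3, 8], [1, 3, 9], [1, 3, 10], [1, 0, 11], [1, 0, 4, 12], [1, 0, 13], [1, 0, 14], [1, 5, 15], [1, 5, 16], [2, 5, 0, 4], [2, 3, 9], [2, 3, 10], [2, 3, 11], [2, 5, 0, 4, 12], [2, 5, 0, 13], [2, 5, 14], [2, 5, 15], [2, 5, 16], [3, 0, 4], [3, 1, 5],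 [3, 2, 6], [3, 2, 7], [3, 0, 4, 12], [3, 0, 13], [3, 0, 14], [3, 1, 5, 15], [3, 1, 5, 16], [4, 0, 5], [4, 0, 5, 6], [4, 0, 5, 2, 7], [4, 0, 3, 8], [4, 0, 3, 9], [4, 0, 3, 10], [4, 0, 14], [4, 0, 5, 15], [4, 0, 5, 16], [5, 2, 7], [5, 2, 8], [5, 1, 3, 9], [5, 1, 3, 10], [5, 0, 11], [5, 0, 4, 12], [5, 0, 13], [6, 2, 8], [6, 2, 3, 9], [6, 2, 3, 10], [6, 2, 3, 11], [6, 5, 0, 4, 12], [6, 5, 0, 13], [6, 5, 14], [6, 5, 15], [7, 2, 3, 9], [7, 2, 3, 10], [7, 2, 3, 11], [7, 2, 5, 0, 4, 12], [7, 2, 5, 0, 13], [7, 2, 5, 14], [7, 2, 5, 15], [7, 2, 5, 16], [8, 3, 10], [8, 3, 11], [8, 3, 0, 4, 12], [8, 3, 0, 13], [8, 3, 0, 14], [8, 2, 5, 15], [8, 2, 5, 16], [9, 3, 11], [9, 3, 0, 4, 12], [9, 3, 0, 13], [9, 3, 0, 14], [9, 3, 1, 5, 15], [9, 3, 1, 5, 16], [10, 3, 0, 4, 12], [10, 3, 0, 13],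 [10, 3, 0, 14], [10, 3, 1, 5, 15], [10, 3, 1, 5, 16], [11, 4, 13], [11, 0, 14], [11, 0, 5, 15], [11, 0, 5, 16], [12, 4, 0, 14], [12, 4, 0, 5, 15], [12, 4, 0, 5, 16], [13, 0, 5, 15], [13, 0, 5, 16], [14, 5, 16]]
  fb := [(2, [8, 2, 6], [1, 2, 7, 6, 17, 8, 3, 0, 5]), (0, [12, 4, 0, 3, 10], [4, 11, 3, 12, 13, 0]), (0, [14, 0, 4, 12], [4, 13, 14, 0, 11, 12])]

theorem b49 : c49.certB links 49 = true := by decide +kernel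

end StrongArb.Data
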