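import Pool.Agent.Lib.MP_39c2b7_co.Data.Pats

/-! Certificates of the configurations 50 to 59. -/

namespace StrongArb.Data

def c50 : PatCert where
  P := p50
  bl := [[0, 2, 5, 6, 15], [1, 3, 4, 7, 9, 12, 14], [8], [10], [11], [13], [16]]
  exc := [(8, 4), (13, 4)]
  paths := [[0, 2, 3], [0, 1, 8], [0, 1, 9], [0, 2, 3, 10], [0, 2, 3, 11], [0, 4, 12], [0, 4, 13], [0, 5, 16], [1, 0, 4], [1, 0, 5], [1, 0, 6], [1, 3, 10], [1, 3, 11], [1, 3, 12], [1, 0, 4, 13], [1, 0, 14], [1, 0, 15], [1, 0, 5, 16], [2, 0, 5], [2, 0, 6], [2, 1, 7], [2, 1, 8], [2, 1, 9], [2, 3, 10], [2, 3, 11], [2, 4, 12], [2, 4, 13], [2, 4, 14], [2, 0, 15], [2, 0, 5, 16], [3, 4, 0, 5], [3, 4, 0, 6], [3, 1, 7], [3, 1, 8], [3, 4, 13], [3, 4, 14], [3, 4, 0, 15], [3, 4, 0, 5, 16], [4, 0, 5], [4, 0, 6], [4, 0,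 7], [4, 0, 1, 8], [4, 3, 9], [4, 3, 10], [4, 3, 11], [4, 0, 15], [4, 0, 5, 16], [5, 0, 7], [5, 0, 1, 8], [5, 0, 1, 9], [5, 0, 2, 3, 10], [5, 0, 2, 3, 11], [5, 0, 4, 12], [5, 0, 4, 13], [5, 0, 14], [6, 0, 1, 8], [6, 0, 1, 9], [6, 0, 2, 3, 10], [6, 0, 2, 3, 11], [6, 0, 4, 12], [6, 0, 4, 13], [6, 0, 14], [6, 0, 15], [7, 1, 9], [7, 1, 3, 10], [7, 1, 3, 11], [7, 1, 3, 12], [7, 0, 4, 13], [7, 0, 14], [7, 0, 15], [7, 0, 5, 16], [8, 1, 3, 10], [8, 1, 3, 11], [8, 1, 3, 12], [8, 1, 0, 4, 13], [8, 1, 0, 14], [8, 1, 0, 15], [8, 1, 0, 5, 16], [9, 3, 11], [9, 3, 12], [9, 3, 4, 13], [9, 1, 0, 14], [9, 1, 0, 15], [9, 1, 0, 5, 16], [10, 3, 12], [10, 3, 4, 13], [10, 3, 4, 14], [10, 3, 4, 0, 15], [10, 3, 4, 0, 5, 16], [11, 3, 4, 13], [11, 3, 4, 14], [11, 3, 4, 0, 15], [11, 3, 4, 0, 5, 16],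 [12, 4, 14], [12, 4, 0, 15], [12, 4, 0, 5, 16], [13, 4, 0, 15], [13, 4, 0, 5, 16], [14, 0, 5, 16]]
  fb := [(2, [9, 1, 7], [2, 1, 8, 7, 17, 9, 3, 4, 0]), (2, [14, 4, 12], [2, 4, 13, 12, 17, 14, 0, 1, 3])]

theorem b50 : c50.certB links 50 = true := by decide +kernel

def c51 : PatCert where
  P := p51
  bl := [[0, 5, 6], [1, 2, 7, 9, 13, 4, 16], [8], [10], [11], [12], [14], [15], [17], [3]]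
  exc := [(6, 4), (8, 4), (16, 4)]
  paths := [[0, 2, 3], [0, 1, 8], [0, 1, 9], [0, 2, 3, 10], [0, 2, 3, 11], [0, 2, 3, 12], [0, 4, 14], [0, 4, 15], [0, 5, 17], [1, 0, 4], [1, 0, 5], [1, 0, 6], [1, 3, 10], [1, 3, 11], [1, 3, 12], [1, 3, 13], [1, 0, 4, 14], [1, 0, 4, 15], [1, 0, 16], [1, 0, 5, 17], [2, 0, 4], [2, 0, 5], [2, 0, 6], [2, 1, 7], [2, 1, 8], [2, 1, 9], [2, 3, 10], [2, 3, 11], [2, 3, 12], [2, 0, 4, 14], [2, 0, 4, 15], [2, 0, 16], [2, 0, 5, 17], [3, 1, 0, 4], [3, 1, 0, 5], [3, 1, 0, 6], [3, 1, 7], [3, 1, 8], [3, 1, 0, 4, 14], [3, 1, 0, 4, 15], [3, 1, 0, 16], [3, 1, 0, 5, 17], [4, 0, 5], [4, 0, 6], [4, 0, 7], [4, 0, 1, 8], [4, 0, 1, 9], [4, 0, 2, 3, 10], [4, 0, 2, 3, 11], [4, 0, 1, 3, 12], [4, 0, 5, 17], [5, 0, 7], [5, 0, 1, 8], [5, 0, 1, 9], [5, 0, 2, 3, 10], [5,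 0, 2, 3, 11], [5, 0, 2, 3, 12], [5, 0, 13], [5, 0, 4, 14], [5, 0, 4, 15], [6, 0, 1, 8], [6, 0, 1, 9], [6, 0, 2, 3, 10], [6, 0, 2, 3, 11], [6, 0, 2, 3, 12], [6, 0, 13], [6, 0, 4, 14], [6, 0, 4, 15], [6, 5, 16], [7, 1, 9], [7, 1, 3, 10], [7, 1, 3, 11], [7, 1, 3, 12], [7, 0, 13], [7, 0, 4, 14], [7, 0, 4, 15], [7, 0, 16], [7, 0, 5, 17], [8, 1, 3, 10], [8, 1, 3, 11], [8, 1, 3, 12], [8, 1, 3, 13], [8, 1, 0, 4, 14], [8, 1, 0, 4, 15], [8, 1, 0, 16], [8, 1, 0, 5, 17], [9, 3, 11], [9, 3, 12], [9, 3, 13], [9, 1, 0, 4, 14], [9, 1, 0, 4, 15], [9, 1, 0, 16], [9, 1, 0, 5, 17], [10, 3, 12], [10, 3, 13], [10, 3, 1, 0, 4, 14], [10, 3, 1, 0, 4, 15], [10, 3, 1, 0, 16], [10, 3, 1, 0, 5, 17], [11, 3, 13], [11, 3, 1, 0, 4, 14], [11, 3, 1, 0, 4, 15], [11, 3, 1, 0, 16], [11, 3, 1, 0, 5, 17], [12,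 3, 1, 0, 4, 14], [12, 3, 1, 0, 4, 15], [12, 3, 1, 0, 16], [12, 3, 1, 0, 5, 17], [13, 4, 15], [13, 0, 16], [13, 0, 5, 17], [14, 4, 16], [14, 4, 0, 5, 17], [15, 4, 0, 5, 17]]
  fb := [(0, [7, 0, 5, 17], [5, 6, 7, 0, 16, 17]), (2, [9, 1, 7], [2, 1, 8, 7, 18, 9, 3, 13, 0]), (0, [17, 5, 0, 4, 15], [5, 16, 4, 17, 6, 0])]

theorem b51 : c51.certB links 51 = true := by decide +kernel

def c52 : PatCert where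
  P := p52
  bl := [[1, 2, 6], [3, 5, 7, 9, 13], [8], [10], [11], [12], [0, 14, 16], [15], [4]]
  exc := [(7, 4), (8, 4), (15, 4)]
  paths := [[0, 2, 3], [0, 2, 5, 4], [0, 2, 5], [0, 1, 6], [0, 2, 7], [0, 2, 3, 8], [0, 2, 3, 9], [0, 2, 5, 4, 10], [0, 2, 5, 4, 11], [0, 2, 5, 12], [0, 2, 13], [1, 2, 3], [1, 2, 5, 4], [1, 2, 5], [1, 2, 3, 8], [1, 2, 3, 9], [1, 2, 5, 4, 10], [1, 2, 5, 4, 11], [1, 2, 5, 12], [1, 2, 13], [1, 0, 14], [1, 0, 15], [2, 5, 4], [2, 1, 6], [2, 3, 8], [2, 3, 9], [2, 5, 4, 10], [2, 5, 4, 11], [2, 5, 12], [2, 0, 15], [2, 1, 16], [3, 2, 1, 6], [3, 4, 10], [3, 4, 11], [3, 4, 12], [3, 2, 13], [3, 2, 14], [3, 2, 0, 15], [3, 2, 1, 16], [4, 3, 2, 1, 6], [4, 3, 7], [4, 3, 8], [4, 5, 13], [4, 3, 2, 14], [4, 3, 2, 0, 15], [4, 3, 2, 1, 16], [5, 2, 1, 6], [5, 3,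 7], [5, 3, 8], [5, 4, 9], [5, 4, 10], [5, 4, 11], [5, 2, 14], [5, 2, 0, 15], [5, 2, 1, 16], [6, 1, 2, 3, 8], [6, 1, 2, 3, 9], [6, 1, 2, 5, 4, 10], [6, 1, 2, 5, 4, 11], [6, 1, 2, 5, 12], [6, 1, 2, 13], [6, 1, 0, 14], [6, 1, 0, 15], [7, 3, 9], [7, 3, 4, 10], [7, 3, 4, 11], [7, 3, 4, 12], [7, 2, 13], [7, 2, 14], [7, 1, 0, 15], [7, 1, 16], [8, 3, 4, 10], [8, 3, 4, 11], [8, 3, 4, 12], [8, 3, 2, 13], [8, 3, 2, 14], [8, 3, 2, 0, 15], [8, 3, 2, 1, 16], [9, 4, 11], [9, 4, 12], [9, 4, 5, 13], [9, 3, 2, 14], [9, 3, 2, 0, 15], [9, 3, 2, 1, 16], [10, 4, 12], [10, 4, 5, 13], [10, 4, 3, 2, 14], [10, 4, 3, 2, 0, 15], [10, 4, 3, 2, 1, 16], [11, 4, 5, 13], [11, 4, 3, 2, 14], [11, 4, 3, 2, 0, 15], [11, 4, 3, 2, 1, 16], [12, 5, 2, 14], [12, 5, 2, 0, 15], [12, 5, 2, 1, 16], [13, 2, 0, 15],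 [13, 2, 1, 16], [14, 0, 16]]
  fb := [(1, [8, 3, 2, 1, 6], [7, 1, 0, 16, 8, 3, 2]), (4, [9, 3, 7], [8, 3, 5, 4, 12, 13, 2, 7, 17, 9]), (1, [16, 0, 14], [15, 0, 1, 2, 14, 17, 16])]

theorem b52 : c52.certB links 52 = true := by decide +kernel

def c53 : PatCert where
  P := p53
  bl := [[2, 3, 6], [7], [0, 1, 5, 4, 8, 11, 13, 16], [9], [10], [12], [14], [15]]
  exc := [(8, 4), (12, 4), (14, 4), (16, 4)]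
  paths := [[0, 1, 2], [0, 1, 3], [0, 1, 3, 4], [0, 1, 5], [0, 1, 2, 6], [0, 1, 2, 7], [0, 1, 3, 8], [0, 1, 3, 4, 9], [0, 1, 3, 4, 10], [0, 1, 5, 11], [0, 1, 5, 12], [0, 1, 13], [1, 3, 4], [1, 2, 6], [1, 2, 7], [1, 3, 8], [1, 3, 4, 9], [1, 3, 4, 10], [1, 5, 11], [1, 5, 12], [1, 0, 15], [2, 3, 4], [2, 1, 5], [2, 3, 4, 9], [2, 3, 4, 10], [2, 1, 5, 11], [2, 1, 5, 12], [2, 1, 13], [2, 1, 14], [2, 1, 0, 15], [3, 2, 6], [3, 2, 7], [3, 4, 9], [3, 4, 10], [3, 4, 11], [3, 5, 12], [3, 1, 13], [3, 1, 14], [3, 1, 0, 15], [3, 1, 16], [4, 3, 2, 6], [4, 3, 2, 7], [4, 5, 12], [4, 5, 13], [4, 3, 1, 14], [4, 3, 1, 0, 15], [4, 3, 1, 16], [5, 1, 2, 6], [5, 1, 2, 7], [5, 4, 8], [5, 4, 9], [5, 4, 10], [5, 1, 14], [5, 1, 0, 15], [5, 1, 16], [6, 2, 8], [6, 2, 3, 4, 9], [6, 2, 3, 4, 10], [6, 2,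 1, 5, 11], [6, 2, 1, 5, 12], [6, 2, 1, 13], [6, 2, 1, 14], [6, 2, 1, 0, 15], [7, 2, 3, 4, 9], [7, 2, 3, 4, 10], [7, 2, 1, 5, 11], [7, 2, 1, 5, 12], [7, 2, 1, 13], [7, 2, 1, 14], [7, 2, 1, 0, 15], [7, 2, 16], [8, 4, 10], [8, 4, 11], [8, 3, 5, 12], [8, 3, 1, 13], [8, 3, 1, 14], [8, 3, 1, 0, 15], [8, 2, 16], [9, 4, 11], [9, 4, 5, 12], [9, 4, 5, 13], [9, 4, 3, 1, 14], [9, 4, 3, 1, 0, 15], [9, 4, 3, 1, 16], [10, 4, 5, 12], [10, 4, 5, 13], [10, 4, 3, 1, 14], [10, 4, 3, 1, 0, 15], [10, 4, 3, 1, 16], [11, 5, 13], [11, 5, 1, 14], [11, 5, 1, 0, 15], [11, 5, 1, 16], [12, 5, 1, 14], [12, 5, 1, 0, 15], [12, 5, 1, 16], [13, 1, 0, 15], [13, 1, 16], [14, 1, 16]]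
  fb := [(1, [9, 4, 3, 2, 7], [8, 3, 5, 1, 2, 9, 4]), (4, [13, 5, 11], [12, 5, 3, 1, 2, 8, 4, 11, 17, 13]), (0, [15, 0, 1, 13], [0, 14, 13, 15, 16, 1]), (0, [6, 2, 1, 0, 15], [0, 16, 2, 1, 14, 6])]

theorem b53 : c53.certB links 53 = true := by decide +kernel

def c54 : PatCert where
  P := p54
  bl := [[1, 6], [0, 2, 3, 7, 16], [4, 8, 11, 5, 14], [9], [10], [12], [13], [15]]
  exc := [(6, 4), (11, 4), (14, 4)]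
  paths := [[0, 2, 3], [0, 2, 4], [0, 2, 5], [0, 1, 6], [0, 2, 7], [0, 2, 4, 8], [0, 2, 4, 9], [0, 2, 4, 10], [0, 2, 11], [0, 2, 5, 12], [0, 2, 5, 13], [1, 2, 3], [1, 2, 4], [1, 2, 5], [1, 2, 4, 8], [1, 2, 4, 9], [1, 2, 4, 10], [1, 2, 11], [1, 2, 5, 12], [1, 2, 5, 13], [1, 0, 14], [1, 0, 15], [2, 1, 6], [2, 4, 8], [2, 4, 9], [2, 4, 10], [2, 5, 12], [2, 5, 13], [2, 0, 15], [2, 1, 16], [3, 2, 5], [3, 2, 1, 6], [3, 4, 9], [3, 4, 10], [3, 4, 11], [3, 2, 5, 12], [3, 2, 5, 13], [3, 2, 14], [3, 2, 0, 15], [3, 2, 1, 16], [4, 2, 5], [4, 2, 1, 6], [4, 3, 7], [4, 2, 5, 12], [4, 2, 5, 13], [4, 2, 14], [4, 2, 0, 15], [4, 2, 1, 16], [5, 2, 1, 6], [5, 2, 7], [5, 2, 4, 8], [5, 2, 4, 9], [5, 2, 4, 10], [5, 2, 0, 15], [5, 2, 1, 16], [6, 1, 2, 4, 8], [6, 1, 2, 4, 9], [6, 1, 2, 4, 10], [6,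 1, 2, 11], [6, 1, 2, 5, 12], [6, 1, 2, 5, 13], [6, 1, 0, 14], [6, 1, 0, 15], [7, 3, 4, 9], [7, 3, 4, 10], [7, 2, 11], [7, 2, 5, 12], [7, 2, 5, 13], [7, 2, 14], [7, 1, 0, 15], [7, 1, 16], [8, 4, 10], [8, 4, 11], [8, 3, 2, 5, 12], [8, 3, 2, 5, 13], [8, 3, 2, 14], [8, 3, 2, 0, 15], [8, 3, 2, 0, 16], [9, 4, 11], [9, 4, 2, 5, 12], [9, 4, 2, 5, 13], [9, 4, 2, 14], [9, 4, 2, 0, 15], [9, 4, 2, 1, 16], [10, 4, 2, 5, 12], [10, 4, 2, 5, 13], [10, 4, 2, 14], [10, 4, 2, 0, 15], [10, 4, 2, 1, 16], [11, 5, 13], [11, 2, 14], [11, 2, 0, 15], [11, 2, 1, 16], [12, 5, 14], [12, 5, 2, 0, 15], [12, 5, 2, 1, 16], [13, 5, 2, 0, 15], [13, 5, 2, 1, 16], [14, 0, 16]]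
  fb := [(1, [7, 1, 16], [6, 1, 2, 0, 16, 17, 7]), (1, [12, 5, 2, 4, 10], [11, 5, 13, 14, 2, 4, 12]), (1, [15, 0, 2, 5, 13], [14, 0, 16, 1, 2, 5, 15])]

theorem b54 : c54.certB links 54 = true := by decide +kernel

def c55 : PatCert where
  P := p55
  bl := [[1, 6], [0, 2, 3, 7, 16], [8], [4, 5, 9, 12, 14], [10], [11], [13], [15]]
  exc := [(6, 4), (7, 4), (9, 4), (13, 4), (14, 4)]
  paths := [[0, 2, 3], [0, 2, 4], [0, 2, 5], [0, 1, 6], [0, 2, 7], [0, 2, 3, 8], [0, 2, 9], [0, 2, 4, 10], [0, 2, 4, 11], [0, 2, 5, 12], [0, 2, 5, 13], [1, 2, 3], [1, 2, 4], [1, 2, 5], [1, 2, 3, 8], [1, 2, 9], [1, 2, 4, 10], [1, 2, 4, 11], [1, 2, 5, 12], [1, 2, 5, 13], [1, 0, 14], [1, 0, 15], [2, 1, 6], [2, 3, 8], [2, 4, 10], [2, 4, 11], [2, 5, 12], [2, 5, 13], [2, 0, 15], [2, 1, 16], [3, 2,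 4], [3, 2, 5], [3, 2, 1, 6], [3, 2, 4, 10], [3, 2, 4, 11], [3, 2, 5, 12], [3, 2, 5, 13], [3, 2, 14], [3, 2, 0, 15], [3, 2, 1, 16], [4, 2, 1, 6], [4, 2, 7], [4, 2, 3, 8], [4, 5, 13], [4, 2, 14], [4, 2, 0, 15], [4, 2, 1, 16], [5, 2, 1, 6], [5, 2, 7], [5, 2, 3, 8], [5, 4, 9], [5, 4, 10], [5, 4, 11], [5, 2, 0, 15], [5, 2, 1, 16], [6, 1, 2, 3, 8], [6, 1, 2, 9], [6, 1, 2, 4, 10], [6, 1, 2, 4, 11], [6, 1, 2, 5, 12], [6, 1, 2, 5, 13], [6, 1, 0, 14], [6, 1, 0, 15], [7, 3, 9], [7, 2, 4, 10], [7, 2, 4, 11], [7, 2, 5, 12], [7, 2, 5, 13], [7, 2, 14], [7, 1, 0, 15], [7, 1, 16], [8, 3, 2, 4, 10], [8, 3, 2, 4, 11], [8, 3, 2, 5, 12], [8, 3, 2, 5, 13], [8, 3, 2, 14], [8, 3, 2, 0, 15], [8, 3, 2, 0, 16], [9, 4, 11], [9, 4, 12], [9, 2, 5, 13], [9, 2, 14], [9, 2, 0, 15], [9, 2, 1, 16], [10,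 4, 12], [10, 4, 5, 13], [10, 4, 2, 14], [10, 4, 2, 0, 15], [10, 4, 2, 1, 16], [11, 4, 5, 13], [11, 4, 2, 14], [11, 4, 2, 0, 15], [11, 4, 2, 1, 16], [12, 5, 14], [12, 4, 2, 0, 15], [12, 4, 2, 1, 16], [13, 5, 2, 0, 15], [13, 5, 2, 1, 16], [14, 0, 16]]
  fb := [(1, [7, 1, 16], [6, 1, 2, 0, 16, 17, 7]), (0, [8, 3, 2, 1, 6], [3, 7, 1, 8, 9, 2]), (0, [10, 4, 2, 3, 8], [3, 9, 4, 2, 7, 10]), (1, [14, 5, 12], [13, 5, 2, 4, 12, 17, 14]), (1, [15, 0, 2, 5, 13], [14, 0, 16, 1, 2, 5, 15])]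

theorem b55 : c55.certB links 55 = true := by decide +kernel

def c56 : PatCert where
  P := p56
  bl := [[0, 1, 6], [2, 4, 5, 7, 11, 13, 16], [3, 8, 10], [9], [12], [14], [15]]
  exc := [(6, 4), (12, 4), (16, 4)]
  paths := [[0, 2, 3], [0, 1, 6], [0, 2, 7], [0, 2, 8], [0, 2, 3, 9], [0, 2, 10], [0, 2, 11], [0, 4, 12], [0, 5, 13], [0, 5, 14], [0, 5, 15], [1, 2, 3], [1, 0, 4], [1, 0, 5], [1, 2, 8], [1, 2, 3, 9], [1, 2, 10], [1, 2, 11], [1, 0, 4, 12], [1, 0, 5, 13], [1, 0, 5, 14], [1, 0, 5, 15], [2, 4, 5], [2, 1, 6], [2, 3, 9], [2, 4, 12], [2, 4, 13], [2, 4, 5, 14], [2, 4, 5, 15], [2, 1, 16], [3, 2, 4], [3, 2, 4, 5], [3, 2, 1, 6], [3, 2, 7], [3, 2, 11], [3, 2, 4, 12], [3, 2, 4, 13], [3, 2, 4, 5, 14], [3, 2, 4, 5, 15], [3, 2, 1, 16], [4, 0, 1, 6], [4, 2, 7], [4, 2, 8], [4,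 2, 3, 9], [4, 2, 10], [4, 5, 14], [4, 5, 15], [4, 0, 16], [5, 0, 1, 6], [5, 4, 2, 7], [5, 4, 2, 8], [5, 4, 2, 3, 9], [5, 4, 2, 10], [5, 4, 11], [5, 4, 12], [6, 1, 2, 8], [6, 1, 2, 3, 9], [6, 1, 2, 10], [6, 1, 2, 11], [6, 1, 0, 4, 12], [6, 1, 0, 4, 13], [6, 1, 0, 5, 14], [6, 1, 0, 5, 15], [7, 2, 3, 9], [7, 2, 10], [7, 2, 11], [7, 2, 4, 12], [7, 2, 4, 13], [7, 1, 0, 5, 14], [7, 2, 4, 5, 15], [7, 1, 16], [8, 2, 10], [8, 2, 11], [8, 2, 4, 12], [8, 2, 4, 13], [8, 2, 4, 5, 14], [8, 2, 4, 5, 15], [8, 2, 1, 16], [9, 3, 2, 11], [9, 3, 2, 4, 12], [9, 3, 2, 4, 13], [9, 3, 2, 4, 5, 14], [9, 3, 2, 4, 5, 15], [9, 3, 2, 1, 16], [10, 2, 4, 12], [10, 2, 4, 13], [10, 2, 4, 5, 14], [10, 2, 4, 5, 15], [10, 2, 1, 16], [11, 4, 13], [11, 4, 5, 14], [11, 4, 5, 15], [11, 2, 1, 16], [12, 4, 5,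 14], [12, 4, 5, 15], [12, 4, 0, 16], [13, 5, 15], [13, 5, 16], [14, 5, 16]]
  fb := [(1, [7, 1, 16], [6, 1, 2, 0, 16, 17, 7]), (4, [13, 4, 11], [12, 4, 0, 5, 16, 1, 2, 11, 17, 13]), (1, [6, 1, 0, 5, 15], [16, 1, 7, 2, 0, 5, 6])]

theorem b56 : c56.certB links 56 = true := by decide +kernel

def c57 : PatCert where
  P := p57
  bl := [[0, 2, 4, 6, 7], [1, 8, 11, 3, 14], [9], [10], [12], [13], [5, 15, 18], [16], [17]]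
  exc := [(7, 4), (14, 4)]
  paths := [[0, 4, 5], [0, 1, 9], [0, 1, 10], [0, 2, 11], [0, 3, 12], [0, 3, 13], [0, 4, 15], [0, 4, 5, 16], [0, 4, 5, 17], [0, 6, 18], [1, 0, 3], [1, 0, 4], [1, 0, 4, 5], [1, 0, 6], [1, 0, 7], [1, 0, 3, 12], [1, 0, 3, 13], [1, 0, 14], [1, 0, 4, 15], [1, 0, 4, 5, 16], [1, 0, 4, 5, 17], [1, 0, 6, 18], [2, 0, 4], [2, 0, 4, 5], [2, 0, 6], [2, 0, 7], [2, 1, 8], [2, 1, 9], [2, 1, 10], [2, 3, 12], [2, 3, 13], [2, 3, 14], [2, 0, 4, 15], [2, 0, 4, 5, 16], [2, 0, 4, 5, 17], [2, 0, 6, 18], [3, 0, 4], [3, 0, 4, 5], [3, 0, 6], [3, 0, 7], [3, 0, 8], [3, 0, 1, 9], [3, 0, 1, 10], [3, 0, 4, 15], [3, 0, 4, 5, 16], [3, 0, 4, 5, 17], [3, 0, 6, 18], [4, 0, 7], [4, 0, 8], [4, 0, 1, 9], [4, 0, 1, 10], [4, 0, 2, 11], [4, 0, 3, 12], [4, 0, 3, 13], [4, 5, 16], [4, 5,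 17], [4, 6, 18], [5, 6, 7], [5, 4, 0, 8], [5, 4, 0, 1, 9], [5, 4, 0, 1, 10], [5, 4, 0, 2, 11], [5, 4, 0, 3, 12], [5, 4, 0, 3, 13], [5, 4, 14], [6, 0, 8], [6, 0, 1, 9], [6, 0, 1, 10], [6, 0, 2, 11], [6, 0, 3, 12], [6, 0, 3, 13], [6, 4, 14], [6, 4, 15], [6, 5, 16], [6, 5, 17], [7, 0, 1, 9], [7, 0, 1, 10], [7, 0, 2, 11], [7, 0, 3, 12], [7, 0, 3, 13], [7, 0, 14], [7, 0, 4, 15], [7, 6, 5, 16], [7, 6, 5, 17], [8, 1, 10], [8, 1, 11], [8, 0, 3, 12], [8, 0, 3, 13], [8, 0, 14], [8, 0, 4, 15], [8, 0, 4, 5, 16], [8, 0, 4, 5, 17], [8, 0, 6, 18], [9, 1, 11], [9, 1, 0, 3, 12], [9, 1, 0, 3, 13], [9, 1, 0, 14], [9, 1, 0, 4, 15], [9, 1, 0, 4, 5, 16], [9, 1, 0, 4, 5, 17], [9, 1, 0, 6, 18], [10, 1, 0, 3, 12], [10, 1, 0, 3, 13], [10, 1, 0, 14], [10, 1, 0, 4, 15], [10, 1, 0, 4, 5, 16], [10,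 1, 0, 4, 5, 17], [10, 1, 0, 6, 18], [11, 3, 13], [11, 3, 14], [11, 2, 0, 4, 15], [11, 2, 0, 4, 5, 16], [11, 2, 0, 4, 5, 17], [11, 2, 0, 6, 18], [12, 3, 14], [12, 3, 0, 4, 15], [12, 3, 0, 4, 5, 16], [12, 3, 0, 4, 5, 17], [12, 3, 0, 6, 18], [13, 3, 0, 4, 15], [13, 3, 0, 4, 5, 16], [13, 3, 0, 4, 5, 17], [13, 3, 0, 6, 18], [14, 4, 5, 16], [14, 4, 5, 17], [14, 0, 6, 18], [15, 5, 17], [15, 5, 18], [16, 5, 18]]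
  fb := [(1, [8, 0, 6, 18], [7, 6, 4, 5, 18, 8, 0]), (1, [15, 4, 0, 3, 13], [14, 4, 5, 6, 0, 3, 15])]

theorem b57 : c57.certB links 57 = true := by decide +kernel

def c58 : PatCert where
  P := p58
  bl := [[2, 3], [4], [0, 1, 5, 7, 10], [6], [8], [9]]
  exc := [(6, 4), (10, 4)]
  paths := [[0, 1, 2], [0, 1, 2, 3], [0, 1, 2, 4], [0, 1, 5], [0, 1, 6], [1, 2, 3], [1, 2, 4], [1, 0, 8], [1, 0, 9], [2, 1, 6], [2, 1, 7], [2, 1, 0, 8], [2, 1, 0, 9], [3, 2, 5], [3, 2, 1, 6], [3, 2, 1, 7], [3, 2, 1, 0, 8], [3, 2, 1, 0, 9], [4, 2, 1, 6], [4, 2, 1, 7], [4, 2, 1, 0, 8], [4, 2, 1, 0, 9], [4, 2, 10], [5, 1, 7], [5, 1, 0, 8], [5, 1, 0, 9], [5, 1, 10], [6, 1, 0, 8], [6, 1, 0, 9], [6, 1, 10], [7, 0, 9], [7, 1, 10], [8, 0, 10]]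
  fb := [(6, [7, 1, 5], [6, 1, 0, 8, 9, 10, 2, 5, 11, 7]), (1, [3, 2, 1, 0, 9], [10, 2, 4, 5, 1, 0, 3])]

theorem b58 : c58.certB links 58 = true := by decide +kernel

def c59 : PatCert where
  P := p59
  bl := [[2, 4], [5], [6], [0, 1, 7, 9, 11], [8], [10], [3]]
  exc := [(8, 4)]
  paths := [[0, 1, 2], [0, 1, 3], [0, 1, 3, 4], [0, 1, 3, 5], [0, 1, 3, 6], [0, 1, 7], [0, 1, 8], [1, 3, 4], [1, 3, 5], [1, 3, 6], [1, 0, 10], [2, 3, 5], [2, 3, 6], [2, 1, 7], [2, 1, 8], [2, 1, 9], [2, 1, 0, 10], [3, 1, 8], [3, 1, 9], [3, 1, 0, 10], [3, 1, 11], [4, 3, 6], [4, 3, 7], [4, 3, 1, 8], [4, 3, 1, 9], [4, 3, 1, 0, 10], [5, 3, 7], [5, 3, 1, 8], [5, 3, 1, 9], [5, 3, 1, 0, 10], [5, 3, 1, 11], [6, 3, 1, 8], [6, 3, 1, 9], [6, 3, 1, 0, 10], [6, 3, 1, 11], [7, 1, 9], [7, 1, 0, 10], [7, 1, 11],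 [8, 1, 0, 10], [8, 1, 11], [9, 1, 11]]
  fb := [(7, [9, 1, 7], [2, 1, 0, 8, 10, 9, 12, 7, 3, 4, 11])]

theorem b59 : c59.certB links 59 = true := by decide +kernel

end StrongArb.Data
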