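import Pool.Agent.Lib.MP_39c2b7_co.Data.Pats

/-! Certificates of the configurations 60 to 69. -/

namespace StrongArb.Data

def c60 : PatCert where
  P := p60
  bl := [[4], [5], [3, 6], [0, 1, 7, 9, 11], [8], [10], [2]]
  exc := [(8, 4), (11, 4)]
  paths := [[0, 1, 2], [0, 1, 3], [0, 1, 2, 4], [0, 1, 2, 5], [0, 1, 3, 6], [0, 1, 7], [0, 1, 8], [1, 2, 4], [1, 2, 5], [1, 3, 6], [1, 0, 10], [2, 1, 7], [2, 1, 8], [2, 1, 9], [2, 1, 0, 10], [3, 2, 4], [3, 2, 5], [3, 1, 8], [3, 1, 9], [3, 1, 0, 10], [3, 1, 11], [4, 2, 6], [4, 2, 1, 7], [4, 2, 1, 8], [4, 2, 1, 9], [4, 2, 1, 0, 10], [5, 2, 1, 7], [5, 2, 1, 8], [5, 2, 1, 9], [5, 2, 1, 0, 10], [5, 2, 11], [6, 2, 1, 8], [6, 2, 1, 9], [6, 2, 1, 0, 10], [6, 2, 11], [7, 1, 9], [7, 1, 0, 10], [7, 1, 11], [8, 1, 0, 10], [8, 1, 11], [9, 1,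 11]]
  fb := [(7, [9, 1, 7], [0, 1, 8, 3, 12, 7, 6, 2, 11, 10, 9]), (0, [4, 2, 1, 0, 10], [0, 11, 2, 1, 9, 4])]

theorem b60 : c60.certB links 60 = true := by decide +kernel

def c61 : PatCert where
  P := p61
  bl := [[3, 4], [5], [0, 1, 2, 6, 8, 10, 12], [7], [9], [11]]
  exc := [(7, 4), (9, 4), (12, 4), (12, 5)]
  paths := [[0, 1, 2], [0, 1, 2, 3], [0, 1, 2, 3, 4], [0, 1, 2, 3, 5], [0, 1, 2, 6], [0, 1, 2, 7], [0, 1, 8], [0, 1, 9], [1, 2, 3], [1, 2, 3, 4], [1, 2, 3, 5], [1, 2, 6], [1, 2, 7], [1, 0, 11], [2, 3, 4], [2, 3, 5], [2, 1, 9], [2, 1, 10], [2, 1, 0, 11], [3, 2, 7], [3, 2, 8], [3, 2, 1, 9], [3, 2, 1, 10], [3, 2, 1, 0, 11], [4, 3, 6], [4, 3, 2, 7], [4, 3, 2, 8], [4, 3, 2, 1, 9], [4, 3, 2, 1, 10], [4, 3, 2, 1, 0, 11], [5, 3, 2, 7], [5, 3, 2, 8], [5, 3, 2, 1, 9],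 [5, 3, 2, 1, 10], [5, 3, 2, 1, 0, 11], [5, 3, 12], [6, 2, 8], [6, 2, 1, 9], [6, 2, 1, 10], [6, 2, 1, 0, 11], [6, 2, 12], [7, 2, 1, 9], [7, 2, 1, 10], [7, 2, 1, 0, 11], [7, 2, 12], [8, 1, 10], [8, 1, 0, 11], [8, 2, 12], [9, 1, 0, 11], [9, 1, 12], [10, 1, 12]]
  fb := [(6, [8, 2, 6], [7, 2, 3, 5, 4, 12, 1, 8, 13, 6]), (5, [10, 1, 8], [0, 1, 9, 13, 8, 2, 12, 11, 10]), (0, [4, 3, 2, 1, 0, 11], [4, 12, 2, 1, 10, 3]), (1, [4, 3, 2, 1, 0, 11], [0, 12, 3, 2, 1, 10, 4])]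

theorem b61 : c61.certB links 61 = true := by decide +kernel

def c62 : PatCert where
  P := p62
  bl := [[3, 4], [5], [0, 1, 2, 6, 8, 10, 13], [7], [9], [11], [12]]
  exc := [(7, 4), (9, 4), (13, 4), (13, 5)]
  paths := [[0, 1, 2], [0, 1, 2, 3], [0, 1, 2, 3, 4], [0, 1, 2, 3, 5], [0, 1, 2, 6], [0, 1, 2, 7], [0, 1, 8], [0, 1, 9], [1, 2, 3], [1, 2, 3, 4], [1, 2, 3, 5], [1, 2, 6], [1, 2, 7], [1, 0, 11], [1, 0, 12], [2, 3, 4], [2, 3, 5], [2, 1, 9], [2, 1, 10], [2, 1, 0, 11], [2, 1, 0, 12], [3, 2, 7], [3, 2, 8], [3, 2, 1, 9], [3, 2, 1, 10], [3, 2, 1, 0, 11], [3, 2, 1, 0, 12], [4, 3, 6], [4, 3, 2, 7], [4, 3, 2, 8], [4, 3, 2, 1, 9], [4, 3, 2, 1, 10], [4, 3, 2, 1, 0, 11], [4, 3, 2, 1, 0, 12], [5, 3, 2, 7], [5, 3, 2, 8], [5, 3, 2, 1, 9], [5, 3, 2, 1, 10], [5, 3, 2, 1, 0, 11], [5,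 3, 2, 1, 0, 12], [5, 3, 13], [6, 2, 8], [6, 2, 1, 9], [6, 2, 1, 10], [6, 2, 1, 0, 11], [6, 2, 1, 0, 12], [6, 2, 13], [7, 2, 1, 9], [7, 2, 1, 10], [7, 2, 1, 0, 11], [7, 2, 1, 0, 12], [7, 2, 13], [8, 1, 10], [8, 1, 0, 11], [8, 1, 0, 12], [8, 2, 13], [9, 1, 0, 11], [9, 1, 0, 12], [9, 1, 13], [10, 0, 12], [10, 0, 13], [11, 0, 13]]
  fb := [(6, [8, 2, 6], [7, 2, 3, 5, 4, 13, 1, 8, 14, 6]), (6, [10, 1, 8], [9, 1, 0, 11, 12, 13, 2, 8, 14, 10]), (1, [4, 3, 2, 1, 0, 12], [13, 4, 10, 11, 3, 2, 1]), (9, [4, 3, 2, 1, 0, 12], [0, 13, 3, 2, 5, 6, 7, 8, 1, 10, 11, 4])]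

theorem b62 : c62.certB links 62 = true := by decide +kernel

def c63 : PatCert where
  P := p63
  bl := [[0, 1, 5], [6], [2, 3, 4, 7, 9, 12, 14], [8], [10], [11], [13]]
  exc := [(8, 4), (9, 4), (13, 4)]
  paths := [[0, 3, 4], [0, 1, 5], [0, 1, 6], [0, 2, 7], [0, 2, 8], [0, 2, 9], [0, 3, 4, 10], [0, 3, 4, 11], [0, 3, 12], [0, 3, 13], [1, 0, 3], [1, 0, 3, 4], [1, 2, 8], [1, 2, 9], [1, 0, 3, 4, 10], [1, 0, 3, 4, 11], [1, 0, 3, 12], [1, 0, 3, 13], [2, 3, 4], [2, 1, 5], [2, 1, 6], [2, 3, 4, 10], [2, 3, 4, 11], [2, 3, 12], [2, 3, 13], [2, 1, 14], [3, 0, 1, 5], [3, 0, 1, 6], [3, 2, 7], [3, 2, 8], [3, 4, 10], [3, 4, 11], [4, 3, 0, 1, 5], [4, 3, 0, 1, 6], [4, 3, 2, 7], [4, 3, 2, 8], [4, 3, 13], [4, 3, 14], [5, 1, 7], [5, 1, 2, 8], [5, 1, 2, 9], [5, 1, 0, 3, 4, 10], [5, 1, 0,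 3, 4, 11], [5, 1, 2, 3, 12], [5, 1, 2, 3, 13], [6, 1, 2, 8], [6, 1, 2, 9], [6, 1, 0, 3, 4, 10], [6, 1, 0, 3, 4, 11], [6, 1, 0, 3, 12], [6, 1, 0, 3, 13], [6, 1, 14], [7, 2, 9], [7, 2, 3, 4, 10], [7, 2, 3, 4, 11], [7, 2, 3, 12], [7, 2, 3, 13], [7, 1, 14], [8, 2, 3, 4, 10], [8, 2, 3, 4, 11], [8, 2, 3, 12], [8, 2, 3, 13], [8, 2, 1, 14], [9, 4, 11], [9, 4, 12], [9, 3, 13], [9, 3, 14], [10, 4, 12], [10, 4, 3, 13], [10, 4, 3, 14], [11, 4, 3, 13], [11, 4, 3, 14], [12, 3, 14]]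
  fb := [(2, [9, 2, 7], [0, 2, 8, 7, 15, 9, 3, 14, 1]), (1, [10, 4, 3, 2, 8], [9, 4, 11, 12, 3, 2, 10]), (12, [14, 3, 12], [0, 3, 13, 4, 15, 12, 11, 10, 9, 2, 1, 14])]

theorem b63 : c63.certB links 63 = true := by decide +kernel

def c64 : PatCert where
  P := p64
  bl := [[0, 1, 5], [6], [2, 3, 4, 7, 9, 11, 14], [8], [10], [12], [13]]
  exc := [(8, 4), (10, 4)]
  paths := [[0, 3, 4], [0, 1, 5], [0, 1, 6], [0, 2, 7], [0, 2, 8], [0, 2, 9], [0, 3, 10], [0, 3, 11], [0, 3, 4, 12], [0, 3, 4, 13], [1, 0, 3], [1, 0, 3, 4], [1, 2, 8], [1, 2, 9], [1, 0, 3, 10], [1, 0, 3, 11], [1, 0, 3, 4, 12], [1, 2, 3, 4, 13], [2, 3, 4], [2, 1, 5], [2, 1, 6], [2, 3, 10], [2, 3, 11], [2, 3, 4, 12], [2, 3, 4, 13], [2, 1, 14], [3, 0, 1, 5], [3, 0, 1, 6], [3, 2, 7], [3, 2, 8], [3, 4, 12], [3, 4, 13],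 [4, 3, 2, 1, 5], [4, 3, 0, 1, 6], [4, 3, 2, 7], [4, 3, 2, 8], [4, 3, 9], [4, 3, 10], [5, 1, 7], [5, 1, 2, 8], [5, 1, 2, 9], [5, 1, 0, 3, 10], [5, 1, 2, 3, 11], [5, 1, 2, 3, 4, 12], [5, 1, 2, 3, 4, 13], [6, 1, 2, 8], [6, 1, 2, 9], [6, 1, 0, 3, 10], [6, 1, 0, 3, 11], [6, 1, 2, 3, 4, 12], [6, 1, 2, 3, 4, 13], [6, 1, 14], [7, 2, 9], [7, 2, 3, 10], [7, 2, 3, 11], [7, 2, 3, 4, 12], [7, 2, 3, 4, 13], [7, 1, 14], [8, 2, 3, 10], [8, 2, 3, 11], [8, 2, 3, 4, 12], [8, 2, 3, 4, 13], [8, 2, 1, 14], [9, 3, 11], [9, 3, 4, 12], [9, 3, 4, 13], [9, 3, 14], [10, 3, 4, 12], [10, 3, 4, 13], [10, 3, 14], [11, 4, 13], [11, 4, 14], [12, 4, 14]]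
  fb := [(2, [9, 2, 7], [0, 2, 8, 7, 15, 9, 3, 14, 1]), (13, [11, 3, 9], [0, 3, 10, 4, 9, 15, 11, 12, 13, 14, 1, 2])]

theorem b64 : c64.certB links 64 = true := by decide +kernel

def c65 : PatCert where
  P := p65
  bl := [[0, 1, 3, 4, 5, 10, 13], [2, 6, 9], [7], [8], [11], [12], [14]]
  exc := [(10, 4), (14, 4)]
  paths := [[0, 3, 4], [0, 1, 5], [0, 2, 6], [0, 2, 7], [0, 2, 8], [0, 3, 4, 11], [0, 3, 4, 12], [0, 3, 13], [0, 3, 14], [1, 3, 4], [1, 2, 7], [1, 2, 8], [1, 0, 9], [1, 0, 10], [1, 3, 4, 11], [1, 3, 4, 12], [1, 3, 13], [1, 3, 14], [2, 1, 3], [2, 1, 3, 4], [2, 1, 5], [2, 0, 10], [2, 1, 3, 4, 11], [2, 1, 3, 4, 12], [2, 1, 3, 13], [2, 1, 3, 14], [3, 1, 6], [3, 1, 2, 7], [3, 1, 2, 8], [3, 0, 9], [3, 4, 11], [3, 4, 12], [4, 3, 5], [4, 3, 1, 6], [4, 3, 1, 2, 7], [4,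 3, 1, 2, 8], [4, 3, 0, 9], [4, 3, 14], [5, 1, 2, 7], [5, 1, 2, 8], [5, 1, 0, 9], [5, 3, 10], [5, 3, 4, 11], [5, 3, 4, 12], [5, 3, 13], [6, 2, 8], [6, 2, 9], [6, 2, 0, 10], [6, 1, 3, 4, 11], [6, 1, 3, 4, 12], [6, 1, 3, 13], [6, 1, 3, 14], [7, 2, 9], [7, 2, 0, 10], [7, 2, 1, 3, 4, 11], [7, 2, 1, 3, 4, 12], [7, 2, 1, 3, 13], [7, 2, 1, 3, 14], [8, 2, 0, 10], [8, 2, 1, 3, 4, 11], [8, 2, 1, 3, 4, 12], [8, 2, 1, 3, 13], [8, 2, 1, 3, 14], [9, 0, 3, 4, 11], [9, 0, 3, 4, 12], [9, 0, 3, 13], [9, 0, 3, 14], [10, 4, 12], [10, 3, 13], [10, 3, 14], [11, 4, 13], [11, 4, 3, 14], [12, 4, 3, 14]]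
  fb := [(1, [11, 4, 3, 0, 9], [10, 4, 12, 13, 3, 0, 11]), (17, [5, 3, 13], [14, 3, 4, 0, 12, 11, 10, 9, 2, 1, 5, 15, 13])]

theorem b65 : c65.certB links 65 = true := by decide +kernel

def c66 : PatCert where
  P := p66
  bl := [[0, 1, 2, 3, 4, 5, 8, 10, 12], [6], [7], [9], [11], [13], [14]]
  exc := [(9, 4), (11, 4), (14, 4)]
  paths := [[0, 1, 2], [0, 4, 3], [0, 1, 5], [0, 1, 2, 6], [0, 1, 2, 7], [0, 1, 2, 8], [0, 4, 3, 9], [0, 4, 10], [0, 4, 11], [1, 2, 3], [1, 2, 6], [1, 2, 7], [1, 2, 8], [1, 2, 3, 9], [1, 4, 10], [1, 4, 11], [1, 0, 12], [1, 0, 13], [2, 3, 9], [2, 4, 10], [2, 4, 11], [2, 4, 12], [2, 4, 0, 13], [2, 1, 14], [3, 2, 5], [3, 2, 6], [3, 2, 7], [3, 4, 11], [3, 4, 12], [3, 4, 0, 13], [3, 4, 0, 14], [4, 2, 5], [4, 2, 6], [4, 2, 7], [4, 3, 8], [4, 3, 9], [4,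 0, 13], [4, 0, 14], [5, 2, 7], [5, 2, 8], [5, 2, 3, 9], [5, 1, 4, 10], [5, 1, 4, 11], [5, 1, 4, 12], [5, 1, 0, 13], [6, 2, 8], [6, 2, 3, 9], [6, 2, 4, 10], [6, 2, 4, 11], [6, 2, 4, 12], [6, 2, 4, 0, 13], [6, 2, 1, 14], [7, 2, 3, 9], [7, 2, 4, 10], [7, 2, 4, 11], [7, 2, 4, 12], [7, 2, 4, 0, 13], [7, 2, 1, 14], [8, 3, 10], [8, 3, 4, 11], [8, 3, 4, 12], [8, 3, 4, 0, 13], [8, 2, 1, 14], [9, 3, 4, 11], [9, 3, 4, 12], [9, 3, 4, 0, 13], [9, 3, 4, 0, 14], [10, 4, 12], [10, 4, 0, 13], [10, 4, 0, 14], [11, 4, 0, 13], [11, 4, 0, 14], [12, 0, 14]]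
  fb := [(1, [10, 3, 8], [9, 3, 4, 2, 8, 15, 10]), (17, [12, 4, 10], [11, 4, 3, 1, 9, 8, 2, 5, 14, 0, 12, 15, 10]), (1, [5, 1, 0, 13], [14, 1, 2, 4, 0, 13, 5])]

theorem b66 : c66.certB links 66 = true := by decide +kernel

def c67 : PatCert where
  P := p67
  bl := [[2, 5], [6], [7], [0, 1, 4, 8, 10, 12, 14], [9], [11], [13], [3]]
  exc := [(9, 4), (11, 4), (14, 4)]
  paths := [[0, 1, 2], [0, 1, 2, 3], [0, 1, 4], [0, 1, 2, 5], [0, 1, 2, 3, 6], [0, 1, 2, 3, 7], [0, 1, 4, 8], [0, 1, 4, 9], [0, 1, 10], [0, 1, 11], [1, 2, 3], [1, 2, 5], [1, 2, 3, 6], [1, 2, 3, 7], [1, 4, 8], [1, 4, 9], [1, 0, 13], [2, 3, 6], [2, 3, 7], [2, 4, 8], [2, 4, 9], [2, 4, 10], [2, 1, 11], [2, 1, 12], [2, 1, 0, 13], [3, 4, 9], [3, 4, 10], [3, 4, 1, 11], [3, 4, 1, 12], [3, 4, 1, 0, 13], [3, 2, 14],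 [4, 3, 5], [4, 3, 6], [4, 3, 7], [4, 1, 11], [4, 1, 12], [4, 1, 0, 13], [4, 2, 14], [5, 3, 7], [5, 3, 8], [5, 3, 4, 9], [5, 3, 4, 10], [5, 2, 1, 11], [5, 2, 1, 12], [5, 2, 1, 0, 13], [6, 3, 8], [6, 3, 4, 9], [6, 3, 4, 10], [6, 3, 4, 1, 11], [6, 3, 4, 1, 12], [6, 3, 4, 1, 0, 13], [6, 3, 2, 14], [7, 3, 4, 9], [7, 3, 4, 10], [7, 3, 4, 1, 11], [7, 3, 4, 1, 12], [7, 3, 4, 1, 0, 13], [7, 3, 2, 14], [8, 4, 10], [8, 4, 1, 11], [8, 4, 1, 12], [8, 4, 1, 0, 13], [8, 3, 2, 14], [9, 4, 1, 11], [9, 4, 1, 12], [9, 4, 1, 0, 13], [9, 4, 2, 14], [10, 1, 12], [10, 1, 0, 13], [10, 1, 14], [11, 1, 0, 13], [11, 1, 14], [12, 1, 14]]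
  fb := [(4, [10, 4, 8], [9, 4, 2, 1, 14, 5, 3, 8, 15, 10]), (12, [12, 1, 10], [11, 1, 0, 2, 13, 14, 5, 3, 4, 10, 15, 12]), (0, [5, 2, 1, 0, 13], [0, 14, 2, 1, 12, 5])]

theorem b67 : c67.certB links 67 = true := by decide +kernel

def c68 : PatCert where
  P := p68
  bl := [[5], [0, 1, 2, 4, 6, 10, 12, 14], [7], [8], [9], [11], [13], [3]]
  exc := [(5, 4), (11, 4), (14, 4)]
  paths := [[0, 1, 2], [0, 1, 2, 3], [0, 1, 4], [0, 1, 2, 5], [0, 1, 2, 6], [0, 1, 2, 3, 7], [0, 1, 2, 3, 8], [0, 1, 4, 9], [0, 1, 10], [0, 1, 11], [1, 2, 3], [1, 2, 5], [1, 2, 6], [1, 2, 3, 7], [1, 2, 3, 8], [1, 4, 9], [1, 0, 13], [2, 3, 7], [2, 3, 8], [2, 4, 9], [2, 4, 10], [2, 1, 11], [2, 1, 12], [2, 1, 0, 13], [3, 2, 5], [3, 4, 10], [3, 4, 1, 11], [3, 4, 1, 12], [3, 4, 1, 0, 13], [3, 2, 14], [4,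 2, 5], [4, 3, 6], [4, 3, 7], [4, 3, 8], [4, 1, 11], [4, 1, 12], [4, 1, 0, 13], [4, 2, 14], [5, 2, 3, 7], [5, 2, 3, 8], [5, 2, 4, 9], [5, 2, 4, 10], [5, 2, 1, 11], [5, 2, 1, 12], [5, 2, 1, 0, 13], [6, 3, 8], [6, 3, 9], [6, 2, 4, 10], [6, 2, 1, 11], [6, 2, 1, 12], [6, 2, 1, 0, 13], [6, 2, 14], [7, 3, 9], [7, 3, 4, 10], [7, 3, 4, 1, 11], [7, 3, 4, 1, 12], [7, 3, 4, 1, 0, 13], [7, 3, 2, 14], [8, 3, 4, 10], [8, 3, 4, 1, 11], [8, 3, 4, 1, 12], [8, 3, 4, 1, 0, 13], [8, 3, 2, 14], [9, 4, 1, 11], [9, 4, 1, 12], [9, 4, 1, 0, 13], [9, 4, 2, 14], [10, 1, 12], [10, 1, 0, 13], [10, 1, 14], [11, 1, 0, 13], [11, 1, 14], [12, 1, 14]]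
  fb := [(4, [6, 2, 14], [5, 2, 4, 3, 9, 10, 1, 14, 15, 6]), (12, [12, 1, 10], [0, 1, 11, 4, 15, 10, 9, 3, 2, 14, 13, 12]), (0, [5, 2, 1, 0, 13], [0, 14, 2, 1, 12, 5])]

theorem b68 : c68.certB links 68 = true := by decide +kernel

def c69 : PatCert where
  P := p69
  bl := [[5], [6], [7], [0, 1, 3, 4, 8, 10, 13, 15], [9], [11], [12], [14], [2]]
  exc := [(9, 4), (10, 4), (14, 4)]
  paths := [[0, 1, 2], [0, 1, 2, 5], [0, 1, 2, 6], [0, 1, 2, 7], [0, 3, 8], [0, 3, 9], [0, 4, 11], [0, 4, 12], [1, 0, 4], [1, 2, 5], [1, 2, 6], [1, 2, 7], [1, 3, 8], [1, 3, 9], [1, 0, 10], [1, 0, 4, 11], [1, 0, 4, 12], [1, 0, 13], [1, 0, 14], [2, 1, 0, 4], [2, 3, 9], [2, 3, 10], [2, 1, 0, 4, 11], [2, 1, 0, 4, 12], [2, 1, 0, 13], [2, 1, 0, 14], [3, 0, 4], [3, 2, 5], [3, 2, 6], [3, 2, 7], [3, 0,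 4, 11], [3, 0, 4, 12], [3, 0, 13], [3, 0, 14], [3, 1, 15], [4, 0, 1, 2, 5], [4, 0, 1, 2, 6], [4, 0, 1, 2, 7], [4, 0, 3, 8], [4, 0, 3, 9], [4, 0, 14], [4, 0, 15], [5, 2, 7], [5, 2, 8], [5, 2, 3, 9], [5, 2, 3, 10], [5, 2, 1, 0, 4, 11], [5, 2, 1, 0, 4, 12], [5, 2, 3, 0, 13], [5, 2, 3, 0, 14], [6, 2, 8], [6, 2, 3, 9], [6, 2, 3, 10], [6, 2, 1, 0, 4, 11], [6, 2, 1, 0, 4, 12], [6, 2, 1, 0, 13], [6, 2, 1, 0, 14], [6, 2, 15], [7, 2, 3, 9], [7, 2, 3, 10], [7, 2, 1, 0, 4, 11], [7, 2, 1, 0, 4, 12], [7, 2, 1, 0, 13], [7, 2, 1, 0, 14], [7, 2, 15], [8, 3, 10], [8, 3, 0, 4, 11], [8, 3, 0, 4, 12], [8, 3, 0, 13], [8, 3, 0, 14], [8, 2, 15], [9, 3, 0, 4, 11], [9, 3, 0, 4, 12], [9, 3, 0, 13], [9, 3, 0, 14], [9, 3, 1, 15], [10, 4, 12], [10, 0, 13], [10, 0, 14], [10, 0, 15], [11, 4, 13], [11,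 4, 0, 14], [11, 4, 0, 15], [12, 4, 0, 14], [12, 4, 0, 15], [13, 0, 15]]
  fb := [(2, [10, 3, 8], [1, 3, 9, 8, 16, 10, 0, 15, 2]), (1, [11, 4, 0, 3, 9], [10, 4, 12, 13, 0, 3, 11]), (12, [15, 0, 13], [1, 0, 14, 4, 16, 13, 12, 11, 10, 3, 2, 15])]

theorem b69 : c69.certB links 69 = true := by decide +kernel

end StrongArb.Data
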