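import Pool.Agent.Lib.MP_39c2b7_co.Data.Pats

/-! Certificates of the configurations 70 to 76. -/

namespace StrongArb.Data

def c70 : PatCert where
  P := p70
  bl := [[0, 2, 3, 4, 5, 9, 11, 13], [6], [7], [8], [10], [12], [14], [15], [1]]
  exc := [(10, 4), (12, 4)]
  paths := [[0, 3, 4], [0, 1, 6], [0, 1, 7], [0, 1, 8], [0, 2, 9], [0, 2, 10], [0, 2, 11], [0, 3, 12], [0, 3, 13], [0, 3, 4, 14], [0, 3, 4, 15], [1, 0, 3], [1, 0, 3, 4], [1, 2, 10], [1, 2, 11], [1, 0, 3, 12], [1, 0, 3, 13], [1, 0, 3, 4, 14], [1, 2, 3, 4, 15], [2, 3, 4], [2, 1, 5], [2, 1, 6], [2, 1, 7], [2, 1, 8], [2, 3, 12], [2, 3, 13], [2, 3, 4, 14], [2, 3, 4, 15], [3, 0, 1, 6], [3, 0, 1, 7], [3, 0, 1, 8], [3, 2, 9], [3, 2, 10], [3, 4, 14], [3, 4, 15], [4, 3, 2, 1, 6], [4, 3, 0, 1, 7], [4, 3, 0, 1, 8], [4, 3,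 2, 9], [4, 3, 2, 10], [4, 3, 11], [4, 3, 12], [5, 1, 7], [5, 1, 8], [5, 1, 9], [5, 1, 2, 10], [5, 3, 11], [5, 3, 12], [5, 4, 13], [5, 4, 14], [6, 1, 8], [6, 1, 9], [6, 1, 2, 10], [6, 1, 2, 11], [6, 1, 0, 3, 12], [6, 1, 2, 3, 13], [6, 1, 2, 3, 4, 14], [6, 1, 2, 3, 4, 15], [7, 1, 9], [7, 1, 2, 10], [7, 1, 2, 11], [7, 1, 0, 3, 12], [7, 1, 0, 3, 13], [7, 1, 2, 3, 4, 14], [7, 1, 2, 3, 4, 15], [8, 1, 2, 10], [8, 1, 2, 11], [8, 1, 0, 3, 12], [8, 1, 0, 3, 13], [8, 1, 2, 3, 4, 14], [8, 1, 2, 3, 4, 15], [9, 2, 11], [9, 2, 3, 12], [9, 2, 3, 13], [9, 2, 3, 4, 14], [9, 2, 3, 4, 15], [10, 2, 3, 12], [10, 2, 3, 13], [10, 2, 3, 4, 14], [10, 2, 3, 4, 15], [11, 3, 13], [11, 3, 4, 14], [11, 3, 4, 15], [12, 3, 4, 14], [12, 3, 4, 15], [13, 4, 15]]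
  fb := [(2, [11, 2, 9], [0, 2, 10, 9, 16, 11, 3, 5, 1]), (13, [13, 3, 11], [0, 3, 12, 4, 11, 16, 13, 14, 15, 5, 1, 2])]

theorem b70 : c70.certB links 70 = true := by decide +kernel

def c71 : PatCert where
  P := p71
  bl := [[1, 2, 3, 4, 5, 6, 9, 11], [7], [8], [10], [12], [0, 13, 15], [14]]
  exc := [(10, 4), (14, 4)]
  paths := [[0, 5, 2], [0, 5, 3], [0, 5, 4], [0, 1, 6], [0, 5, 2, 7], [0, 5, 2, 8], [0, 5, 3, 9], [0, 5, 3, 10], [0, 5, 4, 11], [0, 5, 12], [1, 2, 3], [1, 5, 4], [1, 2, 7], [1, 2, 8], [1, 2, 9], [1, 2, 3, 10], [1, 2, 3, 11], [1, 5, 12], [1, 0, 13], [1, 0, 14], [2, 5, 4], [2, 3, 10], [2, 3, 11], [2, 5, 12], [2, 5, 13], [2, 5, 0, 14], [2, 1, 15], [3, 2, 6], [3, 2, 7], [3, 2, 8], [3, 4, 12], [3, 5, 13], [3, 5, 0, 14], [3, 2, 1, 15], [4, 3, 2, 6], [4, 3, 2,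 7], [4, 3, 2, 8], [4, 3, 9], [4, 3, 10], [4, 5, 13], [4, 5, 0, 14], [4, 5, 1, 15], [5, 1, 6], [5, 2, 7], [5, 2, 8], [5, 3, 9], [5, 3, 10], [5, 4, 11], [5, 0, 14], [5, 1, 15], [6, 2, 8], [6, 2, 9], [6, 2, 3, 10], [6, 2, 3, 11], [6, 2, 5, 12], [6, 2, 5, 13], [6, 1, 0, 14], [7, 2, 9], [7, 2, 3, 10], [7, 2, 3, 11], [7, 2, 5, 12], [7, 2, 5, 13], [7, 2, 5, 0, 14], [7, 2, 1, 15], [8, 2, 3, 10], [8, 2, 3, 11], [8, 2, 5, 12], [8, 2, 5, 13], [8, 2, 5, 0, 14], [8, 2, 1, 15], [9, 3, 11], [9, 2, 5, 12], [9, 2, 5, 13], [9, 2, 5, 0, 14], [9, 2, 1, 15], [10, 3, 4, 12], [10, 3, 5, 13], [10, 3, 5, 0, 14], [10, 3, 2, 1, 15], [11, 3, 5, 13], [11, 4, 5, 0, 14], [11, 4, 5, 1, 15], [12, 5, 0, 14], [12, 5, 1, 15], [13, 0, 15]]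
  fb := [(5, [11, 3, 9], [4, 3, 10, 16, 9, 2, 5, 12, 11]), (1, [15, 0, 13], [14, 0, 1, 5, 13, 16, 15])]

theorem b71 : c71.certB links 71 = true := by decide +kernel

def c72 : PatCert where
  P := p72
  bl := [[0, 1, 2, 3, 4, 5, 6, 9, 12, 15], [7], [8], [10], [11], [13], [14], [16]]
  exc := [(7, 4), (15, 4)]
  paths := [[0, 2, 3], [0, 1, 8], [0, 1, 9], [0, 2, 3, 10], [0, 2, 3, 11], [0, 4, 13], [0, 4, 14], [0, 5, 16], [1, 0, 4], [1, 0, 5], [1, 0, 6], [1, 3, 10], [1, 3, 11], [1, 0, 12], [1, 0, 4, 13], [1, 0, 4, 14], [1, 0, 15], [1, 0, 5, 16], [2, 0, 4], [2, 0, 5], [2, 0, 6], [2, 1, 7], [2, 1, 8], [2, 1, 9], [2, 3, 10], [2, 3, 11], [2, 0, 4, 13], [2, 0, 4, 14], [2, 0, 15], [2, 0, 5, 16], [3, 1, 0, 4], [3, 1, 0, 5], [3, 1, 0, 6], [3, 1, 7], [3, 1, 8], [3, 1, 0, 4, 13], [3,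 1, 0, 4, 14], [3, 1, 0, 15], [3, 1, 0, 5, 16], [4, 0, 5], [4, 0, 6], [4, 0, 7], [4, 0, 1, 8], [4, 0, 1, 9], [4, 0, 2, 3, 10], [4, 0, 1, 3, 11], [4, 0, 5, 16], [5, 0, 7], [5, 0, 1, 8], [5, 0, 1, 9], [5, 0, 2, 3, 10], [5, 0, 2, 3, 11], [5, 0, 12], [5, 0, 4, 13], [5, 0, 4, 14], [6, 0, 1, 8], [6, 0, 1, 9], [6, 0, 2, 3, 10], [6, 0, 1, 3, 11], [6, 0, 12], [6, 0, 4, 13], [6, 0, 4, 14], [6, 0, 15], [7, 1, 9], [7, 1, 3, 10], [7, 1, 3, 11], [7, 0, 12], [7, 0, 4, 13], [7, 0, 4, 14], [7, 0, 15], [7, 0, 5, 16], [8, 1, 3, 10], [8, 1, 3, 11], [8, 1, 0, 12], [8, 1, 0, 4, 13], [8, 1, 0, 4, 14], [8, 1, 0, 15], [8, 1, 0, 5, 16], [9, 3, 11], [9, 3, 12], [9, 1, 0, 4, 13], [9, 1, 0, 4, 14], [9, 1, 0, 15], [9, 1, 0, 5, 16], [10, 3, 12], [10, 3, 1, 0, 4, 13], [10, 3, 1, 0, 4, 14], [10, 3, 1, 0,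 15], [10, 3, 1, 0, 5, 16], [11, 3, 1, 0, 4, 13], [11, 3, 1, 0, 4, 14], [11, 3, 1, 0, 15], [11, 3, 1, 0, 5, 16], [12, 4, 14], [12, 4, 15], [12, 0, 5, 16], [13, 4, 15], [13, 4, 0, 5, 16], [14, 4, 0, 5, 16]]
  fb := [(5, [8, 1, 0, 6], [2, 1, 7, 6, 8, 9, 3, 12, 0]), (0, [16, 5, 0, 4, 14], [5, 15, 4, 16, 6, 0])]

theorem b72 : c72.certB links 72 = true := by decide +kernel

def c73 : PatCert where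
  P := p73
  bl := [[0, 1, 2, 3, 4, 5, 6, 9, 11, 13, 15], [7], [8], [10], [12], [14], [16]]
  exc := [(10, 4), (12, 4), (15, 4), (16, 4)]
  paths := [[0, 5, 4], [0, 5, 6], [0, 5, 4, 7], [0, 5, 4, 8], [0, 1, 9], [0, 1, 10], [0, 2, 14], [0, 5, 16], [1, 0, 2], [1, 0, 5], [1, 4, 6], [1, 4, 7], [1, 4, 8], [1, 0, 12], [1, 0, 13], [1, 0, 2, 14], [1, 0, 15], [1, 0, 5, 16], [2, 0, 3], [2, 0, 5, 4], [2, 0, 5], [2, 0, 5, 6], [2, 0, 5, 4, 7], [2, 0, 5, 4, 8], [2, 0, 1, 9], [2, 0, 1, 10], [2, 0, 11], [2, 0, 12], [2, 0, 5, 16], [3, 4, 6], [3, 4, 7], [3, 4, 8], [3, 4, 9], [3, 1, 10], [3, 1, 11], [3, 0, 12], [3, 0, 13], [3, 0, 2, 14], [3, 0, 15], [3, 5, 16], [4, 1, 10], [4, 1, 11], [4, 3, 0, 12], [4, 3, 0, 13], [4, 3, 0, 2, 14], [4, 5, 15], [4, 5, 16], [5, 4, 7], [5, 4, 8], [5, 4, 9], [5,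 4, 1, 10], [5, 0, 11], [5, 0, 12], [5, 0, 13], [5, 0, 2, 14], [6, 4, 8], [6, 4, 9], [6, 4, 1, 10], [6, 5, 0, 11], [6, 5, 0, 12], [6, 5, 0, 13], [6, 5, 0, 2, 14], [6, 5, 15], [7, 4, 9], [7, 4, 1, 10], [7, 4, 1, 11], [7, 4, 3, 0, 12], [7, 4, 3, 0, 13], [7, 4, 3, 0, 2, 14], [7, 4, 5, 15], [7, 4, 5, 16], [8, 4, 1, 10], [8, 4, 1, 11], [8, 4, 3, 0, 12], [8, 4, 3, 0, 13], [8, 4, 3, 0, 2, 14], [8, 4, 5, 15], [8, 4, 5, 16], [9, 1, 11], [9, 1, 0, 12], [9, 1, 0, 13], [9, 1, 0, 2, 14], [9, 1, 0, 15], [9, 4, 5, 16], [10, 1, 0, 12], [10, 1, 0, 13], [10, 1, 0, 2, 14], [10, 1, 0, 15], [10, 1, 0, 5, 16], [11, 0, 13], [11, 0, 2, 14], [11, 0, 15], [11, 0, 5, 16], [12, 0, 2, 14], [12, 0, 15], [12, 0, 5, 16], [13, 0, 15], [13, 0, 5, 16], [14, 2, 0, 5, 16]]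
  fb := [(2, [11, 1, 9], [3, 1, 10, 9, 17, 11, 0, 5, 4]), (26, [13, 0, 11], [2, 0, 12, 1, 3, 17, 11, 10, 9, 4, 5, 15, 14, 13]), (0, [16, 5, 0, 2, 14], [2, 15, 5, 0, 13, 16]), (2, [6, 5, 15], [3, 5, 16, 15, 17, 6, 4, 1, 0])]

theorem b73 : c73.certB links 73 = true := by decide +kernel

def c74 : PatCert where
  P := p74
  bl := [[3, 5], [6], [7], [0, 1, 2, 8, 10, 12, 14], [9], [11], [13], [4]]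
  exc := [(9, 4), (11, 4), (14, 4)]
  paths := [[0, 1, 2], [0, 1, 2, 3], [0, 1, 2, 4], [0, 1, 2, 4, 5], [0, 1, 2, 4, 6], [0, 1, 2, 4, 7], [0, 1, 2, 8], [0, 1, 2, 9], [0, 1, 10], [0, 1, 11], [1, 2, 3], [1, 2, 4], [1, 2, 4, 5], [1, 2, 4, 6], [1, 2, 4, 7], [1, 2, 8], [1, 2, 9], [1, 0, 13], [2, 4, 5], [2, 4, 6], [2, 4, 7], [2, 1, 11], [2, 1, 12], [2, 1, 0, 13], [3, 4, 6], [3, 4, 7], [3, 4, 8], [3, 2, 9], [3, 2, 10], [3, 2, 1, 11], [3, 2, 1, 12], [3, 2, 1, 0, 13], [4, 2, 9], [4, 2, 10], [4, 2, 1, 11], [4, 2, 1, 12], [4, 2, 1, 0, 13], [4, 3, 14], [5, 4, 7], [5, 4, 8], [5, 4, 2, 9], [5, 4, 2, 10], [5, 4, 2, 1, 11], [5, 4, 2, 1, 12], [5, 4, 2, 1, 0, 13], [6, 4, 8], [6, 4, 2, 9], [6, 4, 2, 10], [6, 4, 2, 1, 11], [6, 4, 2, 1, 12], [6, 4, 2, 1, 0, 13], [6, 4, 3, 14], [7, 4, 2, 9], [7,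 4, 2, 10], [7, 4, 2, 1, 11], [7, 4, 2, 1, 12], [7, 4, 2, 1, 0, 13], [7, 4, 3, 14], [8, 2, 10], [8, 2, 1, 11], [8, 2, 1, 12], [8, 2, 1, 0, 13], [8, 2, 14], [9, 2, 1, 11], [9, 2, 1, 12], [9, 2, 1, 0, 13], [9, 2, 14], [10, 1, 12], [10, 1, 0, 13], [10, 2, 14], [11, 1, 0, 13], [11, 1, 14], [12, 1, 14]]
  fb := [(60, [10, 2, 8], [9, 2, 4, 3, 7, 6, 5, 14, 1, 10, 15, 8]), (5, [12, 1, 10], [0, 1, 11, 15, 10, 2, 14, 13, 12]), (0, [5, 3, 2, 1, 0, 13], [5, 14, 2, 1, 12, 3])]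

theorem b74 : c74.certB links 74 = true := by decide +kernel

def c75 : PatCert where
  P := p75
  bl := [[5], [6], [0, 2, 3, 4, 7, 9, 11, 14], [8], [10], [12], [13], [15], [1]]
  exc := [(8, 4), (10, 4), (14, 4)]
  paths := [[0, 2, 3], [0, 2, 3, 4], [0, 1, 5], [0, 1, 6], [0, 2, 7], [0, 2, 8], [0, 2, 9], [0, 2, 3, 10], [0, 2, 3, 11], [0, 2, 3, 4, 12], [0, 2, 3, 4, 13], [1, 2, 3], [1, 2, 3, 4], [1, 2, 8], [1, 2, 9], [1, 2, 3, 10], [1, 2, 3, 11], [1, 2, 3, 4, 12], [1, 2, 3, 4, 13], [1, 0, 14], [2, 3, 4], [2, 1, 5], [2, 1, 6], [2, 3, 10], [2, 3, 11], [2, 3, 4, 12], [2, 3, 4, 13], [2, 1, 15], [3, 2, 1, 5], [3, 2, 1, 6], [3, 2, 7], [3, 2, 8], [3, 4, 12], [3, 4, 13], [3, 2, 1, 15], [4, 3, 2, 1, 5], [4, 3, 2, 1, 6], [4, 3, 2, 7], [4, 3, 2, 8], [4, 3, 9], [4, 3, 10], [4, 3, 2, 1,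 15], [5, 1, 7], [5, 1, 2, 8], [5, 1, 2, 9], [5, 1, 2, 3, 10], [5, 1, 2, 3, 11], [5, 1, 2, 3, 4, 12], [5, 1, 2, 3, 4, 13], [5, 1, 0, 14], [6, 1, 2, 8], [6, 1, 2, 9], [6, 1, 2, 3, 10], [6, 1, 2, 3, 11], [6, 1, 2, 3, 4, 12], [6, 1, 2, 3, 4, 13], [6, 1, 0, 14], [6, 1, 15], [7, 2, 9], [7, 2, 3, 10], [7, 2, 3, 11], [7, 2, 3, 4, 12], [7, 2, 3, 4, 13], [7, 2, 14], [7, 1, 15], [8, 2, 3, 10], [8, 2, 3, 11], [8, 2, 3, 4, 12], [8, 2, 3, 4, 13], [8, 2, 14], [8, 2, 1, 15], [9, 3, 11], [9, 3, 4, 12], [9, 3, 4, 13], [9, 2, 14], [9, 2, 1, 15], [10, 3, 4, 12], [10, 3, 4, 13], [10, 3, 14], [10, 3, 2, 1, 15], [11, 4, 13], [11, 4, 14], [11, 3, 2, 1, 15], [12, 4, 14], [12, 4, 3, 2, 1, 15], [13, 4, 3, 2, 1, 15]]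
  fb := [(60, [9, 2, 7], [8, 2, 1, 0, 6, 5, 15, 14, 3, 9, 16, 7]), (6, [11, 3, 9], [10, 3, 4, 12, 13, 14, 2, 9, 16, 11]), (0, [15, 0, 2, 3, 4, 13], [0, 14, 3, 15, 1, 2])]

theorem b75 : c75.certB links 75 = true := by decide +kernel

def c76 : PatCert where
  P := p76
  bl := [[0, 1, 2, 3, 4, 5, 6, 9, 11, 13, 16], [7], [8], [10], [12], [14], [15], [17]]
  exc := [(10, 4), (12, 4), (17, 4)]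
  paths := [[0, 5, 2], [0, 5, 6], [0, 5, 2, 7], [0, 5, 2, 8], [0, 3, 12], [0, 4, 13], [0, 4, 14], [0, 4, 15], [0, 5, 16], [0, 5, 17], [1, 0, 3], [1, 5, 4], [1, 5, 6], [1, 2, 7], [1, 2, 8], [1, 0, 10], [1, 0, 11], [1, 0, 3, 12], [1, 5, 4, 13], [1, 5, 4, 14], [1, 5, 4, 15], [1, 5, 16], [1, 5, 17], [2, 1, 0, 3], [2, 5, 4], [2, 1, 0, 10], [2, 1, 0, 11], [2, 1, 0, 3, 12], [2, 5, 4, 13], [2, 5, 4, 14], [2, 5, 4, 15], [2, 5, 16], [2, 5, 17], [3, 0, 5], [3, 0, 5, 6], [3, 0, 5, 2, 7], [3, 0, 5, 2, 8], [3, 0, 9], [3, 0, 10], [3, 4, 14], [3, 4, 15], [3, 4, 16], [3, 0, 5, 17], [4, 5, 6], [4, 5, 2, 7], [4, 5, 2, 8], [4, 0, 9], [4, 0, 10], [4, 0, 11], [4, 3, 12], [4, 5, 17], [5, 2, 7], [5, 2, 8], [5, 1, 9], [5, 0, 10], [5, 0, 11], [5, 0, 3, 12], [5, 4, 13], [5, 4, 14], [5, 4, 15], [6,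 2, 8], [6, 2, 9], [6, 5, 0, 10], [6, 5, 0, 11], [6, 5, 0, 3, 12], [6, 5, 4, 13], [6, 5, 4, 14], [6, 5, 4, 15], [6, 5, 16], [7, 2, 9], [7, 2, 1, 0, 10], [7, 2, 1, 0, 11], [7, 2, 1, 0, 3, 12], [7, 2, 5, 4, 13], [7, 2, 5, 4, 14], [7, 2, 5, 4, 15], [7, 2, 5, 16], [7, 2, 5, 17], [8, 2, 5, 0, 10], [8, 2, 5, 0, 11], [8, 2, 1, 0, 3, 12], [8, 2, 5, 4, 13], [8, 2, 5, 4, 14], [8, 2, 5, 4, 15], [8, 2, 5, 16], [8, 2, 5, 17], [9, 0, 11], [9, 0, 3, 12], [9, 0, 4, 13], [9, 0, 4, 14], [9, 0, 4, 15], [9, 1, 5, 16], [9, 1, 5, 17], [10, 0, 3, 12], [10, 0, 4, 13], [10, 0, 4, 14], [10, 0, 4, 15], [10, 0, 5, 16], [10, 0, 5, 17], [11, 3, 13], [11, 0, 4, 14], [11, 0, 4, 15], [11, 0, 5, 16], [11, 0, 5, 17], [12, 3, 4, 14], [12, 3, 4, 15], [12, 3, 4, 16], [12, 3, 0, 5, 17], [13, 4, 15], [13, 4, 16],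 [13, 4, 5, 17], [14, 4, 16], [14, 4, 5, 17], [15, 4, 5, 17]]
  fb := [(12, [11, 0, 9], [1, 0, 10, 3, 18, 11, 12, 13, 4, 5, 2, 9]), (1, [13, 3, 11], [12, 3, 4, 0, 11, 18, 13]), (60, [6, 5, 16], [17, 5, 2, 1, 7, 8, 9, 0, 4, 16, 18, 6])]

theorem b76 : c76.certB links 76 = true := by decide +kernel

end StrongArb.Data
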