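import Pool.Agent.Lib.MP_39c2b7_co.Data.C00
import Pool.Agent.Lib.MP_39c2b7_co.Data.C01
import Pool.Agent.Lib.MP_39c2b7_co.Data.C02
import Pool.Agent.Lib.MP_39c2b7_co.Data.C03
import Pool.Agent.Lib.MP_39c2b7_co.Data.C04
import Pool.Agent.Lib.MP_39c2b7_co.Data.C05
import Pool.Agent.Lib.MP_39c2b7_co.Data.C06
import Pool.Agent.Lib.MP_39c2b7_co.Data.C07

/-! All certificates. -/

namespace StrongArb.Data

/-- all certificates, in order -/
def certs : List PatCert := [c0, c1, c2, c3, c4, c5, c6, c7, c8, c9, c10, c11, c12, c13, c14, c15, c16, c17, c18, c19, c20, c21, c22, c23, c24, c25, c26, c27, c28, c29, c30, c31, c32, c33, c34, c35, c36, c37, c38, c39, c40, c41, c42, c43, c44, c45, c46, c47, c48, c49, c50, c51, c52, c53, c54, c55, c56, c57, c58, c59, c60, c61, c62, c63, c64, c65, c66, c67, c68, c69, c70, c71, c72, c73, c74, c75, c76]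

theorem certs_links : certs.map (fun c => c.P.links) = links := rfl

end StrongArb.Data
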