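import Pool.Agent.Lib.MP_39c2b7_co.Data.Pats

/-! Certificates of the configurations 0 to 9. -/

namespace StrongArb.Data

def c0 : PatCert where
  P := p0
  bl := [[1, 2], [0, 3], [4], [5]]
  exc := []
  paths := [[0, 1, 2], [1, 0, 4], [2, 1, 0, 4], [3, 1, 5]]
  fb := []

theorem b0 : c0.certB links 0 = true := by decide +kernel

def c1 : PatCert where
  P := p1
  bl := [[2], [3], [0, 4], [5], [6], [1]]
  exc := []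
  paths := [[0, 1, 2], [0, 1, 3], [1, 0, 5], [2, 1, 4], [2, 1, 0, 5], [3, 1, 0, 5], [3, 1, 6], [4, 0, 6]]
  fb := []

theorem b1 : c1.certB links 1 = true := by decide +kernel

def c2 : PatCert where
  P := p2
  bl := [[1, 2, 3], [4], [5], [0, 6, 8], [7]]
  exc := []
  paths := [[0, 1, 2], [0, 1, 3], [0, 1, 2, 4], [0, 1, 5], [1, 2, 4], [1, 0, 7], [2, 1, 6], [2, 1, 0, 7], [2, 1, 8], [3, 1, 5], [3, 1, 6], [3, 1, 0, 7], [4, 2, 1, 6], [4, 2, 1, 0, 7], [4, 2, 1, 8], [5, 1, 0, 7], [5, 1, 8], [6, 1, 8]]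
  fb := []

theorem b2 : c2.certB links 2 = true := by decide +kernel

def c3 : PatCert where
  P := p3
  bl := [[3], [1, 2, 4], [5], [0, 6], [7], [8]]
  exc := []
  paths := [[0, 1, 3], [0, 2, 4], [0, 2, 5], [1, 2, 5], [1, 0, 6], [1, 0, 7], [2, 1, 3], [2, 0, 7], [2, 1, 8], [3, 1, 2, 5], [3, 1, 0, 6], [3, 1, 0, 7], [4, 2, 6], [4, 2, 0, 7], [4, 1, 8], [5, 2, 0, 7], [5, 2, 1, 8], [6, 0, 8]]
  fb := []

theorem b3 : c3.certB links 3 = true := by decide +kernel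

def c4 : PatCert where
  P := p4
  bl := [[1, 2, 3, 6], [4], [5], [0, 7, 9], [8]]
  exc := []
  paths := [[0, 1, 2], [0, 1, 3], [0, 1, 2, 4], [0, 1, 2, 5], [0, 1, 6], [1, 2, 4], [1, 2, 5], [1, 0, 8], [2, 1, 7], [2, 1, 0, 8], [2, 1, 9], [3, 2, 5], [3, 1, 6], [3, 1, 7], [3, 1, 0, 8], [4, 2, 6], [4, 2, 1, 7], [4, 2, 1, 0, 8], [4, 2, 1, 9], [5, 2, 1, 7], [5, 2, 1, 0, 8], [5, 2, 1, 9], [6, 1, 0, 8], [6, 1, 9], [7, 1, 9]]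
  fb := []

theorem b4 : c4.certB links 4 = true := by decide +kernel

def c5 : PatCert where
  P := p5
  bl := [[2, 3], [0, 1, 4, 8], [5], [6], [7]]
  exc := [(8, 4)]
  paths := [[0, 1, 2], [0, 1, 2, 3], [0, 1, 4], [0, 1, 5], [1, 2, 3], [1, 0, 7], [2, 1, 5], [2, 1, 6], [2, 1, 0, 7], [3, 2, 1, 5], [3, 2, 1, 6], [3, 2, 1, 0, 7], [4, 1, 6], [4, 1, 0, 7], [4, 1, 8], [5, 1, 0, 7], [5, 1, 8], [6, 1, 8]]
  fb := [(0, [3, 2, 1, 0, 7], [0, 8, 2, 1, 6, 3])]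

theorem b5 : c5.certB links 5 = true := by decide +kernel

def c6 : PatCert where
  P := p6
  bl := [[2, 3], [4], [0, 1, 5, 9], [6], [7], [8]]
  exc := [(9, 4)]
  paths := [[0, 1, 2], [0, 1, 2, 3], [0, 1, 2, 4], [0, 1, 5], [0, 1, 6], [1, 2, 3], [1, 2, 4], [1, 0, 8], [2, 1, 6], [2, 1, 7], [2, 1, 0, 8], [3, 2, 5], [3, 2, 1, 6], [3, 2, 1, 7], [3, 2, 1, 0, 8], [4, 2, 1, 6], [4, 2, 1, 7], [4, 2, 1, 0, 8], [4, 2, 9], [5, 1, 7], [5, 1, 0, 8], [5, 1, 9], [6, 1, 0, 8], [6, 1, 9], [7, 1, 9]]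
  fb := [(0, [3, 2, 1, 0, 8], [0, 9, 2, 1, 7, 3])]

theorem b6 : c6.certB links 6 = true := by decide +kernel

def c7 : PatCert where
  P := p7
  bl := [[2, 4], [0, 1, 3, 5, 8, 10], [6], [7], [9]]
  exc := [(5, 4), (7, 4), (10, 4)]
  paths := [[0, 1, 2], [0, 1, 3], [0, 1, 2, 4], [0, 1, 5], [0, 1, 3, 6], [0, 1, 7], [1, 2, 4], [1, 3, 6], [1, 0, 9], [2, 1, 3], [2, 1, 3, 6], [2, 1, 7], [2, 1, 8], [2, 1, 0, 9], [3, 1, 2, 4], [3, 1, 8], [3, 1, 0, 9], [3, 1, 10], [4, 2, 1, 3, 6], [4, 2, 1, 7], [4, 2, 1, 8], [4, 2, 1, 0, 9], [5, 1, 7], [5, 1, 8], [5, 1, 0, 9], [5, 1, 10], [6, 3, 1, 8], [6, 3, 1, 0, 9], [6, 3, 1, 10], [7, 1, 0, 9], [7, 1, 10], [8, 1, 10]]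
  fb := [(0, [6, 3, 1, 2, 4], [2, 5, 3, 1, 10, 6]), (0, [8, 1, 3, 6], [3, 7, 8, 1, 5, 6]), (0, [4, 2, 1, 0, 9], [0, 10, 2, 1, 8, 4])]

theorem b7 : c7.certB links 7 = true := by decide +kernel

def c8 : PatCert where
  P := p8
  bl := [[0, 1, 4], [5], [2, 3, 6, 8, 11], [7], [9], [10]]
  exc := [(7, 4)]
  paths := [[0, 1, 4], [0, 1, 5], [0, 2, 6], [0, 2, 7], [0, 2, 8], [0, 3, 9], [0, 3, 10], [1, 0, 3], [1, 2, 7], [1, 2, 8], [1, 0, 3, 9], [1, 0, 3, 10], [2, 1, 4], [2, 1, 5], [2, 3, 9], [2, 3, 10], [2, 1, 11], [3, 0, 1, 4], [3, 0, 1, 5], [3, 2, 6], [3, 2, 7], [4, 1, 6], [4, 1, 2, 7], [4, 1, 2, 8], [4, 1, 0, 3, 9], [4, 1, 2, 3, 10], [5, 1, 2, 7], [5, 1, 2, 8], [5, 1, 0, 3, 9], [5, 1, 0, 3, 10], [5, 1, 11], [6, 2, 8], [6, 2, 3, 9], [6, 2, 3, 10], [6, 1, 11], [7, 2, 3, 9], [7, 2, 3, 10], [7, 2, 1, 11], [8, 3, 10],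 [8, 3, 11], [9, 3, 11]]
  fb := [(2, [8, 2, 6], [0, 2, 7, 6, 12, 8, 3, 11, 1])]

theorem b8 : c8.certB links 8 = true := by decide +kernel

def c9 : PatCert where
  P := p9
  bl := [[1, 2, 4], [0, 8, 3, 5, 11], [6], [7], [9], [10]]
  exc := [(4, 4), (8, 4), (11, 4)]
  paths := [[0, 1, 2], [0, 1, 3], [0, 1, 2, 4], [0, 1, 3, 5], [0, 1, 3, 6], [0, 1, 3, 7], [1, 2, 4], [1, 3, 5], [1, 3, 6], [1, 3, 7], [1, 0, 9], [1, 0, 10], [2, 3, 6], [2, 3, 7], [2, 1, 8], [2, 1, 0, 9], [2, 1, 0, 10], [3, 2, 4], [3, 1, 0, 9], [3, 1, 0, 10], [3, 1, 11], [4, 2, 3, 6], [4, 2, 3, 7], [4, 2, 1, 8], [4, 2, 1, 0, 9], [4, 2, 1, 0, 10], [5, 3, 7], [5, 3, 8], [5, 2, 1, 0, 9], [5, 3, 1, 0, 10], [5, 2, 11], [6, 3, 8], [6, 3, 1, 0, 9], [6, 3, 1, 0, 10], [6, 3, 1, 11], [7, 3, 1, 0, 9], [7, 3, 1, 0, 10], [7, 3, 1, 11], [8, 0, 10], [8, 0, 11],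 [9, 0, 11]]
  fb := [(1, [5, 2, 11], [4, 2, 3, 1, 11, 12, 5]), (1, [9, 0, 1, 3, 7], [8, 0, 10, 11, 1, 3, 9]), (1, [4, 2, 1, 0, 10], [11, 2, 5, 3, 1, 0, 4])]

theorem b9 : c9.certB links 9 = true := by decide +kernel

end StrongArb.Data
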