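import Pool.Agent.Lib.MP_39c2b7_co.Interfaces

/-!
# Strong arboricity: the reducible configurations

Link lists, contractions and geometric certificates.
-/

namespace StrongArb.Data

/-- configuration 0 -/
def p0 : Pat := ⟨[[1, 3, 4, 5], [5, 2, 3, 0]],
  6, [1, 0, 0, 1, 2, 3]⟩

/-- configuration 1 -/
def p1 : Pat := ⟨[[1, 4, 5, 6], [6, 2, 3, 4, 0]],
  7, [2, 5, 0, 1, 2, 3, 4]⟩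

/-- configuration 2 -/
def p2 : Pat := ⟨[[1, 6, 7, 8], [8, 3, 2, 5, 6, 0], [3, 4, 5, 1]],
  9, [3, 0, 0, 0, 1, 2, 3, 4, 3]⟩

/-- configuration 3 -/
def p3 : Pat := ⟨[[1, 2, 6, 7, 8], [8, 3, 4, 2, 0], [4, 5, 6, 0, 1]],
  9, [3, 1, 1, 0, 1, 2, 3, 4, 5]⟩

/-- configuration 4 -/
def p4 : Pat := ⟨[[1, 7, 8, 9], [9, 3, 2, 6, 7, 0], [3, 4, 5, 6, 1]],
  10, [3, 0, 0, 0, 1, 2, 0, 3, 4, 3]⟩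

/-- configuration 5 -/
def p5 : Pat := ⟨[[1, 6, 7, 8], [8, 2, 4, 5, 6, 0], [8, 3, 4, 1]],
  9, [1, 1, 0, 0, 1, 2, 3, 4, 1]⟩

/-- configuration 6 -/
def p6 : Pat := ⟨[[1, 7, 8, 9], [9, 2, 5, 6, 7, 0], [9, 3, 4, 5, 1]],
  10, [2, 2, 0, 0, 1, 2, 3, 4, 5, 2]⟩

/-- configuration 7 -/
def p7 : Pat := ⟨[[1, 8, 9, 10], [10, 2, 5, 3, 7, 8, 0], [10, 4, 5, 1], [5, 6, 7, 1]],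
  11, [1, 1, 0, 1, 0, 1, 2, 3, 1, 4, 1]⟩

/-- configuration 8 -/
def p8 : Pat := ⟨[[1, 2, 3, 11], [11, 4, 5, 6, 2, 0], [6, 7, 8, 3, 0, 1], [8, 9, 10, 11, 0, 2]],
  12, [0, 0, 2, 2, 0, 1, 2, 3, 2, 4, 5, 2]⟩

/-- configuration 9 -/
def p9 : Pat := ⟨[[1, 8, 9, 10, 11], [11, 2, 3, 8, 0], [11, 4, 5, 3, 1], [5, 6, 7, 8, 1, 2]],
  12, [1, 0, 0, 1, 0, 1, 2, 3, 1, 4, 5, 1]⟩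

/-- configuration 10 -/
def p10 : Pat := ⟨[[1, 7, 8, 9, 3], [3, 2, 6, 7, 0], [3, 4, 5, 6, 1], [9, 10, 11, 4, 2, 1, 0]],
  12, [0, 0, 0, 0, 0, 1, 2, 0, 3, 0, 4, 5]⟩

/-- configuration 11 -/
def p11 : Pat := ⟨[[1, 3, 9, 10, 11], [11, 4, 2, 3, 0], [4, 5, 6, 7, 3, 1], [7, 8, 9, 0, 1, 2]],
  12, [0, 0, 0, 0, 0, 1, 2, 0, 3, 0, 4, 5]⟩

/-- configuration 12 -/
def p12 : Pat := ⟨[[1, 9, 10, 11], [11, 2, 5, 3, 8, 9, 0], [11, 4, 5, 1], [5, 6, 7, 8, 1]],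
  12, [1, 1, 0, 1, 0, 1, 2, 3, 1, 4, 5, 1]⟩

/-- configuration 13 -/
def p13 : Pat := ⟨[[1, 9, 10, 11], [11, 4, 2, 6, 3, 9, 0], [4, 5, 6, 1], [6, 7, 8, 9, 1]],
  12, [2, 0, 0, 2, 0, 1, 2, 3, 4, 2, 5, 2]⟩

/-- configuration 14 -/
def p14 : Pat := ⟨[[1, 9, 10, 11], [11, 2, 7, 8, 9, 0], [11, 3, 5, 6, 7, 1], [11, 4, 5, 2]],
  12, [3, 3, 1, 0, 0, 1, 2, 3, 4, 5, 6, 3]⟩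

/-- configuration 15 -/
def p15 : Pat := ⟨[[1, 9, 10, 11], [11, 2, 5, 3, 7, 8, 9, 0], [11, 4, 5, 1], [5, 6, 7, 1]],
  12, [1, 1, 0, 1, 0, 1, 2, 3, 4, 1, 5, 1]⟩

/-- configuration 16 -/
def p16 : Pat := ⟨[[1, 9, 10, 11, 12], [12, 2, 3, 9, 0], [12, 4, 5, 3, 1], [5, 6, 7, 8, 9, 1, 2]],
  13, [1, 1, 1, 7, 0, 1, 2, 3, 4, 1, 5, 6, 1]⟩

/-- configuration 17 -/
def p17 : Pat := ⟨[[1, 10, 11, 12], [12, 2, 6, 3, 9, 10, 0], [12, 4, 5, 6, 1], [6, 7, 8, 9, 1]],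
  13, [2, 2, 0, 2, 0, 1, 2, 3, 4, 2, 5, 6, 2]⟩

/-- configuration 18 -/
def p18 : Pat := ⟨[[1, 10, 11, 12], [12, 2, 5, 6, 3, 9, 10, 0], [12, 4, 5, 1], [6, 7, 8, 9, 1]],
  13, [1, 1, 0, 2, 0, 1, 2, 3, 4, 2, 1, 5, 1]⟩

/-- configuration 19 -/
def p19 : Pat := ⟨[[1, 10, 11, 12], [12, 4, 2, 6, 3, 9, 10, 0], [4, 5, 6, 1], [6, 7, 8, 9, 1]],
  13, [4, 0, 0, 0, 0, 1, 0, 2, 3, 0, 4, 5, 4]⟩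

/-- configuration 20 -/
def p20 : Pat := ⟨[[1, 11, 12, 13], [13, 5, 2, 4, 10, 11, 0], [5, 3, 4, 1], [5, 6, 7, 8, 4, 2], [8, 9, 10, 1, 2, 3]],
  14, [4, 0, 0, 0, 0, 0, 1, 2, 0, 3, 0, 4, 5, 4]⟩

/-- configuration 21 -/
def p21 : Pat := ⟨[[1, 2, 4, 12, 13], [13, 5, 6, 2, 0], [6, 3, 8, 9, 4, 0, 1], [6, 7, 8, 2], [9, 10, 11, 12, 0, 2]],
  14, [1, 0, 1, 1, 4, 0, 1, 2, 3, 4, 5, 6, 4, 1]⟩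

/-- configuration 22 -/
def p22 : Pat := ⟨[[1, 2, 10, 11, 4], [4, 5, 6, 2, 0], [6, 3, 8, 9, 10, 0, 1], [6, 7, 8, 2], [11, 12, 13, 5, 1, 0]],
  14, [0, 0, 1, 1, 0, 0, 1, 2, 3, 4, 1, 0, 5, 6]⟩

/-- configuration 23 -/
def p23 : Pat := ⟨[[1, 3, 11, 12, 13], [13, 5, 2, 3, 0], [5, 6, 7, 8, 3, 1], [8, 4, 10, 11, 0, 1, 2], [8, 9, 10, 3]],
  14, [4, 0, 0, 0, 0, 0, 1, 2, 0, 3, 0, 4, 5, 4]⟩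

/-- configuration 24 -/
def p24 : Pat := ⟨[[1, 2, 10, 11, 4], [4, 5, 6, 2, 0], [6, 7, 3, 9, 10, 0, 1], [7, 8, 9, 2], [11, 12, 13, 5, 1, 0]],
  14, [0, 0, 1, 2, 0, 0, 1, 2, 3, 2, 1, 0, 4, 5]⟩

/-- configuration 25 -/
def p25 : Pat := ⟨[[1, 11, 12, 13], [13, 2, 3, 8, 4, 10, 11, 0], [13, 5, 3, 1], [5, 6, 7, 8, 1, 2], [8, 9, 10, 1]],
  14, [4, 0, 0, 0, 0, 0, 1, 2, 0, 3, 0, 4, 5, 4]⟩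

/-- configuration 26 -/
def p26 : Pat := ⟨[[1, 11, 12, 13], [13, 2, 6, 3, 4, 10, 11, 0], [13, 5, 6, 1], [6, 7, 8, 9, 4, 1], [9, 10, 1, 3]],
  14, [1, 1, 0, 1, 1, 0, 1, 2, 3, 1, 4, 5, 6, 1]⟩

/-- configuration 27 -/
def p27 : Pat := ⟨[[1, 8, 9, 10, 3], [3, 2, 7, 8, 0], [3, 5, 6, 7, 1], [10, 11, 4, 13, 5, 2, 1, 0], [11, 12, 13, 3]],
  14, [0, 0, 0, 0, 4, 0, 1, 2, 0, 3, 0, 4, 5, 4]⟩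

/-- configuration 28 -/
def p28 : Pat := ⟨[[1, 4, 11, 12, 13], [13, 5, 2, 4, 0], [5, 3, 7, 8, 9, 4, 1], [5, 6, 7, 2], [9, 10, 11, 0, 1, 2]],
  14, [5, 0, 0, 0, 0, 0, 1, 2, 3, 0, 4, 5, 6, 5]⟩

/-- configuration 29 -/
def p29 : Pat := ⟨[[1, 4, 11, 12, 13], [13, 5, 2, 4, 0], [5, 6, 3, 8, 9, 4, 1], [6, 7, 8, 2], [9, 10, 11, 0, 1, 2]],
  14, [5, 0, 0, 1, 0, 0, 1, 2, 3, 0, 4, 5, 6, 5]⟩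

/-- configuration 30 -/
def p30 : Pat := ⟨[[1, 4, 11, 12, 13], [13, 5, 2, 4, 0], [5, 6, 7, 3, 9, 4, 1], [7, 8, 9, 2], [9, 10, 11, 0, 1, 2]],
  14, [5, 0, 0, 0, 0, 0, 1, 2, 3, 0, 4, 5, 6, 5]⟩

/-- configuration 31 -/
def p31 : Pat := ⟨[[1, 2, 11, 12, 13], [13, 5, 6, 2, 0], [6, 3, 4, 10, 11, 0, 1], [6, 7, 8, 4, 2], [8, 9, 10, 2, 3]],
  14, [5, 0, 1, 2, 2, 0, 1, 2, 3, 4, 1, 5, 6, 5]⟩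

/-- configuration 32 -/
def p32 : Pat := ⟨[[1, 12, 13, 14], [14, 5, 2, 4, 11, 12, 0], [5, 3, 4, 1], [5, 6, 7, 8, 9, 4, 2], [9, 10, 11, 1, 2, 3]],
  15, [5, 0, 0, 8, 0, 0, 1, 2, 3, 0, 4, 0, 5, 6, 7]⟩

/-- configuration 33 -/
def p33 : Pat := ⟨[[1, 3, 12, 13, 14], [14, 2, 8, 3, 0], [14, 5, 6, 7, 8, 1], [8, 4, 10, 11, 12, 0, 1], [8, 9, 10, 3]],
  15, [3, 3, 8, 3, 3, 0, 1, 2, 3, 4, 5, 6, 3, 7, 3]⟩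

/-- configuration 34 -/
def p34 : Pat := ⟨[[1, 2, 10, 4, 14], [14, 5, 6, 2, 0], [6, 3, 8, 9, 10, 0, 1], [6, 7, 8, 2], [10, 11, 12, 13, 14, 0]],
  15, [1, 0, 1, 1, 8, 0, 1, 2, 3, 4, 1, 5, 6, 7, 1]⟩

/-- configuration 35 -/
def p35 : Pat := ⟨[[1, 3, 12, 13, 14], [14, 2, 8, 3, 0], [14, 5, 6, 7, 8, 1], [8, 9, 4, 11, 12, 0, 1], [9, 10, 11, 3]],
  15, [3, 3, 8, 3, 4, 0, 1, 2, 3, 4, 5, 6, 3, 7, 3]⟩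

/-- configuration 36 -/
def p36 : Pat := ⟨[[1, 2, 3, 14], [14, 5, 6, 7, 2, 0], [7, 8, 9, 3, 0, 1], [9, 10, 4, 13, 14, 0, 2], [10, 11, 12, 13, 3]],
  15, [0, 0, 2, 2, 4, 0, 1, 2, 3, 2, 4, 5, 6, 4, 2]⟩

/-- configuration 37 -/
def p37 : Pat := ⟨[[1, 4, 12, 13, 14], [14, 5, 2, 4, 0], [5, 6, 3, 9, 10, 4, 1], [6, 7, 8, 9, 2], [10, 11, 12, 0, 1, 2]],
  15, [5, 0, 0, 1, 0, 0, 1, 2, 3, 1, 0, 4, 5, 6, 5]⟩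

/-- configuration 38 -/
def p38 : Pat := ⟨[[1, 4, 12, 13, 14], [14, 2, 3, 4, 0], [14, 5, 6, 7, 3, 1], [7, 8, 9, 4, 1, 2], [9, 10, 11, 12, 0, 1, 3]],
  15, [2, 0, 0, 2, 2, 0, 1, 2, 3, 2, 4, 5, 2, 6, 2]⟩

/-- configuration 39 -/
def p39 : Pat := ⟨[[1, 9, 10, 11, 3], [3, 2, 8, 9, 0], [3, 5, 6, 7, 8, 1], [11, 12, 4, 5, 2, 1, 0], [12, 13, 14, 5, 3]],
  15, [3, 0, 0, 0, 0, 0, 1, 2, 0, 3, 4, 3, 0, 5, 6]⟩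

/-- configuration 40 -/
def p40 : Pat := ⟨[[1, 2, 12, 13, 14], [14, 5, 6, 2, 0], [6, 3, 9, 4, 12, 0, 1], [6, 7, 8, 9, 2], [9, 10, 11, 12, 2]],
  15, [1, 0, 0, 1, 1, 0, 1, 2, 3, 1, 4, 5, 1, 6, 1]⟩

/-- configuration 41 -/
def p41 : Pat := ⟨[[1, 12, 13, 14], [14, 2, 3, 9, 4, 12, 0], [14, 5, 6, 3, 1], [6, 7, 8, 9, 1, 2], [9, 10, 11, 12, 1]],
  15, [1, 0, 0, 1, 1, 0, 1, 2, 3, 1, 4, 5, 1, 6, 1]⟩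

/-- configuration 42 -/
def p42 : Pat := ⟨[[1, 2, 3, 4, 14], [14, 5, 6, 7, 2, 0], [7, 8, 9, 3, 0, 1], [9, 10, 11, 4, 0, 2], [11, 12, 13, 14, 0, 3]],
  15, [0, 0, 2, 2, 2, 0, 1, 2, 3, 2, 4, 2, 5, 6, 2]⟩

/-- configuration 43 -/
def p43 : Pat := ⟨[[1, 12, 13, 14], [14, 2, 6, 3, 4, 11, 12, 0], [14, 5, 6, 1], [6, 7, 8, 4, 1], [8, 9, 10, 11, 1, 3]],
  15, [1, 1, 0, 1, 3, 0, 1, 2, 3, 4, 5, 3, 1, 6, 1]⟩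

/-- configuration 44 -/
def p44 : Pat := ⟨[[1, 2, 12, 13, 14], [14, 5, 6, 2, 0], [6, 3, 8, 4, 11, 12, 0, 1], [6, 7, 8, 2], [8, 9, 10, 11, 2]],
  15, [1, 0, 1, 1, 1, 0, 1, 2, 1, 3, 4, 1, 5, 6, 1]⟩

/-- configuration 45 -/
def p45 : Pat := ⟨[[1, 2, 12, 13, 14], [14, 5, 6, 2, 0], [6, 7, 3, 9, 4, 12, 0, 1], [7, 8, 9, 2], [9, 10, 11, 12, 2]],
  15, [1, 0, 1, 2, 2, 0, 1, 2, 3, 2, 4, 5, 2, 6, 1]⟩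

/-- configuration 46 -/
def p46 : Pat := ⟨[[1, 2, 13, 14, 15], [15, 5, 6, 2, 0], [6, 3, 9, 4, 12, 13, 0, 1], [6, 7, 8, 9, 2], [9, 10, 11, 12, 2]],
  16, [1, 0, 1, 1, 1, 0, 1, 2, 3, 1, 4, 5, 1, 6, 7, 1]⟩

/-- configuration 47 -/
def p47 : Pat := ⟨[[1, 2, 13, 14, 15], [15, 5, 6, 7, 2, 0], [7, 3, 10, 4, 13, 0, 1], [7, 8, 9, 10, 2], [10, 11, 12, 13, 2]],
  16, [2, 0, 0, 2, 2, 0, 1, 2, 3, 4, 2, 5, 6, 2, 7, 2]⟩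

/-- configuration 48 -/
def p48 : Pat := ⟨[[1, 7, 8, 2, 4, 15, 16], [16, 6, 7, 0], [8, 9, 10, 3, 4, 0], [10, 11, 12, 5, 4, 2], [5, 15, 0, 2, 3], [12, 13, 14, 15, 4, 3]],
  17, [1, 0, 2, 2, 1, 2, 0, 1, 2, 3, 2, 4, 2, 5, 6, 2, 1]⟩

/-- configuration 49 -/
def p49 : Pat := ⟨[[1, 3, 11, 4, 13, 14, 5], [5, 2, 3, 0], [5, 6, 7, 8, 3, 1], [8, 9, 10, 11, 0, 1, 2], [11, 12, 13, 0], [14, 15, 16, 6, 2, 1, 0]],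
  17, [0, 0, 0, 0, 0, 0, 0, 1, 0, 2, 3, 0, 4, 5, 0, 6, 7]⟩

/-- configuration 50 -/
def p50 : Pat := ⟨[[6, 7, 1, 2, 4, 14, 15, 5], [7, 8, 9, 3, 2, 0], [3, 4, 0, 1], [9, 10, 11, 12, 4, 2, 1], [12, 13, 14, 0, 2, 3], [15, 16, 6, 0]],
  17, [0, 1, 0, 1, 1, 0, 0, 1, 2, 1, 3, 4, 1, 5, 1, 0, 6]⟩

/-- configuration 51 -/
def p51 : Pat := ⟨[[6, 7, 1, 2, 13, 4, 16, 5], [7, 8, 9, 3, 2, 0], [3, 13, 0, 1], [9, 10, 11, 12, 13, 2, 1], [13, 14, 15, 16, 0], [16, 17, 6, 0]],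
  18, [0, 1, 1, 9, 1, 0, 0, 1, 2, 1, 3, 4, 5, 1, 6, 7, 1, 8]⟩

/-- configuration 52 -/
def p52 : Pat := ⟨[[1, 2, 14, 15, 16], [16, 6, 7, 2, 0], [7, 3, 5, 13, 14, 0, 1], [7, 8, 9, 4, 5, 2], [9, 10, 11, 12, 5, 3], [12, 13, 2, 3, 4]],
  17, [6, 0, 0, 1, 8, 1, 0, 1, 2, 1, 3, 4, 5, 1, 6, 7, 6]⟩

/-- configuration 53 -/
def p53 : Pat := ⟨[[1, 14, 15, 16], [16, 2, 3, 5, 13, 14, 0], [16, 6, 7, 8, 3, 1], [8, 4, 5, 1, 2], [8, 9, 10, 11, 5, 3], [11, 12, 13, 1, 3, 4]],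
  17, [2, 2, 0, 0, 2, 2, 0, 1, 2, 3, 4, 2, 5, 2, 6, 7, 2]⟩

/-- configuration 54 -/
def p54 : Pat := ⟨[[1, 2, 14, 15, 16], [16, 6, 7, 2, 0], [7, 3, 4, 11, 5, 14, 0, 1], [7, 8, 4, 2], [8, 9, 10, 11, 2, 3], [11, 12, 13, 14, 2]],
  17, [1, 0, 1, 1, 2, 2, 0, 1, 2, 3, 4, 2, 5, 6, 2, 7, 1]⟩

/-- configuration 55 -/
def p55 : Pat := ⟨[[1, 2, 14, 15, 16], [16, 6, 7, 2, 0], [7, 3, 9, 4, 5, 14, 0, 1], [7, 8, 9, 2], [9, 10, 11, 12, 5, 2], [12, 13, 14, 2, 4]],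
  17, [1, 0, 1, 1, 3, 3, 0, 1, 2, 3, 4, 5, 3, 6, 3, 7, 1]⟩

/-- configuration 56 -/
def p56 : Pat := ⟨[[1, 2, 4, 5, 16], [16, 6, 7, 2, 0], [7, 8, 3, 10, 11, 4, 0, 1], [8, 9, 10, 2], [11, 12, 13, 5, 0, 2], [13, 14, 15, 16, 0, 4]],
  17, [0, 0, 1, 2, 1, 1, 0, 1, 2, 3, 2, 1, 4, 1, 5, 6, 1]⟩

/-- configuration 57 -/
def p57 : Pat := ⟨[[7, 8, 1, 2, 3, 14, 4, 6], [8, 9, 10, 11, 2, 0], [11, 3, 0, 1], [11, 12, 13, 14, 0, 2], [14, 15, 5, 6, 0], [15, 16, 17, 18, 6, 4], [18, 7, 0, 4, 5]],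
  19, [0, 1, 0, 1, 0, 6, 0, 0, 1, 2, 3, 1, 4, 5, 1, 6, 7, 8, 6]⟩

/-- configuration 58 -/
def p58 : Pat := ⟨[[1, 7, 8, 9, 10], [10, 2, 5, 6, 7, 0], [10, 3, 4, 5, 1]],
  11, [2, 2, 0, 0, 1, 2, 3, 2, 4, 5, 2]⟩

/-- configuration 59 -/
def p59 : Pat := ⟨[[1, 9, 10, 11], [11, 2, 3, 7, 8, 9, 0], [11, 4, 3, 1], [4, 5, 6, 7, 1, 2]],
  12, [3, 3, 0, 6, 0, 1, 2, 3, 4, 3, 5, 3]⟩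

/-- configuration 60 -/
def p60 : Pat := ⟨[[1, 9, 10, 11], [11, 2, 3, 7, 8, 9, 0], [11, 4, 5, 6, 3, 1], [6, 7, 1, 2]],
  12, [3, 3, 6, 2, 0, 1, 2, 3, 4, 3, 5, 3]⟩

/-- configuration 61 -/
def p61 : Pat := ⟨[[1, 10, 11, 12], [12, 2, 8, 9, 10, 0], [12, 3, 6, 7, 8, 1], [12, 4, 5, 6, 2]],
  13, [2, 2, 2, 0, 0, 1, 2, 3, 2, 4, 2, 5, 2]⟩

/-- configuration 62 -/
def p62 : Pat := ⟨[[1, 10, 11, 12, 13], [13, 2, 8, 9, 10, 0], [13, 3, 6, 7, 8, 1], [13, 4, 5, 6, 2]],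
  14, [2, 2, 2, 0, 0, 1, 2, 3, 2, 4, 2, 5, 6, 2]⟩

/-- configuration 63 -/
def p63 : Pat := ⟨[[1, 2, 3, 14], [14, 5, 6, 7, 2, 0], [7, 8, 9, 3, 0, 1], [9, 4, 12, 13, 14, 0, 2], [9, 10, 11, 12, 3]],
  15, [0, 0, 2, 2, 2, 0, 1, 2, 3, 2, 4, 5, 2, 6, 2]⟩

/-- configuration 64 -/
def p64 : Pat := ⟨[[1, 2, 3, 14], [14, 5, 6, 7, 2, 0], [7, 8, 9, 3, 0, 1], [9, 10, 11, 4, 14, 0, 2], [11, 12, 13, 14, 3]],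
  15, [0, 0, 2, 2, 2, 0, 1, 2, 3, 2, 4, 2, 5, 6, 2]⟩

/-- configuration 65 -/
def p65 : Pat := ⟨[[1, 2, 9, 10, 3], [3, 5, 6, 2, 0], [6, 7, 8, 9, 0, 1], [10, 4, 13, 14, 5, 1, 0], [10, 11, 12, 13, 3]],
  15, [0, 0, 1, 0, 0, 0, 1, 2, 3, 1, 0, 4, 5, 0, 6]⟩

/-- configuration 66 -/
def p66 : Pat := ⟨[[1, 4, 12, 13, 14], [14, 5, 2, 4, 0], [5, 6, 7, 8, 3, 4, 1], [8, 9, 10, 4, 2], [10, 11, 12, 0, 1, 2, 3]],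
  15, [0, 0, 0, 0, 0, 0, 1, 2, 0, 3, 0, 4, 0, 5, 6]⟩

/-- configuration 67 -/
def p67 : Pat := ⟨[[1, 12, 13, 14], [14, 2, 4, 10, 11, 12, 0], [14, 5, 3, 4, 1], [5, 6, 7, 8, 4, 2], [8, 9, 10, 1, 2, 3]],
  15, [3, 3, 0, 7, 3, 0, 1, 2, 3, 4, 3, 5, 3, 6, 3]⟩

/-- configuration 68 -/
def p68 : Pat := ⟨[[1, 12, 13, 14], [14, 2, 4, 10, 11, 12, 0], [14, 5, 6, 3, 4, 1], [6, 7, 8, 9, 4, 2], [9, 10, 1, 2, 3]],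
  15, [1, 1, 1, 7, 1, 0, 1, 2, 3, 4, 1, 5, 1, 6, 1]⟩

/-- configuration 69 -/
def p69 : Pat := ⟨[[1, 3, 10, 4, 13, 14, 15], [15, 2, 3, 0], [15, 5, 6, 7, 8, 3, 1], [8, 9, 10, 0, 1, 2], [10, 11, 12, 13, 0]],
  16, [3, 3, 8, 3, 3, 0, 1, 2, 3, 4, 3, 5, 6, 3, 7, 3]⟩

/-- configuration 70 -/
def p70 : Pat := ⟨[[5, 1, 2, 3], [5, 6, 7, 8, 9, 2, 0], [9, 10, 11, 3, 0, 1], [11, 12, 13, 4, 5, 0, 2], [13, 14, 15, 5, 3]],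
  16, [0, 8, 0, 0, 0, 0, 1, 2, 3, 0, 4, 0, 5, 0, 6, 7]⟩

/-- configuration 71 -/
def p71 : Pat := ⟨[[1, 5, 13, 14, 15], [15, 6, 2, 5, 0], [6, 7, 8, 9, 3, 5, 1], [9, 10, 11, 4, 5, 2], [11, 12, 5, 3], [12, 13, 0, 1, 2, 3, 4]],
  16, [5, 0, 0, 0, 0, 0, 0, 1, 2, 0, 3, 0, 4, 5, 6, 5]⟩

/-- configuration 72 -/
def p72 : Pat := ⟨[[6, 7, 1, 2, 12, 4, 15, 5], [7, 8, 9, 3, 2, 0], [3, 12, 0, 1], [9, 10, 11, 12, 2, 1], [12, 13, 14, 15, 0], [15, 16, 6, 0]],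
  17, [0, 0, 0, 0, 0, 0, 0, 1, 2, 0, 3, 4, 0, 5, 6, 0, 7]⟩

/-- configuration 73 -/
def p73 : Pat := ⟨[[1, 11, 12, 13, 2, 15, 5, 3], [3, 4, 9, 10, 11, 0], [13, 14, 15, 0], [5, 4, 1, 0], [5, 6, 7, 8, 9, 1, 3], [15, 16, 6, 4, 3, 0]],
  17, [0, 0, 0, 0, 0, 0, 0, 1, 2, 0, 3, 0, 4, 0, 5, 0, 6]⟩

/-- configuration 74 -/
def p74 : Pat := ⟨[[1, 12, 13, 14], [14, 2, 10, 11, 12, 0], [14, 3, 4, 8, 9, 10, 1], [14, 5, 4, 2], [5, 6, 7, 8, 2, 3]],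
  15, [3, 3, 3, 0, 7, 0, 1, 2, 3, 4, 3, 5, 3, 6, 3]⟩

/-- configuration 75 -/
def p75 : Pat := ⟨[[1, 2, 14, 15], [15, 5, 6, 7, 2, 0], [7, 8, 9, 3, 14, 0, 1], [9, 10, 11, 4, 14, 2], [11, 12, 13, 14, 3]],
  16, [2, 8, 2, 2, 2, 0, 1, 2, 3, 2, 4, 2, 5, 6, 2, 7]⟩

/-- configuration 76 -/
def p76 : Pat := ⟨[[1, 9, 10, 11, 3, 4, 5], [5, 2, 9, 0], [5, 6, 7, 8, 9, 1], [11, 12, 13, 4, 0], [13, 14, 15, 16, 5, 0, 3], [16, 17, 6, 2, 1, 0, 4]],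
  18, [0, 0, 0, 0, 0, 0, 0, 1, 2, 0, 3, 0, 4, 0, 5, 6, 0, 7]⟩

/-- link lists of all configurations -/
def links : List (List (List ℕ)) := [
 [[1, 3, 4, 5], [5, 2, 3, 0]],
 [[1, 4, 5, 6], [6, 2, 3, 4, 0]],
 [[1, 6, 7, 8], [8, 3, 2, 5, 6, 0], [3, 4, 5, 1]],
 [[1, 2, 6, 7, 8], [8, 3, 4, 2, 0], [4, 5, 6, 0, 1]],
 [[1, 7, 8, 9], [9, 3, 2, 6, 7, 0], [3, 4, 5, 6, 1]],
 [[1, 6, 7, 8], [8, 2, 4, 5, 6, 0], [8, 3, 4, 1]],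
 [[1, 7, 8, 9], [9, 2, 5, 6, 7, 0], [9, 3, 4, 5, 1]],
 [[1, 8, 9, 10], [10, 2, 5, 3, 7, 8, 0], [10, 4, 5, 1], [5, 6, 7, 1]],
 [[1, 2, 3, 11], [11, 4, 5, 6, 2, 0], [6, 7, 8, 3, 0, 1], [8, 9, 10, 11, 0, 2]],
 [[1, 8, 9, 10, 11], [11, 2, 3, 8, 0], [11, 4, 5, 3, 1], [5, 6, 7, 8, 1, 2]],
 [[1, 7, 8, 9, 3], [3, 2, 6, 7, 0], [3, 4, 5, 6, 1], [9, 10, 11, 4, 2, 1, 0]],
 [[1, 3, 9, 10, 11], [11, 4, 2, 3, 0], [4, 5, 6, 7, 3, 1], [7, 8, 9, 0, 1, 2]],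
 [[1, 9, 10, 11], [11, 2, 5, 3, 8, 9, 0], [11, 4, 5, 1], [5, 6, 7, 8, 1]],
 [[1, 9, 10, 11], [11, 4, 2, 6, 3, 9, 0], [4, 5, 6, 1], [6, 7, 8, 9, 1]],
 [[1, 9, 10, 11], [11, 2, 7, 8, 9, 0], [11, 3, 5, 6, 7, 1], [11, 4, 5, 2]],
 [[1, 9, 10, 11], [11, 2, 5, 3, 7, 8, 9, 0], [11, 4, 5, 1], [5, 6, 7, 1]],
 [[1, 9, 10, 11, 12], [12, 2, 3, 9, 0], [12, 4, 5, 3, 1], [5, 6, 7, 8, 9, 1, 2]],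
 [[1, 10, 11, 12], [12, 2, 6, 3, 9, 10, 0], [12, 4, 5, 6, 1], [6, 7, 8, 9, 1]],
 [[1, 10, 11, 12], [12, 2, 5, 6, 3, 9, 10, 0], [12, 4, 5, 1], [6, 7, 8, 9, 1]],
 [[1, 10, 11, 12], [12, 4, 2, 6, 3, 9, 10, 0], [4, 5, 6, 1], [6, 7, 8, 9, 1]],
 [[1, 11, 12, 13], [13, 5, 2, 4, 10, 11, 0], [5, 3, 4, 1], [5, 6, 7, 8, 4, 2], [8, 9, 10, 1, 2, 3]],
 [[1, 2, 4, 12, 13], [13, 5, 6, 2, 0], [6, 3, 8, 9, 4, 0, 1], [6, 7, 8, 2], [9, 10, 11, 12, 0, 2]],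
 [[1, 2, 10, 11, 4], [4, 5, 6, 2, 0], [6, 3, 8, 9, 10, 0, 1], [6, 7, 8, 2], [11, 12, 13, 5, 1, 0]],
 [[1, 3, 11, 12, 13], [13, 5, 2, 3, 0], [5, 6, 7, 8, 3, 1], [8, 4, 10, 11, 0, 1, 2], [8, 9, 10, 3]],
 [[1, 2, 10, 11, 4], [4, 5, 6, 2, 0], [6, 7, 3, 9, 10, 0, 1], [7, 8, 9, 2], [11, 12, 13, 5, 1, 0]],
 [[1, 11, 12, 13], [13, 2, 3, 8, 4, 10, 11, 0], [13, 5, 3, 1], [5, 6, 7, 8, 1, 2], [8, 9, 10, 1]],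
 [[1, 11, 12, 13], [13, 2, 6, 3, 4, 10, 11, 0], [13, 5, 6, 1], [6, 7, 8, 9, 4, 1], [9, 10, 1, 3]],
 [[1, 8, 9, 10, 3], [3, 2, 7, 8, 0], [3, 5, 6, 7, 1], [10, 11, 4, 13, 5, 2, 1, 0], [11, 12, 13, 3]],
 [[1, 4, 11, 12, 13], [13, 5, 2, 4, 0], [5, 3, 7, 8, 9, 4, 1], [5, 6, 7, 2], [9, 10, 11, 0, 1, 2]],
 [[1, 4, 11, 12, 13], [13, 5, 2, 4, 0], [5, 6, 3, 8, 9, 4, 1], [6, 7, 8, 2], [9, 10, 11, 0, 1, 2]],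
 [[1, 4, 11, 12, 13], [13, 5, 2, 4, 0], [5, 6, 7, 3, 9, 4, 1], [7, 8, 9, 2], [9, 10, 11, 0, 1, 2]],
 [[1, 2, 11, 12, 13], [13, 5, 6, 2, 0], [6, 3, 4, 10, 11, 0, 1], [6, 7, 8, 4, 2], [8, 9, 10, 2, 3]],
 [[1, 12, 13, 14], [14, 5, 2, 4, 11, 12, 0], [5, 3, 4, 1], [5, 6, 7, 8, 9, 4, 2], [9, 10, 11, 1, 2, 3]],
 [[1, 3, 12, 13, 14], [14, 2, 8, 3, 0], [14, 5, 6, 7, 8, 1], [8, 4, 10, 11, 12, 0, 1], [8, 9, 10, 3]],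
 [[1, 2, 10, 4, 14], [14, 5, 6, 2, 0], [6, 3, 8, 9, 10, 0, 1], [6, 7, 8, 2], [10, 11, 12, 13, 14, 0]],
 [[1, 3, 12, 13, 14], [14, 2, 8, 3, 0], [14, 5, 6, 7, 8, 1], [8, 9, 4, 11, 12, 0, 1], [9, 10, 11, 3]],
 [[1, 2, 3, 14], [14, 5, 6, 7, 2, 0], [7, 8, 9, 3, 0, 1], [9, 10, 4, 13, 14, 0, 2], [10, 11, 12, 13, 3]],
 [[1, 4, 12, 13, 14], [14, 5, 2, 4, 0], [5, 6, 3, 9, 10, 4, 1], [6, 7, 8, 9, 2], [10, 11, 12, 0, 1, 2]],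
 [[1, 4, 12, 13, 14], [14, 2, 3, 4, 0], [14, 5, 6, 7, 3, 1], [7, 8, 9, 4, 1, 2], [9, 10, 11, 12, 0, 1, 3]],
 [[1, 9, 10, 11, 3], [3, 2, 8, 9, 0], [3, 5, 6, 7, 8, 1], [11, 12, 4, 5, 2, 1, 0], [12, 13, 14, 5, 3]],
 [[1, 2, 12, 13, 14], [14, 5, 6, 2, 0], [6, 3, 9, 4, 12, 0, 1], [6, 7, 8, 9, 2], [9, 10, 11, 12, 2]],
 [[1, 12, 13, 14], [14, 2, 3, 9, 4, 12, 0], [14, 5, 6, 3, 1], [6, 7, 8, 9, 1, 2], [9, 10, 11, 12, 1]],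
 [[1, 2, 3, 4, 14], [14, 5, 6, 7, 2, 0], [7, 8, 9, 3, 0, 1], [9, 10, 11, 4, 0, 2], [11, 12, 13, 14, 0, 3]],
 [[1, 12, 13, 14], [14, 2, 6, 3, 4, 11, 12, 0], [14, 5, 6, 1], [6, 7, 8, 4, 1], [8, 9, 10, 11, 1, 3]],
 [[1, 2, 12, 13, 14], [14, 5, 6, 2, 0], [6, 3, 8, 4, 11, 12, 0, 1], [6, 7, 8, 2], [8, 9, 10, 11, 2]],
 [[1, 2, 12, 13, 14], [14, 5, 6, 2, 0], [6, 7, 3, 9, 4, 12, 0, 1], [7, 8, 9, 2], [9, 10, 11, 12, 2]],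
 [[1, 2, 13, 14, 15], [15, 5, 6, 2, 0], [6, 3, 9, 4, 12, 13, 0, 1], [6, 7, 8, 9, 2], [9, 10, 11, 12, 2]],
 [[1, 2, 13, 14, 15], [15, 5, 6, 7, 2, 0], [7, 3, 10, 4, 13, 0, 1], [7, 8, 9, 10, 2], [10, 11, 12, 13, 2]],
 [[1, 7, 8, 2, 4, 15, 16], [16, 6, 7, 0], [8, 9, 10, 3, 4, 0], [10, 11, 12, 5, 4, 2], [5, 15, 0, 2, 3], [12, 13, 14, 15, 4, 3]],
 [[1, 3, 11, 4, 13, 14, 5], [5, 2, 3, 0], [5, 6, 7, 8, 3, 1], [8, 9, 10, 11, 0, 1, 2], [11, 12, 13, 0], [14, 15, 16, 6, 2, 1, 0]],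
 [[6, 7, 1, 2, 4, 14, 15, 5], [7, 8, 9, 3, 2, 0], [3, 4, 0, 1], [9, 10, 11, 12, 4, 2, 1], [12, 13, 14, 0, 2, 3], [15, 16, 6, 0]],
 [[6, 7, 1, 2, 13, 4, 16, 5], [7, 8, 9, 3, 2, 0], [3, 13, 0, 1], [9, 10, 11, 12, 13, 2, 1], [13, 14, 15, 16, 0], [16, 17, 6, 0]],
 [[1, 2, 14, 15, 16], [16, 6, 7, 2, 0], [7, 3, 5, 13, 14, 0, 1], [7, 8, 9, 4, 5, 2], [9, 10, 11, 12, 5, 3], [12, 13, 2, 3, 4]],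
 [[1, 14, 15, 16], [16, 2, 3, 5, 13, 14, 0], [16, 6, 7, 8, 3, 1], [8, 4, 5, 1, 2], [8, 9, 10, 11, 5, 3], [11, 12, 13, 1, 3, 4]],
 [[1, 2, 14, 15, 16], [16, 6, 7, 2, 0], [7, 3, 4, 11, 5, 14, 0, 1], [7, 8, 4, 2], [8, 9, 10, 11, 2, 3], [11, 12, 13, 14, 2]],
 [[1, 2, 14, 15, 16], [16, 6, 7, 2, 0], [7, 3, 9, 4, 5, 14, 0, 1], [7, 8, 9, 2], [9, 10, 11, 12, 5, 2], [12, 13, 14, 2, 4]],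
 [[1, 2, 4, 5, 16], [16, 6, 7, 2, 0], [7, 8, 3, 10, 11, 4, 0, 1], [8, 9, 10, 2], [11, 12, 13, 5, 0, 2], [13, 14, 15, 16, 0, 4]],
 [[7, 8, 1, 2, 3, 14, 4, 6], [8, 9, 10, 11, 2, 0], [11, 3, 0, 1], [11, 12, 13, 14, 0, 2], [14, 15, 5, 6, 0], [15, 16, 17, 18, 6, 4], [18, 7, 0, 4, 5]],
 [[1, 7, 8, 9, 10], [10, 2, 5, 6, 7, 0], [10, 3, 4, 5, 1]],
 [[1, 9, 10, 11], [11, 2, 3, 7, 8, 9, 0], [11, 4, 3, 1], [4, 5, 6, 7, 1, 2]],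
 [[1, 9, 10, 11], [11, 2, 3, 7, 8, 9, 0], [11, 4, 5, 6, 3, 1], [6, 7, 1, 2]],
 [[1, 10, 11, 12], [12, 2, 8, 9, 10, 0], [12, 3, 6, 7, 8, 1], [12, 4, 5, 6, 2]],
 [[1, 10, 11, 12, 13], [13, 2, 8, 9, 10, 0], [13, 3, 6, 7, 8, 1], [13, 4, 5, 6, 2]],
 [[1, 2, 3, 14], [14, 5, 6, 7, 2, 0], [7, 8, 9, 3, 0, 1], [9, 4, 12, 13, 14, 0, 2], [9, 10, 11, 12, 3]],
 [[1, 2, 3, 14], [14, 5, 6, 7, 2, 0], [7, 8, 9, 3, 0, 1], [9, 10, 11, 4, 14, 0, 2], [11, 12, 13, 14, 3]],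
 [[1, 2, 9, 10, 3], [3, 5, 6, 2, 0], [6, 7, 8, 9, 0, 1], [10, 4, 13, 14, 5, 1, 0], [10, 11, 12, 13, 3]],
 [[1, 4, 12, 13, 14], [14, 5, 2, 4, 0], [5, 6, 7, 8, 3, 4, 1], [8, 9, 10, 4, 2], [10, 11, 12, 0, 1, 2, 3]],
 [[1, 12, 13, 14], [14, 2, 4, 10, 11, 12, 0], [14, 5, 3, 4, 1], [5, 6, 7, 8, 4, 2], [8, 9, 10, 1, 2, 3]],
 [[1, 12, 13, 14], [14, 2, 4, 10, 11, 12, 0], [14, 5, 6, 3, 4, 1], [6, 7, 8, 9, 4, 2], [9, 10, 1, 2, 3]],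
 [[1, 3, 10, 4, 13, 14, 15], [15, 2, 3, 0], [15, 5, 6, 7, 8, 3, 1], [8, 9, 10, 0, 1, 2], [10, 11, 12, 13, 0]],
 [[5, 1, 2, 3], [5, 6, 7, 8, 9, 2, 0], [9, 10, 11, 3, 0, 1], [11, 12, 13, 4, 5, 0, 2], [13, 14, 15, 5, 3]],
 [[1, 5, 13, 14, 15], [15, 6, 2, 5, 0], [6, 7, 8, 9, 3, 5, 1], [9, 10, 11, 4, 5, 2], [11, 12, 5, 3], [12, 13, 0, 1, 2, 3, 4]],
 [[6, 7, 1, 2, 12, 4, 15, 5], [7, 8, 9, 3, 2, 0], [3, 12, 0, 1], [9, 10, 11, 12, 2, 1], [12, 13, 14, 15, 0], [15, 16, 6, 0]],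
 [[1, 11, 12, 13, 2, 15, 5, 3], [3, 4, 9, 10, 11, 0], [13, 14, 15, 0], [5, 4, 1, 0], [5, 6, 7, 8, 9, 1, 3], [15, 16, 6, 4, 3, 0]],
 [[1, 12, 13, 14], [14, 2, 10, 11, 12, 0], [14, 3, 4, 8, 9, 10, 1], [14, 5, 4, 2], [5, 6, 7, 8, 2, 3]],
 [[1, 2, 14, 15], [15, 5, 6, 7, 2, 0], [7, 8, 9, 3, 14, 0, 1], [9, 10, 11, 4, 14, 2], [11, 12, 13, 14, 3]],
 [[1, 9, 10, 11, 3, 4, 5], [5, 2, 9, 0], [5, 6, 7, 8, 9, 1], [11, 12, 13, 4, 0], [13, 14, 15, 16, 5, 0, 3], [16, 17, 6, 2, 1, 0, 4]]]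

end StrongArb.Data
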